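import Pool.Agent.H16.MB.Defs

/-!
# MP_c844e7 (Martio), improved constant: definitions

`N = n + 2`, `d = n + 1 = N - 1`.  `MB.gw s` is the weight of the plane, `MB.kw s` the weight of the
radial derivative it produces, `s = √(π/2)/d` in the application.
-/

set_option autoImplicit false

open MeasureTheory Set

namespace MB

/-- Mills' ratio of the normal distribution. -/
noncomputable def mil (ρ : ℝ) : ℝ := Real.exp (ρ ^ 2 / 2) * ∫ t in Ioi ρ, Real.exp (-t ^ 2 / 2)

/-- `√(π/2)`, the value of `mil` at `0`. -/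
noncomputable def r0 : ℝ := Real.sqrt (Real.pi / 2)

/-- The weight of the plane. -/
noncomputable def gw (s ρ : ℝ) : ℝ := max 0 (1 - s / ρ)

/-- The weight of the radial derivative. -/
noncomputable def kw (s ρ : ℝ) : ℝ :=
  if s ≤ ρ then 1 + (mil ρ - s) / ρ else Real.exp ((ρ ^ 2 - s ^ 2) / 2) * mil s / ρ

/-- The Euclidean length in the plane. -/
noncomputable def rz (z : ℝ × ℝ) : ℝ := Real.sqrt (z.1 ^ 2 + z.2 ^ 2)

/-- `∫_0^∞ gw R² exp(-R²/2) ∫_0^R H`. -/
noncomputable def dbw (s : ℝ) (H : ℝ → ENNReal) : ENNReal :=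
  ∫⁻ R in Ioi (0 : ℝ), ENNReal.ofReal (gw s R * (R ^ 2 * Real.exp (-R ^ 2 / 2))) *
    ∫⁻ ρ in Ioo 0 R, H ρ

/-- The constant part of the bound of the energy density. -/
noncomputable def eC (n : ℕ) (s : ℝ) (p : (ℝ × ℝ) × (Fin (n + 1) → ℝ)) : ℝ :=
  gw s (rz p.1) * kp (T n p) + kw s (rz p.1) * (1 - kp (T n p))

/-- The coefficient of the squared stretching in the bound of the energy density. -/
noncomputable def mC (n : ℕ) (s : ℝ) (p : (ℝ × ℝ) × (Fin (n + 1) → ℝ)) : ℝ :=
  gw s (rz p.1) * ((n + 1) - kp (T n p)) + kw s (rz p.1) * kp (T n p)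

/-- The bound of the squared stretching. -/
noncomputable def lam {n : ℕ} (c R : ℝ) (S : E (n + 2) → E (n + 3)) (G : E (n + 2) → E (n + 2))
    (X : E (n + 3)) : ℝ := (c * Dd R S G X) ^ ((2 : ℝ) / (n + 2))

/-- The function of one variable in the final estimate (`N = n + 2`). -/
noncomputable def fmu (n : ℕ) (t : ℝ) : ℝ :=
  ((n + 2) * t - n * t ^ (((n : ℝ) + 2) / n)) / 2

end MB
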