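import Pool.Agent.H16.MC.Mea
import Pool.Agent.H16.MB.Pol
import Pool.Agent.H16.MB.Mom

/-!
Row Eqm (MP_c844e7, about 100 lines).  The weighted second moment.

PROOF.  `nsq (T n p) = ofReal (rz p.1 ^ 2) + ofReal (∑ j, p.2 j ^ 2)` (`norm_T`, `Real.sq_sqrt`), `∫⁻ W, ofReal (∑ j, W j ^ 2) ∂(gad (n+1)) = n + 1` (sum of variances; or subtract in `mom_norm`; or `∫⁻ ofReal (x^2) ∂ga = 1` and `measurePreserving_eval`).
So (`lintegral_prod_mul`) the left side is `∫⁻ ofReal (gw s (rz z) * (rz z)^2) ∂ga2 + (n+1) ∫⁻ ofReal (gw s (rz z)) ∂ga2`.  By `eC_add` the right side is `∫⁻ ofReal (kw s (rz z)) ∂ga2 + (n+1) ∫⁻ ofReal (gw s (rz z)) ∂ga2`.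
`∫⁻ ofReal (gw s (rz z) (rz z)²) ∂ga2 = ∫⁻ ofReal (kw s (rz z)) ∂ga2`: by `pol_int` and `rz_pol` both are integrals over `θ` of, for every `θ`, `∫⁻ ρ in Ioi 0, ofReal (ρ exp(-ρ²/2)) * ofReal (gw s ρ ρ²) = dbw s (fun _ => 1)`
(`∫⁻ ρ in Ioo 0 R, 1 = ofReal R`) and `∫⁻ ρ in Ioi 0, ofReal (ρ exp(-ρ²/2)) * ofReal (kw s ρ) = dbw s (fun _ => 1)` (`dbw_eq`).
`em_fin`: `gw ≤ 1` and `mom_norm`.
-/

set_option autoImplicit false

open MeasureTheory Set

namespace MB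

theorem Eqm_kw {s : ℝ} (hs : 0 < s) (z : ℝ × ℝ) : 0 ≤ kw s (rz z) := by
  rcases (Real.sqrt_nonneg (z.1 ^ 2 + z.2 ^ 2)).eq_or_lt with h | h
  · have h1 : rz z = 0 := h.symm
    rw [h1]
    unfold kw
    rw [if_neg (not_le.2 hs), div_zero]
  · exact kw_nonneg hs.le h

theorem Eqm_pol {s : ℝ} (hs : 0 < s) :
    ∫⁻ z, ENNReal.ofReal (gw s (rz z) * rz z ^ 2) ∂ga2 = ∫⁻ z, ENNReal.ofReal (kw s (rz z)) ∂ga2 := by
  have hm1 : Measurable (fun z : ℝ × ℝ => ENNReal.ofReal (gw s (rz z) * rz z ^ 2)) :=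
    (((gw_meas s).comp rz_cont.measurable).mul (rz_cont.measurable.pow_const 2)).ennreal_ofReal
  have hm2 : Measurable (fun z : ℝ × ℝ => ENNReal.ofReal (kw s (rz z))) :=
    ((kw_meas s).comp rz_cont.measurable).ennreal_ofReal
  rw [pol_int _ hm1, pol_int _ hm2]
  refine lintegral_congr fun θ => ?_
  have h1 : dbw s (fun _ => 1) = ∫⁻ ρ in Ioi (0 : ℝ), ENNReal.ofReal (ρ * Real.exp (-ρ ^ 2 / 2)) *
      ENNReal.ofReal (gw s (rz (pol ρ θ)) * rz (pol ρ θ) ^ 2) := by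
    unfold dbw
    refine setLIntegral_congr_fun measurableSet_Ioi fun ρ hρ => ?_
    have hρ0 : (0 : ℝ) < ρ := hρ
    have hg := (gw_mem hs.le hρ0.le).1
    simp only [rz_pol hρ0.le]
    rw [setLIntegral_one, Real.volume_Ioo, sub_zero,
      ← ENNReal.ofReal_mul (mul_nonneg hg (by positivity)), ← ENNReal.ofReal_mul (by positivity)]
    congr 1
    ring
  rw [← h1, dbw_eq hs _ measurable_const]
  refine setLIntegral_congr_fun measurableSet_Ioi fun ρ hρ => ?_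
  have hρ0 : (0 : ℝ) < ρ := hρ
  simp only [rz_pol hρ0.le]
  rw [mul_one, ENNReal.ofReal_mul (by positivity)]

theorem eqm (n : ℕ) {s : ℝ} (hs : 0 < s) :
    ∫⁻ p, ENNReal.ofReal (gw s (rz p.1)) * nsq (T n p) ∂(gaT n) =
      ∫⁻ p, ENNReal.ofReal (eC n s p + mC n s p) ∂(gaT n) := by
  have hg0 : ∀ z : ℝ × ℝ, 0 ≤ gw s (rz z) := fun z => (gw_mem hs.le (Real.sqrt_nonneg _)).1
  have hmg : Measurable (fun z : ℝ × ℝ => ENNReal.ofReal (gw s (rz z))) :=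
    ((gw_meas s).comp rz_cont.measurable).ennreal_ofReal
  have hm1 : Measurable (fun z : ℝ × ℝ => ENNReal.ofReal (gw s (rz z) * rz z ^ 2)) :=
    (((gw_meas s).comp rz_cont.measurable).mul (rz_cont.measurable.pow_const 2)).ennreal_ofReal
  have hm2 : Measurable (fun z : ℝ × ℝ => ENNReal.ofReal (kw s (rz z))) :=
    ((kw_meas s).comp rz_cont.measurable).ennreal_ofReal
  have hsum : Measurable (fun W : Fin (n + 1) → ℝ => ∑ j, ENNReal.ofReal (W j ^ 2)) := by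
    fun_prop
  have hfst : MeasurePreserving (Prod.fst : (ℝ × ℝ) × (Fin (n + 1) → ℝ) → ℝ × ℝ) (gaT n) ga2 :=
    measurePreserving_fst
  have hm : Measurable (fun y : ℝ => ENNReal.ofReal (y ^ 2)) := by fun_prop
  have hW : ∫⁻ W, ∑ j, ENNReal.ofReal (W j ^ 2) ∂(gad (n + 1)) = (n : ENNReal) + 1 := by
    rw [lintegral_finsetSum _ (fun j _ => by fun_prop)]
    have e3 : ∀ j, ∫⁻ W : Fin (n + 1) → ℝ, ENNReal.ofReal (W j ^ 2) ∂(gad (n + 1)) = 1 :=
      fun j => ((measurePreserving_eval (fun _ : Fin (n + 1) => ga) j).lintegral_comp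
        hm).trans Mom_real
    simp only [e3, Finset.sum_const, Finset.card_univ, Fintype.card_fin, nsmul_eq_mul, mul_one]
    push_cast
    rfl
  have hL : ∀ p : (ℝ × ℝ) × (Fin (n + 1) → ℝ), ENNReal.ofReal (gw s (rz p.1)) * nsq (T n p) =
      ENNReal.ofReal (gw s (rz p.1) * rz p.1 ^ 2) +
        ENNReal.ofReal (gw s (rz p.1)) * ∑ j, ENNReal.ofReal (p.2 j ^ 2) := by
    intro p
    have h1 : rz p.1 ^ 2 = p.1.1 ^ 2 + p.1.2 ^ 2 := by
      unfold rz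
      exact Real.sq_sqrt (by positivity)
    rw [nsq, norm_T, ← h1, ENNReal.ofReal_add (by positivity)
      (Finset.sum_nonneg fun j _ => sq_nonneg _), mul_add, ← ENNReal.ofReal_mul (hg0 _),
      ENNReal.ofReal_sum_of_nonneg fun j _ => sq_nonneg _]
  have hR : ∀ p : (ℝ × ℝ) × (Fin (n + 1) → ℝ), ENNReal.ofReal (eC n s p + mC n s p) =
      ENNReal.ofReal (kw s (rz p.1)) + ENNReal.ofReal (gw s (rz p.1)) * ((n : ENNReal) + 1) := by
    intro p
    rw [eC_add, add_comm, ENNReal.ofReal_add (Eqm_kw hs _) (mul_nonneg (hg0 _) (by positivity)),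
      ENNReal.ofReal_mul (hg0 _)]
    congr 2
    rw [ENNReal.ofReal_add (by positivity) zero_le_one, ENNReal.ofReal_natCast, ENNReal.ofReal_one]
  have hm1' : Measurable (fun p : (ℝ × ℝ) × (Fin (n + 1) → ℝ) =>
      ENNReal.ofReal (gw s (rz p.1) * rz p.1 ^ 2)) := hm1.comp measurable_fst
  have hm2' : Measurable (fun p : (ℝ × ℝ) × (Fin (n + 1) → ℝ) =>
      ENNReal.ofReal (kw s (rz p.1))) := hm2.comp measurable_fst
  have hmg' : Measurable (fun p : (ℝ × ℝ) × (Fin (n + 1) → ℝ) =>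
      ENNReal.ofReal (gw s (rz p.1))) := hmg.comp measurable_fst
  have e1 : ∫⁻ p, ENNReal.ofReal (gw s (rz p.1)) * nsq (T n p) ∂(gaT n) =
      ∫⁻ z, ENNReal.ofReal (gw s (rz z) * rz z ^ 2) ∂ga2 +
        (∫⁻ z, ENNReal.ofReal (gw s (rz z)) ∂ga2) * ((n : ENNReal) + 1) := by
    simp_rw [hL]
    rw [lintegral_add_left hm1']
    congr 1
    · exact hfst.lintegral_comp hm1
    · have := lintegral_prod_mul (μ := ga2) (ν := gad (n + 1)) hmg.aemeasurable hsum.aemeasurable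
      rw [hW] at this
      exact this
  have e2 : ∫⁻ p, ENNReal.ofReal (eC n s p + mC n s p) ∂(gaT n) =
      ∫⁻ z, ENNReal.ofReal (kw s (rz z)) ∂ga2 +
        (∫⁻ z, ENNReal.ofReal (gw s (rz z)) ∂ga2) * ((n : ENNReal) + 1) := by
    simp_rw [hR]
    rw [lintegral_add_left hm2']
    congr 1
    · exact hfst.lintegral_comp hm2
    · rw [lintegral_mul_const _ hmg']
      congr 1
      exact hfst.lintegral_comp hmg
  rw [e1, e2, Eqm_pol hs]

theorem em_fin (n : ℕ) {s : ℝ} (hs : 0 < s) :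
    ∫⁻ p, ENNReal.ofReal (eC n s p + mC n s p) ∂(gaT n) < ⊤ := by
  rw [← eqm n hs]
  refine lt_of_le_of_lt (b := ∫⁻ p, nsq (T n p) ∂(gaT n)) (lintegral_mono fun p => ?_) ?_
  · have h1 : ENNReal.ofReal (gw s (rz p.1)) ≤ 1 := by
      rw [← ENNReal.ofReal_one]
      exact ENNReal.ofReal_le_ofReal (gw_mem hs.le (Real.sqrt_nonneg _)).2
    calc ENNReal.ofReal (gw s (rz p.1)) * nsq (T n p) ≤ 1 * nsq (T n p) := by gcongr
      _ = nsq (T n p) := one_mul _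
  · rw [mom_norm]
    exact ENNReal.add_lt_top.2 ⟨ENNReal.natCast_lt_top n, by norm_num⟩

end MB
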