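import Pool.Agent.H16.MC.Kgx
import Pool.Agent.H16.MB.Edd
import Pool.Agent.H16.MB.Dir

/-!
Row Mea (MP_c844e7, about 70 lines).  Measurability and signs.

PROOF.  `kp`, `qq` are measurable expressions in coordinates and norms (`wq` is a finite sum of squares of coordinates, measurable).  `lam`: `Dd_meas`, real power with constant exponent (`Measurable.pow_const`).  `0 ≤ lam`: `Real.rpow_nonneg` (`Dd_nonneg`,
`0 ≤ c`).  `eC`, `mC`: `gw_meas`, `kw_meas`, `rz_cont`, `cont_T`, `kp_mem` (`0 ≤ kp ≤ 1`), `gw_mem`, and `kw s ρ ≥ 0` for `ρ > 0` by `kw_nonneg`, `kw s 0 = 0` for `s > 0` (division by `0`).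
`eC_add`: algebra.
-/

set_option autoImplicit false

open MeasureTheory Set

namespace MB

variable {n : ℕ} {c R : ℝ} {G : E (n + 2) → E (n + 2)} {S : E (n + 2) → E (n + 3)}

theorem kp_meas : Measurable (kp (n := n)) := by
  unfold kp
  refine Measurable.div ?_ ?_
  · exact (by fun_prop : Continuous fun X : E (n + 3) => ‖X‖ ^ 2 - X 0 ^ 2 - X 1 ^ 2).measurable
  · exact (by fun_prop : Continuous fun X : E (n + 3) => ‖X‖ ^ 2).measurable

theorem qq_meas : Measurable (qq (n := n)) := by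
  unfold qq wq
  refine Measurable.div ?_ ?_
  · exact (by fun_prop : Continuous fun X : E (n + 3) => ‖X‖ ^ 2).measurable
  · exact (by fun_prop : Continuous fun X : E (n + 3) =>
      ∑ i : Fin n, X (i.succ.succ.castSucc) ^ 2).measurable

theorem lam_meas : Measurable (lam (n := n) c R S G) := by
  unfold lam
  exact (Dd_meas.const_mul c).pow_const _

theorem lam_nonneg (hc : 0 ≤ c) (X : E (n + 3)) : 0 ≤ lam c R S G X :=
  Real.rpow_nonneg (mul_nonneg hc (Dd_nonneg X)) _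

theorem Mea_rz (z : ℝ × ℝ) : 0 ≤ rz z := Real.sqrt_nonneg _

theorem Mea_kw {s ρ : ℝ} (hs : 0 < s) (hρ : 0 ≤ ρ) : 0 ≤ kw s ρ := by
  rcases hρ.eq_or_lt with h | h
  · rw [← h]
    unfold kw
    rw [if_neg (not_le.2 hs), div_zero]
  · exact kw_nonneg hs.le h

theorem eC_nonneg {s : ℝ} (hs : 0 < s) (p : (ℝ × ℝ) × (Fin (n + 1) → ℝ)) : 0 ≤ eC n s p := by
  obtain ⟨h1, h2⟩ := kp_mem (T n p)
  obtain ⟨h3, -⟩ := gw_mem hs.le (Mea_rz p.1)
  have h4 := Mea_kw hs (Mea_rz p.1)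
  exact add_nonneg (mul_nonneg h3 h1) (mul_nonneg h4 (sub_nonneg.2 h2))

theorem mC_nonneg {s : ℝ} (hs : 0 < s) (p : (ℝ × ℝ) × (Fin (n + 1) → ℝ)) : 0 ≤ mC n s p := by
  obtain ⟨h1, h2⟩ := kp_mem (T n p)
  obtain ⟨h3, -⟩ := gw_mem hs.le (Mea_rz p.1)
  have h4 := Mea_kw hs (Mea_rz p.1)
  have h5 : (0 : ℝ) ≤ n := Nat.cast_nonneg n
  exact add_nonneg (mul_nonneg h3 (by linarith)) (mul_nonneg h4 h1)

theorem Mea_gw (s : ℝ) :
    Measurable fun p : (ℝ × ℝ) × (Fin (n + 1) → ℝ) => gw s (rz p.1) :=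
  (gw_meas s).comp (rz_cont.measurable.comp measurable_fst)

theorem Mea_kwm (s : ℝ) :
    Measurable fun p : (ℝ × ℝ) × (Fin (n + 1) → ℝ) => kw s (rz p.1) :=
  (kw_meas s).comp (rz_cont.measurable.comp measurable_fst)

theorem Mea_kp : Measurable fun p : (ℝ × ℝ) × (Fin (n + 1) → ℝ) => kp (T n p) :=
  kp_meas.comp (cont_T n).measurable

theorem eC_meas (s : ℝ) : Measurable (eC n s) := by
  unfold eC
  exact ((Mea_gw s).mul Mea_kp).add ((Mea_kwm s).mul (measurable_const.sub Mea_kp))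

theorem mC_meas (s : ℝ) : Measurable (mC n s) := by
  unfold mC
  exact ((Mea_gw s).mul (measurable_const.sub Mea_kp)).add ((Mea_kwm s).mul Mea_kp)

theorem eC_add (s : ℝ) (p : (ℝ × ℝ) × (Fin (n + 1) → ℝ)) :
    eC n s p + mC n s p = gw s (rz p.1) * (n + 1) + kw s (rz p.1) := by
  unfold eC mC
  ring

end MB
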