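import Pool.Agent.H16.MC.Es2
import Pool.Agent.H16.MC.Mea
import Pool.Agent.H16.MB.Pol

/-!
Row InR (MP_c844e7, about 120 lines).  Integration of `est_R2`.  Compare the proved row IntR, `Pool/Agent/H16/MB/IntR.lean`.

PROOF.  `dbw s` is monotone in the values at `ρ > 0` and additive/homogeneous for measurable functions.  By `est_R2`, for all `W, θ`:
`dbw s (nsq …) ≤ ofReal (1+τ²) * dbw s H + ofReal (128 τ²) * dbw s (ρ ↦ ofReal (qq^(7/5)))`, `H ρ = ofReal ((1-kp) + kp lam)` at `T n (pol ρ θ, W)`.  `dbw_eq`: `dbw s H = ∫⁻ ρ in Ioi 0, ofReal (ρ exp(-ρ²/2) kw s ρ) * H ρ =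
∫⁻ ρ in Ioi 0, ofReal (ρ exp(-ρ²/2)) * F (pol ρ θ)` with `F z = ofReal (kw s (rz z) * ((1-kp) + kp lam))` at `T n (z, W)` (`rz_pol`, `ofReal_mul`).  Then `∫⁻_θ ∂ang` and `pol_int` (for fixed `W`), then `∫⁻_W`, and Tonelli (`lintegral_prod_symm`) give the
integral over `gaT n`.
-/

set_option autoImplicit false

open MeasureTheory Set

namespace MB

variable {n : ℕ} {c τ : ℝ} {G : E (n + 2) → E (n + 2)} {S : E (n + 2) → E (n + 3)}
  {μ : E (n + 2) → ℝ}

theorem InR_dbw_mono {s : ℝ} {F H : ℝ → ENNReal} (h : ∀ ρ, 0 < ρ → F ρ ≤ H ρ) :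
    dbw s F ≤ dbw s H := by
  unfold dbw
  refine lintegral_mono fun R => ?_
  refine mul_le_mul_right (setLIntegral_mono' measurableSet_Ioo fun ρ hρ => h ρ hρ.1) _

theorem InR_meas (H : ℝ → ENNReal) : Measurable (fun R : ℝ => ∫⁻ ρ in Ioo 0 R, H ρ) := by
  refine Monotone.measurable fun a b hab => ?_
  exact lintegral_mono_set (Ioo_subset_Ioo_right hab)

theorem InR_dbw_add {s : ℝ} {F : ℝ → ENNReal} (H : ℝ → ENNReal) (hF : Measurable F) :
    dbw s (fun ρ => F ρ + H ρ) = dbw s F + dbw s H := by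
  unfold dbw
  rw [← lintegral_add_left]
  · refine lintegral_congr fun R => ?_
    rw [← mul_add, lintegral_add_left hF]
  · refine Measurable.mul ?_ (InR_meas F)
    exact ((gw_meas s).mul (by fun_prop)).ennreal_ofReal

theorem InR_dbw_mul {s : ℝ} {a : ENNReal} (ha : a ≠ ⊤) (H : ℝ → ENNReal) :
    dbw s (fun ρ => a * H ρ) = a * dbw s H := by
  unfold dbw
  rw [← lintegral_const_mul' _ _ ha]
  refine lintegral_congr fun R => ?_
  rw [lintegral_const_mul' _ _ ha]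
  ring

theorem InR_pol_meas : Measurable fun q : ℝ × ℝ => pol q.1 q.2 := by
  unfold pol
  fun_prop

theorem InR_lin {α : Type*} [MeasurableSpace α] (ν : Measure α) {f : α → ENNReal}
    (g : α → ENNReal) (hf : Measurable f) {a d : ENNReal} (ha : a ≠ ⊤) (hd : d ≠ ⊤) :
    ∫⁻ x, (a * f x + d * g x) ∂ν = a * ∫⁻ x, f x ∂ν + d * ∫⁻ x, g x ∂ν := by
  rw [lintegral_add_left (hf.const_mul a), lintegral_const_mul' _ _ ha,
    lintegral_const_mul' _ _ hd]

theorem int_R2 {s : ℝ} (hs : 0 < s) (hτ : 0 < τ) (hτ1 : τ ≤ 1) (hc : 0 ≤ c)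
    (hG : Dat c (2 / τ ^ 5) G) (hS : ConfS S μ) :
    ∫⁻ W, ∫⁻ θ, dbw s (fun ρ =>
        nsq (fderiv ℝ (Vf (τ ^ 5) S G) (T n (pol ρ θ, W)) (bR n θ))) ∂ang ∂(gad (n + 1)) ≤
      ENNReal.ofReal (1 + τ ^ 2) * ∫⁻ p, ENNReal.ofReal (kw s (rz p.1) *
        ((1 - kp (T n p)) + kp (T n p) * lam c (2 / τ ^ 5) S G (T n p))) ∂(gaT n) +
      ENNReal.ofReal (128 * τ ^ 2) *
        ∫⁻ W, ∫⁻ θ, dbw s (fun ρ => ENNReal.ofReal (qq (T n (pol ρ θ, W)) ^ ((7 : ℝ) / 5))) ∂ang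
          ∂(gad (n + 1)) := by
  have hTm : Measurable (T n) := (cont_T n).measurable
  -- the integrand
  obtain ⟨Q, hQ⟩ : ∃ Q : (ℝ × ℝ) × (Fin (n + 1) → ℝ) → ℝ, Q = fun p =>
      (1 - kp (T n p)) + kp (T n p) * lam c (2 / τ ^ 5) S G (T n p) := ⟨_, rfl⟩
  have hQ0 : ∀ p, 0 ≤ Q p := by
    intro p
    have hk := kp_mem (T n p)
    rw [hQ]
    exact add_nonneg (by linarith [hk.2]) (mul_nonneg hk.1 (lam_nonneg hc _))
  have hkm : Measurable fun p : (ℝ × ℝ) × (Fin (n + 1) → ℝ) => kp (T n p) := kp_meas.comp hTm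
  have hlm : Measurable fun p : (ℝ × ℝ) × (Fin (n + 1) → ℝ) =>
      lam c (2 / τ ^ 5) S G (T n p) := lam_meas.comp hTm
  have hQm : Measurable Q := by
    rw [hQ]
    exact (measurable_const.sub hkm).add (hkm.mul hlm)
  obtain ⟨K, hK⟩ : ∃ K : (ℝ × ℝ) × (Fin (n + 1) → ℝ) → ENNReal, K = fun p =>
    ENNReal.ofReal (kw s (rz p.1) * Q p) := ⟨_, rfl⟩
  have hKm : Measurable K := by
    rw [hK]
    exact ((((kw_meas s).comp rz_cont.measurable).comp measurable_fst).mul hQm).ennreal_ofReal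
  have hb : ENNReal.ofReal (1 + τ ^ 2) ≠ ⊤ := ENNReal.ofReal_ne_top
  have hd : ENNReal.ofReal (128 * τ ^ 2) ≠ ⊤ := ENNReal.ofReal_ne_top
  -- step 1: the bound for fixed `W, θ`
  have step1 : ∀ (W : Fin (n + 1) → ℝ) (θ : ℝ),
      dbw s (fun ρ => nsq (fderiv ℝ (Vf (τ ^ 5) S G) (T n (pol ρ θ, W)) (bR n θ))) ≤
        ENNReal.ofReal (1 + τ ^ 2) * (∫⁻ ρ in Ioi (0 : ℝ),
          ENNReal.ofReal (ρ * Real.exp (-ρ ^ 2 / 2)) * K (pol ρ θ, W)) +
        ENNReal.ofReal (128 * τ ^ 2) *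
          dbw s (fun ρ => ENNReal.ofReal (qq (T n (pol ρ θ, W)) ^ ((7 : ℝ) / 5))) := by
    intro W θ
    have hpm : Measurable fun ρ : ℝ => (pol ρ θ, W) := by
      refine Measurable.prodMk ?_ measurable_const
      exact InR_pol_meas.comp (measurable_id.prodMk measurable_const)
    have hQρ : Measurable fun ρ : ℝ => ENNReal.ofReal (Q (pol ρ θ, W)) :=
      (hQm.comp hpm).ennreal_ofReal
    have h1 : dbw s (fun ρ => nsq (fderiv ℝ (Vf (τ ^ 5) S G) (T n (pol ρ θ, W)) (bR n θ))) ≤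
        dbw s (fun ρ => ENNReal.ofReal (1 + τ ^ 2) * ENNReal.ofReal (Q (pol ρ θ, W)) +
          ENNReal.ofReal (128 * τ ^ 2) *
            ENNReal.ofReal (qq (T n (pol ρ θ, W)) ^ ((7 : ℝ) / 5))) := by
      refine InR_dbw_mono fun ρ hρ => ?_
      have hE := est_R2 hτ hτ1 hc hG hS ρ θ W hρ
      have hX := hQ0 (pol ρ θ, W)
      have hqq : 0 ≤ qq (T n (pol ρ θ, W)) ^ ((7 : ℝ) / 5) := by
        refine Real.rpow_nonneg ?_ _
        unfold qq wq
        exact div_nonneg (sq_nonneg _) (Finset.sum_nonneg fun i _ => sq_nonneg _)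
      simp only [nsq]
      rw [← ENNReal.ofReal_mul (by positivity), ← ENNReal.ofReal_mul (by positivity),
        ← ENNReal.ofReal_add (mul_nonneg (by positivity) hX) (mul_nonneg (by positivity) hqq)]
      refine ENNReal.ofReal_le_ofReal (hE.trans (le_of_eq ?_))
      rw [hQ]
    refine h1.trans (le_of_eq ?_)
    rw [InR_dbw_add _ (hQρ.const_mul _), InR_dbw_mul hb, InR_dbw_mul hd, dbw_eq hs _ hQρ]
    congr 2
    refine setLIntegral_congr_fun measurableSet_Ioi fun ρ hρ => ?_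
    have hρ0 : (0 : ℝ) < ρ := hρ
    have hk := kw_nonneg hs.le hρ0
    simp only [hK]
    rw [rz_pol hρ0.le, ← ENNReal.ofReal_mul (mul_nonneg (by positivity) hk),
      ← ENNReal.ofReal_mul (by positivity)]
    congr 1
    ring
  -- step 2: integration in `θ`
  have hjoint : Measurable fun q : (Fin (n + 1) → ℝ) × ℝ × ℝ =>
      ENNReal.ofReal (q.2.2 * Real.exp (-q.2.2 ^ 2 / 2)) * K (pol q.2.2 q.2.1, q.1) := by
    refine Measurable.mul (by fun_prop) (hKm.comp ?_)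
    exact (InR_pol_meas.comp (measurable_snd.snd.prodMk measurable_snd.fst)).prodMk measurable_fst
  have step2 : ∀ W : Fin (n + 1) → ℝ,
      ∫⁻ θ, dbw s (fun ρ => nsq (fderiv ℝ (Vf (τ ^ 5) S G) (T n (pol ρ θ, W)) (bR n θ))) ∂ang ≤
        ENNReal.ofReal (1 + τ ^ 2) * ∫⁻ z, K (z, W) ∂ga2 +
        ENNReal.ofReal (128 * τ ^ 2) *
          ∫⁻ θ, dbw s (fun ρ => ENNReal.ofReal (qq (T n (pol ρ θ, W)) ^ ((7 : ℝ) / 5))) ∂ang := by
    intro W
    have hm : Measurable fun θ : ℝ => ∫⁻ ρ in Ioi (0 : ℝ),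
        ENNReal.ofReal (ρ * Real.exp (-ρ ^ 2 / 2)) * K (pol ρ θ, W) := by
      have := hjoint.comp (measurable_const (a := W) |>.prodMk (measurable_id (α := ℝ × ℝ)))
      exact Measurable.lintegral_prod_right' this
    refine (lintegral_mono fun θ => step1 W θ).trans (le_of_eq ?_)
    have hK2 : Measurable fun z : ℝ × ℝ => K (z, W) :=
      hKm.comp (measurable_id.prodMk measurable_const)
    rw [InR_lin ang _ hm hb hd, pol_int _ hK2]
  -- step 3: integration in `W`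
  refine (lintegral_mono step2).trans (le_of_eq ?_)
  have hm : Measurable fun W : Fin (n + 1) → ℝ => ∫⁻ z, K (z, W) ∂ga2 :=
    Measurable.lintegral_prod_left' hKm
  rw [InR_lin (gad (n + 1)) _ hm hb hd, ← lintegral_prod_symm _ hKm.aemeasurable, hK, hQ]

end MB
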