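import Pool.Agent.H16.MC.Mil

/-!
Row Kgx (MP_c844e7, about 110 lines).  Exchange of the order in `dbw`.

PROOF.  `gw_mem`: clear (`s/ρ ≥ 0`).  `kw_nonneg`: for `s ≤ ρ`: `1 + (mil ρ - s)/ρ ≥ 1 - s/ρ ≥ 0`; otherwise a product/quotient of nonnegative numbers.  Measurability: piecewise (`Measurable.ite`), `mil_meas`.
`dbw_eq`: Tonelli with the indicator of `{(R,ρ) | 0 < ρ < R}` (as in the proved row Dbl, `Pool/Agent/H16/MB/Dbl.lean`): `dbw s H = ∫⁻ ρ in Ioi 0, H ρ * ∫⁻ R in Ioi ρ, ofReal (gw s R * (R² exp(-R²/2)))`, and for `ρ > 0`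
`∫⁻ R in Ioi ρ, ofReal (gw s R R² exp(-R²/2)) = ofReal (ρ exp(-ρ²/2) kw s ρ)`: if `s ≤ ρ`: `gw s R = 1 - s/R` for `R > ρ`, so the integrand is `(R² - sR) exp(-R²/2) ≥ 0`; `mil_int`, `mil_int'` and
`ofReal_integral_eq_lintegral_ofReal` give `(ρ - s + mil ρ) exp(-ρ²/2) = ρ exp(-ρ²/2) kw s ρ`.  If `ρ < s`: the integrand vanishes for `R ≤ s` (`1 - s/R ≤ 0`), so the integral over `Ioi ρ` is the one over `Ioi s`, which is
`mil s exp(-s²/2) = ρ exp(-ρ²/2) kw s ρ`.
-/

set_option autoImplicit false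

open MeasureTheory Set

namespace MB

theorem gw_mem {s ρ : ℝ} (hs : 0 ≤ s) (hρ : 0 ≤ ρ) : 0 ≤ gw s ρ ∧ gw s ρ ≤ 1 := by
  refine ⟨le_max_left _ _, max_le zero_le_one ?_⟩
  have h : 0 ≤ s / ρ := div_nonneg hs hρ
  linarith

theorem kw_nonneg {s ρ : ℝ} (hs : 0 ≤ s) (hρ : 0 < ρ) : 0 ≤ kw s ρ := by
  unfold kw
  split_ifs with h
  · have h1 := mil_pos ρ
    have h2 : 1 + (mil ρ - s) / ρ = (ρ - s + mil ρ) / ρ := by
      field_simp
      ring
    rw [h2]
    exact div_nonneg (by linarith) hρ.le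
  · have h1 := mil_pos s
    positivity

theorem gw_meas (s : ℝ) : Measurable (gw s) := by
  unfold gw
  exact measurable_const.max (measurable_const.sub (measurable_const.div measurable_id))

theorem kw_meas (s : ℝ) : Measurable (kw s) := by
  unfold kw
  refine Measurable.ite measurableSet_Ici ?_ ?_
  · exact measurable_const.add ((mil_meas.sub measurable_const).div measurable_id)
  · refine Measurable.div ?_ measurable_id
    refine Measurable.mul ?_ measurable_const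
    fun_prop

theorem rz_cont : Continuous rz := by
  unfold rz
  fun_prop

theorem rz_pol {ρ : ℝ} (hρ : 0 ≤ ρ) (θ : ℝ) : rz (pol ρ θ) = ρ := by
  unfold rz pol
  have h : (ρ * Real.cos θ) ^ 2 + (ρ * Real.sin θ) ^ 2 = ρ ^ 2 := by
    have h1 := Real.sin_sq_add_cos_sq θ
    linear_combination ρ ^ 2 * h1
  change Real.sqrt ((ρ * Real.cos θ) ^ 2 + (ρ * Real.sin θ) ^ 2) = ρ
  rw [h, Real.sqrt_sq hρ]

theorem Kgx_swap (w K : ℝ → ENNReal) (hw : Measurable w) (hK : Measurable K) :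
    ∫⁻ R in Ioi (0 : ℝ), w R * ∫⁻ ρ in Ioo 0 R, K ρ =
      ∫⁻ ρ in Ioi (0 : ℝ), K ρ * ∫⁻ R in Ioi ρ, w R := by
  classical
  have hS : MeasurableSet {p : ℝ × ℝ | p.2 < p.1} := measurableSet_lt measurable_snd measurable_fst
  have hm : Measurable (Function.uncurry fun R ρ : ℝ =>
      if ρ < R then w R * K ρ else 0) := by
    refine Measurable.ite hS ?_ measurable_const
    exact (hw.comp measurable_fst).mul (hK.comp measurable_snd)
  have h1 : ∫⁻ R in Ioi (0 : ℝ), w R * ∫⁻ ρ in Ioo 0 R, K ρ =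
      ∫⁻ R in Ioi (0 : ℝ), ∫⁻ ρ in Ioi (0 : ℝ), if ρ < R then w R * K ρ else 0 := by
    refine lintegral_congr fun R => ?_
    rw [← lintegral_const_mul _ hK, ← lintegral_indicator measurableSet_Ioo,
      ← lintegral_indicator measurableSet_Ioi]
    refine lintegral_congr fun ρ => ?_
    by_cases h0 : 0 < ρ
    · by_cases hR : ρ < R
      · rw [indicator_of_mem (show ρ ∈ Ioo 0 R from ⟨h0, hR⟩),
          indicator_of_mem (show ρ ∈ Ioi (0 : ℝ) from h0), if_pos hR]
      · rw [indicator_of_notMem (show ρ ∉ Ioo 0 R from fun h => hR h.2),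
          indicator_of_mem (show ρ ∈ Ioi (0 : ℝ) from h0), if_neg hR]
    · rw [indicator_of_notMem (show ρ ∉ Ioo 0 R from fun h => h0 h.1),
        indicator_of_notMem (show ρ ∉ Ioi (0 : ℝ) from h0)]
  rw [h1, lintegral_lintegral_swap hm.aemeasurable]
  refine setLIntegral_congr_fun measurableSet_Ioi fun ρ hρ => ?_
  have hρ' : 0 < ρ := hρ
  rw [← lintegral_const_mul _ hw, ← lintegral_indicator measurableSet_Ioi,
    ← lintegral_indicator measurableSet_Ioi]
  refine lintegral_congr fun R => ?_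
  by_cases hR : ρ < R
  · rw [indicator_of_mem (show R ∈ Ioi (0 : ℝ) from hρ'.trans hR),
      indicator_of_mem (show R ∈ Ioi ρ from hR), if_pos hR, mul_comm]
  · rw [indicator_of_notMem (show R ∉ Ioi ρ from hR)]
    by_cases h0 : 0 < R
    · rw [indicator_of_mem (show R ∈ Ioi (0 : ℝ) from h0), if_neg hR]
    · rw [indicator_of_notMem (show R ∉ Ioi (0 : ℝ) from h0)]

theorem Kgx_far {s ρ : ℝ} (hs : 0 < s) (h : s ≤ ρ) :
    ∫⁻ R in Ioi ρ, ENNReal.ofReal (gw s R * (R ^ 2 * Real.exp (-R ^ 2 / 2))) =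
      ENNReal.ofReal ((ρ - s + mil ρ) * Real.exp (-ρ ^ 2 / 2)) := by
  have h1 : ∫⁻ R in Ioi ρ, ENNReal.ofReal (gw s R * (R ^ 2 * Real.exp (-R ^ 2 / 2))) =
      ∫⁻ R in Ioi ρ, ENNReal.ofReal ((R ^ 2 - s * R) * Real.exp (-R ^ 2 / 2)) := by
    refine setLIntegral_congr_fun measurableSet_Ioi fun R hR => ?_
    have hR' : ρ < R := hR
    have hR0 : 0 < R := by linarith
    have h2 : gw s R = 1 - s / R := by
      unfold gw
      apply max_eq_right
      rw [sub_nonneg, div_le_one hR0]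
      linarith
    congr 1
    rw [h2]
    field_simp
  rw [h1, ← mil_int, ofReal_integral_eq_lintegral_ofReal (mil_int' s ρ)]
  refine ae_restrict_of_forall_mem measurableSet_Ioi fun R hR => ?_
  have hR' : ρ < R := hR
  have h3 : 0 ≤ R ^ 2 - s * R := by nlinarith
  exact mul_nonneg h3 (Real.exp_pos _).le

theorem Kgx_lint {s ρ : ℝ} (hs : 0 < s) (hρ : 0 < ρ) :
    ∫⁻ R in Ioi ρ, ENNReal.ofReal (gw s R * (R ^ 2 * Real.exp (-R ^ 2 / 2))) =
      ENNReal.ofReal (ρ * Real.exp (-ρ ^ 2 / 2) * kw s ρ) := by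
  unfold kw
  split_ifs with h
  · rw [Kgx_far hs h]
    congr 1
    field_simp
    ring
  · rw [not_le] at h
    have h1 : ∫⁻ R in Ioi ρ, ENNReal.ofReal (gw s R * (R ^ 2 * Real.exp (-R ^ 2 / 2))) =
        ∫⁻ R in Ioi s, ENNReal.ofReal (gw s R * (R ^ 2 * Real.exp (-R ^ 2 / 2))) := by
      rw [← lintegral_indicator measurableSet_Ioi, ← lintegral_indicator measurableSet_Ioi]
      refine lintegral_congr fun R => ?_
      by_cases h2 : s < R
      · rw [indicator_of_mem (show R ∈ Ioi s from h2),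
          indicator_of_mem (show R ∈ Ioi ρ from h.trans h2)]
      · rw [indicator_of_notMem (show R ∉ Ioi s from h2)]
        by_cases h3 : ρ < R
        · rw [indicator_of_mem (show R ∈ Ioi ρ from h3)]
          have h4 : gw s R = 0 := by
            unfold gw
            apply max_eq_left
            rw [sub_nonpos, one_le_div (hρ.trans h3)]
            exact not_lt.1 h2
          rw [h4, zero_mul, ENNReal.ofReal_zero]
        · rw [indicator_of_notMem (show R ∉ Ioi ρ from h3)]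
    rw [h1, Kgx_far hs le_rfl]
    congr 1
    have h5 : Real.exp (-s ^ 2 / 2) = Real.exp (-ρ ^ 2 / 2) * Real.exp ((ρ ^ 2 - s ^ 2) / 2) := by
      rw [← Real.exp_add]
      congr 1
      ring
    rw [h5]
    field_simp
    ring

theorem dbw_eq {s : ℝ} (hs : 0 < s) (H : ℝ → ENNReal) (hH : Measurable H) :
    dbw s H = ∫⁻ ρ in Ioi (0 : ℝ),
      ENNReal.ofReal (ρ * Real.exp (-ρ ^ 2 / 2) * kw s ρ) * H ρ := by
  unfold dbw
  have hw : Measurable fun R : ℝ =>
      ENNReal.ofReal (gw s R * (R ^ 2 * Real.exp (-R ^ 2 / 2))) := by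
    refine Measurable.ennreal_ofReal ?_
    exact (gw_meas s).mul (by fun_prop)
  rw [Kgx_swap _ _ hw hH]
  refine setLIntegral_congr_fun measurableSet_Ioi fun ρ hρ => ?_
  rw [Kgx_lint hs hρ, mul_comm]

end MB
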