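import Pool.Agent.H16.MC.Kpc
import Pool.Agent.H16.MC.Kgx
import Pool.Agent.H16.MB.Dir
import Pool.Agent.H16.MB.Kp2

/-!
Row Kpd (MP_c844e7, about 130 lines).  Three finite integrals of `qq X = ‖X‖²/wq X`.  Adaptation of the proved row Kp2, `Pool/Agent/H16/MB/Kp2.lean`.

PROOF.  For `X = T n (z, W)`: `‖X‖² = z.1² + z.2² + ∑ W j²` (`norm_T`), `wq X = ∑ i : Fin n, W i.castSucc ^ 2`.  With `A = 1 + z.1² + z.2²` and `B = 1 + ∑ W j²`: `‖X‖² ≤ A B`, `wq ≤ B`.  If `wq > 0`: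
`qq^(7/5) ≤ (A B)^(7/5)/wq^(7/5) ≤ A² B³/wq^(7/5)` and `‖X‖² qq ≤ A² B²/wq = A² B² wq^(2/5)/wq^(7/5) ≤ A² B³/wq^(7/5)` (as `wq^(2/5) ≤ B^(2/5) ≤ B`); if `wq = 0` the left sides are `0` (`0 ^ (7/5) = 0`).  So the first two integrals are at most
`(∫⁻ ofReal (A²) ∂ga2) * (kpc_lt) < ⊤`.  Third: `‖T n (pol ρ θ, W)‖² = ρ² + ∑ W j²`, so the integrand is at most `(1+ρ²)² B³/wq^(7/5)`; `gw ≤ 1`, `ang` has total mass `≤ 1`, and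
`dbw s (fun ρ => ofReal ((1+ρ²)²) * C) ≤ C * ∫⁻_{R>0} ofReal (R² exp(-R²/2) R (1+R²)²) < ⊤`.
-/

set_option autoImplicit false

open MeasureTheory Set

namespace MB

theorem Kpd_alg {A B N w : ℝ} (hA : 1 ≤ A) (hB : 1 ≤ B) (hN : 0 ≤ N) (hNAB : N ≤ A * B)
    (hw : 0 ≤ w) (hwB : w ≤ B) :
    N * (N / w) ≤ A ^ 2 * (B ^ 3 / w ^ ((7 : ℝ) / 5)) ∧
      (N / w) ^ ((7 : ℝ) / 5) ≤ A ^ 2 * (B ^ 3 / w ^ ((7 : ℝ) / 5)) := by
  rcases hw.eq_or_lt with h0 | h0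
  · subst h0
    have e : (0 : ℝ) ^ ((7 : ℝ) / 5) = 0 := Real.zero_rpow (by norm_num)
    rw [div_zero, mul_zero, e, div_zero, mul_zero]
    exact ⟨le_rfl, le_rfl⟩
  · have hN2 : N ^ 2 ≤ A ^ 2 * B ^ 2 := by
      rw [← mul_pow]
      exact pow_le_pow_left₀ hN hNAB 2
    have hAB : 0 ≤ A ^ 2 * B ^ 2 := by positivity
    have hwp : 0 < w ^ ((7 : ℝ) / 5) := Real.rpow_pos_of_pos h0 _
    have hwm : w ^ ((7 : ℝ) / 5) ≤ B * w := by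
      have e : ((7 : ℝ) / 5) = 2 / 5 + 1 := by norm_num
      rw [e, Real.rpow_add_one h0.ne']
      apply mul_le_mul_of_nonneg_right _ h0.le
      calc w ^ ((2 : ℝ) / 5) ≤ B ^ ((2 : ℝ) / 5) := Real.rpow_le_rpow h0.le hwB (by norm_num)
        _ ≤ B ^ (1 : ℝ) := Real.rpow_le_rpow_of_exponent_le hB (by norm_num)
        _ = B := Real.rpow_one B
    constructor
    · rw [← mul_div_assoc, ← mul_div_assoc, div_le_div_iff₀ h0 hwp]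
      calc N * N * w ^ ((7 : ℝ) / 5) = N ^ 2 * w ^ ((7 : ℝ) / 5) := by ring
        _ ≤ A ^ 2 * B ^ 2 * w ^ ((7 : ℝ) / 5) := mul_le_mul_of_nonneg_right hN2 hwp.le
        _ ≤ A ^ 2 * B ^ 2 * (B * w) := mul_le_mul_of_nonneg_left hwm hAB
        _ = A ^ 2 * B ^ 3 * w := by ring
    · rw [Real.div_rpow hN hw, ← mul_div_assoc]
      apply div_le_div_of_nonneg_right _ hwp.le
      have h1AB : 1 ≤ A * B := one_le_mul_of_one_le_of_one_le hA hB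
      calc N ^ ((7 : ℝ) / 5) ≤ (A * B) ^ ((7 : ℝ) / 5) :=
            Real.rpow_le_rpow hN hNAB (by norm_num)
        _ ≤ (A * B) ^ (2 : ℝ) := Real.rpow_le_rpow_of_exponent_le h1AB (by norm_num)
        _ = A ^ 2 * B ^ 2 := by rw [← mul_pow, ← Real.rpow_natCast]; norm_num
        _ ≤ A ^ 2 * B ^ 2 * B := le_mul_of_one_le_right hAB hB
        _ = A ^ 2 * B ^ 3 := by ring

theorem Kpd_pt (n : ℕ) (z : ℝ × ℝ) (W : Fin (n + 1) → ℝ) :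
    ‖T n (z, W)‖ ^ 2 * qq (T n (z, W)) ≤ (1 + z.1 ^ 2 + z.2 ^ 2) ^ 2 *
      ((1 + ∑ j, W j ^ 2) ^ 3 / (∑ i : Fin n, W i.castSucc ^ 2) ^ ((7 : ℝ) / 5)) ∧
    qq (T n (z, W)) ^ ((7 : ℝ) / 5) ≤ (1 + z.1 ^ 2 + z.2 ^ 2) ^ 2 *
      ((1 + ∑ j, W j ^ 2) ^ 3 / (∑ i : Fin n, W i.castSucc ^ 2) ^ ((7 : ℝ) / 5)) := by
  unfold qq
  rw [Kp2_wq, norm_T]
  have h1 := Kp2_wq_le n W
  have h2 : 0 ≤ ∑ i : Fin n, W i.castSucc ^ 2 := Finset.sum_nonneg fun i _ => sq_nonneg _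
  have h3 := sq_nonneg z.1
  have h4 := sq_nonneg z.2
  have h5 : 0 ≤ ∑ j, W j ^ 2 := Finset.sum_nonneg fun i _ => sq_nonneg _
  apply Kpd_alg
  · linarith
  · linarith
  · positivity
  · nlinarith [mul_nonneg (add_nonneg h3 h4) h5]
  · exact h2
  · show ∑ i : Fin n, W i.castSucc ^ 2 ≤ _
    linarith

/-- the weight of `W` -/
noncomputable def Kpd_w (n : ℕ) (W : Fin (n + 1) → ℝ) : ENNReal :=
  ENNReal.ofReal ((1 + ∑ j, W j ^ 2) ^ 3 / (∑ i : Fin n, W i.castSucc ^ 2) ^ ((7 : ℝ) / 5))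

theorem Kpd_nn (n : ℕ) (W : Fin (n + 1) → ℝ) :
    0 ≤ (1 + ∑ j, W j ^ 2) ^ 3 / (∑ i : Fin n, W i.castSucc ^ 2) ^ ((7 : ℝ) / 5) := by
  have h5 : 0 ≤ ∑ j, W j ^ 2 := Finset.sum_nonneg fun i _ => sq_nonneg _
  have h2 : 0 ≤ ∑ i : Fin n, W i.castSucc ^ 2 := Finset.sum_nonneg fun i _ => sq_nonneg _
  have := Real.rpow_nonneg h2 ((7 : ℝ) / 5)
  positivity

theorem Kpd_prod (n : ℕ) (hn : 3 ≤ n) :
    ∫⁻ p, ENNReal.ofReal ((1 + p.1.1 ^ 2 + p.1.2 ^ 2) ^ 2) * Kpd_w n p.2 ∂(gaT n) < ⊤ := by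
  have hm : Measurable fun z : ℝ × ℝ => ENNReal.ofReal ((1 + z.1 ^ 2 + z.2 ^ 2) ^ 2) := by
    fun_prop
  have hm2 : Measurable (Kpd_w n) := by
    unfold Kpd_w
    fun_prop
  have h := lintegral_prod_mul (μ := ga2) (ν := gad (n + 1)) hm.aemeasurable hm2.aemeasurable
  exact lt_of_eq_of_lt h (ENNReal.mul_lt_top Kp2_g2 (kpc_lt n hn))

theorem kpd1 (n : ℕ) (hn : 3 ≤ n) :
    ∫⁻ p, ENNReal.ofReal (‖T n p‖ ^ 2 * qq (T n p)) ∂(gaT n) < ⊤ := by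
  refine lt_of_le_of_lt (lintegral_mono fun p => ?_) (Kpd_prod n hn)
  unfold Kpd_w
  rw [← ENNReal.ofReal_mul (by positivity)]
  exact ENNReal.ofReal_le_ofReal (Kpd_pt n p.1 p.2).1

theorem kpd2 (n : ℕ) (hn : 3 ≤ n) :
    ∫⁻ p, ENNReal.ofReal (qq (T n p) ^ ((7 : ℝ) / 5)) ∂(gaT n) < ⊤ := by
  refine lt_of_le_of_lt (lintegral_mono fun p => ?_) (Kpd_prod n hn)
  unfold Kpd_w
  rw [← ENNReal.ofReal_mul (by positivity)]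
  exact ENNReal.ofReal_le_ofReal (Kpd_pt n p.1 p.2).2

theorem Kpd_dbw (n : ℕ) (W : Fin (n + 1) → ℝ) (θ : ℝ) {s : ℝ} (hs : 0 < s) :
    dbw s (fun ρ => ENNReal.ofReal (qq (T n (pol ρ θ, W)) ^ ((7 : ℝ) / 5))) ≤
      (∫⁻ R in Ioi (0 : ℝ), ENNReal.ofReal (R ^ 2 * Real.exp (-R ^ 2 / 2)) *
        (ENNReal.ofReal ((1 + R ^ 2) ^ 2) * ENNReal.ofReal R)) * Kpd_w n W := by
  have hw : Kpd_w n W ≠ ⊤ := ENNReal.ofReal_ne_top
  rw [← lintegral_mul_const' _ _ hw]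
  unfold dbw
  refine setLIntegral_mono' measurableSet_Ioi fun R hR => ?_
  have hR' : 0 < R := hR
  rw [mul_assoc]
  have h1 : ∫⁻ ρ in Ioo 0 R, ENNReal.ofReal (qq (T n (pol ρ θ, W)) ^ ((7 : ℝ) / 5)) ≤
      ∫⁻ _ρ in Ioo 0 R, ENNReal.ofReal ((1 + R ^ 2) ^ 2) * Kpd_w n W := by
    refine setLIntegral_mono' measurableSet_Ioo fun ρ hρ => ?_
    unfold Kpd_w
    rw [← ENNReal.ofReal_mul (by positivity)]
    apply ENNReal.ofReal_le_ofReal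
    refine (Kpd_pt n (pol ρ θ) W).2.trans ?_
    apply mul_le_mul_of_nonneg_right _ (Kpd_nn n W)
    rw [add_assoc, Kp2_pol]
    apply pow_le_pow_left₀ (by positivity)
    have := pow_le_pow_left₀ hρ.1.le hρ.2.le 2
    linarith
  refine mul_le_mul' ?_ (h1.trans (le_of_eq ?_))
  · apply ENNReal.ofReal_le_ofReal
    exact mul_le_of_le_one_left (by positivity) (gw_mem hs.le hR'.le).2
  · rw [setLIntegral_const, Real.volume_Ioo, sub_zero]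
    ring

theorem kpd3 (n : ℕ) (hn : 3 ≤ n) {s : ℝ} (hs : 0 < s) :
    ∫⁻ W, ∫⁻ θ, dbw s (fun ρ => ENNReal.ofReal (qq (T n (pol ρ θ, W)) ^ ((7 : ℝ) / 5))) ∂ang
      ∂(gad (n + 1)) < ⊤ := by
  have hK := Kp2_K
  set K := ∫⁻ R in Ioi (0 : ℝ), ENNReal.ofReal (R ^ 2 * Real.exp (-R ^ 2 / 2)) *
        (ENNReal.ofReal ((1 + R ^ 2) ^ 2) * ENNReal.ofReal R) with hKdef
  have hang : ang univ < ⊤ := by
    unfold ang
    rw [Measure.smul_apply, Measure.restrict_apply_univ, Real.volume_Ioo, smul_eq_mul]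
    exact ENNReal.mul_lt_top ENNReal.ofReal_lt_top ENNReal.ofReal_lt_top
  have h1 : ∫⁻ W, ∫⁻ θ, dbw s (fun ρ =>
      ENNReal.ofReal (qq (T n (pol ρ θ, W)) ^ ((7 : ℝ) / 5))) ∂ang
      ∂(gad (n + 1)) ≤ ∫⁻ W, (K * ang univ) * Kpd_w n W ∂(gad (n + 1)) := by
    refine lintegral_mono fun W => ?_
    calc ∫⁻ θ, dbw s (fun ρ => ENNReal.ofReal (qq (T n (pol ρ θ, W)) ^ ((7 : ℝ) / 5))) ∂ang
        ≤ ∫⁻ _θ, K * Kpd_w n W ∂ang := lintegral_mono fun θ => Kpd_dbw n W θ hs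
      _ = K * ang univ * Kpd_w n W := by
          rw [lintegral_const]
          ring
  refine lt_of_le_of_lt h1 ?_
  rw [lintegral_const_mul' _ _ (ENNReal.mul_lt_top hK hang).ne]
  exact ENNReal.mul_lt_top (ENNReal.mul_lt_top hK hang) (kpc_lt n hn)

end MB
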