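import Pool.Agent.H16.MC.Mea
import Pool.Agent.H16.MB.Pol

/-!
Row Yg2 (MP_c844e7, about 90 lines).  Young's inequality, and finiteness.

PROOF.  `N = n+2`, `d = n+1`, `a = mC n s p / d ≥ 0`, `L = lam ≥ 0`, `L^(N/2) = c Dd` (`Real.rpow_mul`, `(2/N)(N/2) = 1`).  `Real.young_inequality_of_nonneg` with the exponents `N/2` and `N/n` (`2/N + n/N = 1`, `n ≥ 1`): `L a ≤ L^(N/2)/(N/2) + a^(N/n)/(N/n)`,
so `mC L ≤ (2d/N) c Dd + (nd/N) a^(N/n)`.  Integrate, `∫⁻ ofReal Dd ≤ 1` (`edd`).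
`mq_fin`: `gw ≤ 1`, `0 ≤ kp ≤ 1`, so `mC/d ≤ 1 + kw`; for `s ≤ ρ`: `kw ≤ 1 + r0/s` (`mil_le`); for `0 < ρ < s`: `kw ≤ r0/ρ`.  So `(mC/d)^q ≤ (2 + r0/s)^q + (2 s + r0)^q ρ^(-q)` with `q = (n+2)/n ≤ 5/3 < 2` (for `ρ < s`, `1 + r0/ρ ≤ (s + r0)/ρ`), and
`∫⁻ ofReal ((rz z)^(-q)) ∂ga2 < ⊤` (`pol_int`, integrability of `ρ^(1-q) exp(-ρ²/2)` on `Ioi 0`).
-/

set_option autoImplicit false

open MeasureTheory Set

namespace MB

variable {n : ℕ} {c R : ℝ} {G : E (n + 2) → E (n + 2)} {S : E (n + 2) → E (n + 3)}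
  {μ : E (n + 2) → ℝ}

theorem Yg2_young {n : ℕ} (hn : 1 ≤ n) {m L x : ℝ} (hm : 0 ≤ m) (hx : 0 ≤ x)
    (hL : L = x ^ ((2 : ℝ) / (n + 2))) :
    m * L ≤ 2 * (n + 1) / (n + 2) * x +
      n * (n + 1) / (n + 2) * (m / (n + 1)) ^ (((n : ℝ) + 2) / n) := by
  have hn0 : (0 : ℝ) < n := by exact_mod_cast hn
  have hN : (0 : ℝ) < (n : ℝ) + 2 := by positivity
  have hd : (0 : ℝ) < (n : ℝ) + 1 := by positivity
  have hL0 : 0 ≤ L := by rw [hL]; exact Real.rpow_nonneg hx _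
  have hpq : (((n : ℝ) + 2) / 2).HolderConjugate (((n : ℝ) + 2) / n) := by
    rw [Real.holderConjugate_iff]
    refine ⟨by rw [lt_div_iff₀ (by norm_num)]; linarith, ?_⟩
    rw [inv_div, inv_div]
    field_simp
    ring
  have h1 := Real.young_inequality_of_nonneg hL0 (div_nonneg hm hd.le) hpq
  have h2 : L ^ (((n : ℝ) + 2) / 2) = x := by
    rw [hL, ← Real.rpow_mul hx]
    have : (2 : ℝ) / (n + 2) * ((n + 2) / 2) = 1 := by field_simp
    rw [this, Real.rpow_one]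
  rw [h2] at h1
  have h3 : m * L = (n + 1) * (L * (m / (n + 1))) := by field_simp
  rw [h3]
  refine (mul_le_mul_of_nonneg_left h1 hd.le).trans (le_of_eq ?_)
  field_simp

theorem yg_int (hn : 1 ≤ n) {s : ℝ} (hs : 0 < s) (hc : 0 ≤ c) (hG : Dat c R G)
    (hS : ConfS S μ) :
    ∫⁻ p, ENNReal.ofReal (mC n s p * lam c R S G (T n p)) ∂(gaT n) ≤
      ENNReal.ofReal (2 * (n + 1) / (n + 2) * c) + ENNReal.ofReal (n * (n + 1) / (n + 2)) *
        ∫⁻ p, ENNReal.ofReal ((mC n s p / (n + 1)) ^ (((n : ℝ) + 2) / n)) ∂(gaT n) := by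
  have hD : Measurable fun p => ENNReal.ofReal (Dd R S G (T n p)) :=
    (Dd_meas.comp (cont_T n).measurable).ennreal_ofReal
  have hM : Measurable fun p : (ℝ × ℝ) × (Fin (n + 1) → ℝ) =>
      ENNReal.ofReal ((mC n s p / (n + 1)) ^ (((n : ℝ) + 2) / n)) :=
    (((mC_meas s).div_const _).pow_const _).ennreal_ofReal
  have hk : 0 ≤ 2 * ((n : ℝ) + 1) / (n + 2) * c := by positivity
  calc ∫⁻ p, ENNReal.ofReal (mC n s p * lam c R S G (T n p)) ∂(gaT n)
      ≤ ∫⁻ p, (ENNReal.ofReal (2 * (n + 1) / (n + 2) * c) * ENNReal.ofReal (Dd R S G (T n p)) +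
          ENNReal.ofReal (n * (n + 1) / (n + 2)) *
            ENNReal.ofReal ((mC n s p / (n + 1)) ^ (((n : ℝ) + 2) / n))) ∂(gaT n) := by
        refine lintegral_mono fun p => ?_
        have h0 := mC_nonneg (n := n) hs p
        have hd := Dd_nonneg (R := R) (S := S) (G := G) (T n p)
        have h1 := Yg2_young hn h0 (mul_nonneg hc hd)
          (L := lam c R S G (T n p)) rfl
        have h2 : 0 ≤ (mC n s p / (n + 1)) ^ (((n : ℝ) + 2) / n) :=
          Real.rpow_nonneg (div_nonneg h0 (by positivity)) _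
        dsimp only
        rw [← ENNReal.ofReal_mul hk, ← ENNReal.ofReal_mul (by positivity),
          ← ENNReal.ofReal_add (mul_nonneg hk hd) (by positivity)]
        refine ENNReal.ofReal_le_ofReal (h1.trans (le_of_eq ?_))
        ring
    _ = ENNReal.ofReal (2 * (n + 1) / (n + 2) * c) *
          ∫⁻ p, ENNReal.ofReal (Dd R S G (T n p)) ∂(gaT n) +
        ENNReal.ofReal (n * (n + 1) / (n + 2)) *
          ∫⁻ p, ENNReal.ofReal ((mC n s p / (n + 1)) ^ (((n : ℝ) + 2) / n)) ∂(gaT n) := by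
        rw [lintegral_add_left (hD.const_mul _), lintegral_const_mul _ hD,
          lintegral_const_mul _ hM]
    _ ≤ _ := by
        refine add_le_add ?_ le_rfl
        calc _ ≤ ENNReal.ofReal (2 * (n + 1) / (n + 2) * c) * 1 :=
              mul_le_mul' le_rfl (edd hG hS)
          _ = _ := mul_one _

theorem Yg2_kw {s ρ : ℝ} (hs : 0 < s) (hρ : 0 < ρ) : kw s ρ ≤ 1 + r0 / s + r0 / ρ := by
  have hr := r0_pos
  unfold kw
  split_ifs with h
  · have h1 := mil_le ρ hρ.le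
    have h2 : (mil ρ - s) / ρ ≤ r0 / ρ := by
      rw [div_le_div_iff_of_pos_right hρ]
      linarith
    have h3 : 0 < r0 / s := by positivity
    linarith
  · have h1 := mil_le s hs.le
    have h0 := mil_pos s
    have h2 : Real.exp ((ρ ^ 2 - s ^ 2) / 2) ≤ 1 := by
      rw [Real.exp_le_one_iff]
      have : ρ ^ 2 ≤ s ^ 2 := by
        rw [not_le] at h
        nlinarith
      linarith
    have h3 : Real.exp ((ρ ^ 2 - s ^ 2) / 2) * mil s / ρ ≤ r0 / ρ := by
      rw [div_le_div_iff_of_pos_right hρ]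
      calc Real.exp ((ρ ^ 2 - s ^ 2) / 2) * mil s ≤ 1 * mil s :=
            mul_le_mul_of_nonneg_right h2 h0.le
        _ ≤ r0 := by rw [one_mul]; exact h1
    have h4 : 0 < r0 / s := by positivity
    linarith

theorem Yg2_bd (n : ℕ) {s : ℝ} (hs : 0 < s) (p : (ℝ × ℝ) × (Fin (n + 1) → ℝ)) :
    mC n s p / (n + 1) ≤ (2 + r0 / s) + r0 / rz p.1 := by
  have hr := r0_pos
  have hrz : 0 ≤ rz p.1 := Real.sqrt_nonneg _
  have hg := gw_mem hs.le hrz
  have hk := kp_mem (T n p)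
  have hd : (0 : ℝ) < (n : ℝ) + 1 := by positivity
  have hn0 : (0 : ℝ) ≤ n := Nat.cast_nonneg n
  have hkw : 0 ≤ kw s (rz p.1) ∧ kw s (rz p.1) ≤ 1 + r0 / s + r0 / rz p.1 := by
    rcases hrz.eq_or_lt with h | h
    · rw [← h]
      have h1 : kw s 0 = 0 := by
        unfold kw
        rw [if_neg (not_le.2 hs), div_zero]
      rw [h1, div_zero]
      exact ⟨le_rfl, by positivity⟩
    · exact ⟨kw_nonneg hs.le h, Yg2_kw hs h⟩
  rw [div_le_iff₀ hd]
  have h3 : 0 ≤ r0 / rz p.1 := div_nonneg hr.le hrz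
  have h4 : 0 ≤ r0 / s := by positivity
  unfold mC
  have h5 : gw s (rz p.1) * ((n + 1) - kp (T n p)) ≤ 1 * (n + 1) := by
    refine mul_le_mul hg.2 (by linarith) (by linarith) zero_le_one
  have h6 : kw s (rz p.1) * kp (T n p) ≤ (1 + r0 / s + r0 / rz p.1) * (n + 1) := by
    refine mul_le_mul hkw.2 (by linarith) hk.1 (by linarith)
  nlinarith

theorem mq_fin (n : ℕ) (hn : 3 ≤ n) {s : ℝ} (hs : 0 < s) :
    ∫⁻ p, ENNReal.ofReal ((mC n s p / (n + 1)) ^ (((n : ℝ) + 2) / n)) ∂(gaT n) < ⊤ := by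
  have hr := r0_pos
  have hn3 : (3 : ℝ) ≤ n := by exact_mod_cast hn
  set q : ℝ := ((n : ℝ) + 2) / n with hq
  have hq0 : 0 < q := by positivity
  have hq2 : q < 2 := by
    rw [hq, div_lt_iff₀ (by linarith)]
    linarith
  set A : ℝ := 2 + r0 / s with hA
  have hA0 : 0 < A := by positivity
  -- the pointwise bound
  have hpt : ∀ p : (ℝ × ℝ) × (Fin (n + 1) → ℝ), (mC n s p / (n + 1)) ^ q ≤
      (2 * A) ^ q + (2 * r0) ^ q * (rz p.1) ^ (-q) := by
    intro p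
    have hrz : 0 ≤ rz p.1 := Real.sqrt_nonneg _
    have h0 : 0 ≤ mC n s p / (n + 1) := div_nonneg (mC_nonneg hs p) (by positivity)
    have h1 := Yg2_bd n hs p
    have hx : 0 ≤ r0 / rz p.1 := div_nonneg hr.le hrz
    have e1 : (2 * r0) ^ q * (rz p.1) ^ (-q) = (2 * (r0 / rz p.1)) ^ q := by
      rw [Real.rpow_neg hrz, ← div_eq_mul_inv, ← Real.div_rpow (by positivity) hrz]
      congr 1
      ring
    rw [e1]
    rcases le_total A (r0 / rz p.1) with h | h
    · have h2 : (mC n s p / (n + 1)) ^ q ≤ (2 * (r0 / rz p.1)) ^ q :=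
        Real.rpow_le_rpow h0 (by linarith) hq0.le
      have h3 : 0 ≤ (2 * A) ^ q := by positivity
      linarith
    · have h2 : (mC n s p / (n + 1)) ^ q ≤ (2 * A) ^ q :=
        Real.rpow_le_rpow h0 (by linarith) hq0.le
      have h3 : 0 ≤ (2 * (r0 / rz p.1)) ^ q := by positivity
      linarith
  have hF : Measurable fun z : ℝ × ℝ => ENNReal.ofReal ((rz z) ^ (-q)) :=
    ((rz_cont.measurable).pow_const _).ennreal_ofReal
  have hF2 : Measurable fun p : (ℝ × ℝ) × (Fin (n + 1) → ℝ) =>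
      ENNReal.ofReal ((rz p.1) ^ (-q)) := hF.comp measurable_fst
  -- the integral in the plane
  have hJ : ∫⁻ z, ENNReal.ofReal ((rz z) ^ (-q)) ∂ga2 < ⊤ := by
    rw [pol_int _ hF]
    have hin : ∀ θ : ℝ, ∫⁻ ρ in Ioi (0 : ℝ), ENNReal.ofReal (ρ * Real.exp (-ρ ^ 2 / 2)) *
        ENNReal.ofReal ((rz (pol ρ θ)) ^ (-q)) =
        ∫⁻ ρ in Ioi (0 : ℝ), ENNReal.ofReal (ρ ^ (1 - q) * Real.exp (-(1 / 2) * ρ ^ 2)) := by
      intro θ
      refine setLIntegral_congr_fun measurableSet_Ioi fun ρ hρ => ?_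
      have hρ' : 0 < ρ := hρ
      rw [rz_pol hρ'.le, ← ENNReal.ofReal_mul (by positivity)]
      congr 1
      rw [sub_eq_add_neg, Real.rpow_add hρ', Real.rpow_one]
      have : -ρ ^ 2 / 2 = -(1 / 2) * ρ ^ 2 := by ring
      rw [this]
      ring
    rw [lintegral_congr hin, lintegral_const]
    refine ENNReal.mul_lt_top ?_ ?_
    · have h1 := integrableOn_rpow_mul_exp_neg_mul_sq (b := 1 / 2) (by norm_num) (s := 1 - q)
        (by linarith)
      have h2 := h1.2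
      refine lt_of_le_of_lt ?_ h2
      refine lintegral_mono fun ρ => ?_
      exact Real.ofReal_le_enorm _
    · unfold ang
      rw [Measure.smul_apply, Measure.restrict_apply_univ, Real.volume_Ioo, smul_eq_mul]
      exact ENNReal.mul_lt_top ENNReal.ofReal_lt_top ENNReal.ofReal_lt_top
  have hJ2 : ∫⁻ p, ENNReal.ofReal ((rz p.1) ^ (-q)) ∂(gaT n) < ⊤ := by
    have h1 : MeasurePreserving Prod.fst (gaT n) ga2 := measurePreserving_fst
    have h2 := h1.lintegral_comp hF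
    rw [h2]
    exact hJ
  calc ∫⁻ p, ENNReal.ofReal ((mC n s p / (n + 1)) ^ q) ∂(gaT n)
      ≤ ∫⁻ p, (ENNReal.ofReal ((2 * A) ^ q) + ENNReal.ofReal ((2 * r0) ^ q) *
          ENNReal.ofReal ((rz p.1) ^ (-q))) ∂(gaT n) := by
        refine lintegral_mono fun p => ?_
        have hrz : 0 ≤ rz p.1 := Real.sqrt_nonneg _
        dsimp only
        rw [← ENNReal.ofReal_mul (by positivity), ← ENNReal.ofReal_add (by positivity)
          (by positivity)]
        exact ENNReal.ofReal_le_ofReal (hpt p)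
    _ = ENNReal.ofReal ((2 * A) ^ q) * (gaT n) univ + ENNReal.ofReal ((2 * r0) ^ q) *
          ∫⁻ p, ENNReal.ofReal ((rz p.1) ^ (-q)) ∂(gaT n) := by
        rw [lintegral_add_left measurable_const, lintegral_const, lintegral_const_mul _ hF2]
    _ < ⊤ := by
        refine ENNReal.add_lt_top.2 ⟨?_, ENNReal.mul_lt_top ENNReal.ofReal_lt_top hJ2⟩
        exact ENNReal.mul_lt_top ENNReal.ofReal_lt_top (measure_lt_top _ _)

end MB
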