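import Pool.Agent.H16.MC.Wpw
import Pool.Agent.H16.MC.Ctw
import Pool.Agent.H16.MC.Kpd
import Pool.Agent.H16.MC.InW
import Pool.Agent.H16.MC.InR
import Pool.Agent.H16.MC.Yg2
import Pool.Agent.H16.MC.Eqm
import Pool.Agent.H16.MB.Kp2

/-!
Row Cr2 (MP_c844e7, about 180 lines).  The main inequality.  Compare the proved row Cor, `Pool/Agent/H16/MB/Cor.lean`.

PROOF.  `d = n+1`.  `C = (4 κ₁ + 128 d κ₂ + 128 κ₃).toReal` with the finite integrals of `kpd1`, `kpd2`, `kpd3`.  `ctw` with `ε = τ^5 ≤ 1/2` gives `a`; `S z = mob a (sg z)` is `ConfS` (`conf_mob conf_sg a ha`).  `v p = Vf ε S G (T n p)` is continuous (`Vf_cont`, `cont_T`),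
`‖v p‖ ≤ ‖T n p‖ ≤ (n+3)(1+‖p‖)` (`Vf_norm`, `cut_mem`, `norm_T`), weighted mean zero.  `wpw` with `g i p = fderiv ℝ (Vf ε S G) (T n p) (bW n i)`, `h ρ θ W = fderiv ℝ (Vf ε S G) (T n (pol ρ θ, W)) (bR n θ)` (`dir_W`, `dir_R`, `Vf_diff`, `ax_T`, `pol_ne`;
measurability: `measurable_fderiv` and evaluation).  So `∫⁻ ofReal gw * nsq (v p) ≤ int_W2 + int_R2`.  The sum of the two integrals with `kp` and `lam`: `gw (kp + (d-kp) lam) + kw ((1-kp) + kp lam) = eC + mC lam` (nonnegative summands, so `lintegral_add_left`,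
`ofReal_add`), and `yg_int`.
Left side: `ofReal gw * nsq (T n p) ≤ ofReal gw * nsq (v p) + 4 ε² ofReal (‖T n p‖² qq (T n p))` a.e. (`gw ≤ 1`, `‖v‖² = cut² ‖X‖²`, `1 - cut² ≤ 2(1-cut) ≤ 4ε² qq` by `cut_one`, `wq_pos_ae` (row Kp2), `ε² = τ^10 ≤ τ²`), and `eqm`.
-/

set_option autoImplicit false

open MeasureTheory Set

namespace MB

private lemma Cr2_norm_T_le (n : ℕ) (p : (ℝ × ℝ) × (Fin (n + 1) → ℝ)) :
    ‖T n p‖ ≤ (n + 3) * (1 + ‖p‖) := by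
  have h := norm_T n p
  have h1 : |p.1.1| ≤ ‖p‖ := by
    rw [← Real.norm_eq_abs]
    exact (norm_fst_le p.1).trans (norm_fst_le p)
  have h2 : |p.1.2| ≤ ‖p‖ := by
    rw [← Real.norm_eq_abs]
    exact (norm_snd_le p.1).trans (norm_fst_le p)
  have h3 : ∀ j, |p.2 j| ≤ ‖p‖ := by
    intro j
    rw [← Real.norm_eq_abs]
    exact (norm_le_pi_norm p.2 j).trans (norm_snd_le p)
  have hn := norm_nonneg p
  have sq1 : ∀ x : ℝ, |x| ≤ ‖p‖ → x ^ 2 ≤ ‖p‖ ^ 2 := by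
    intro x hx
    rw [← sq_abs]
    exact pow_le_pow_left₀ (abs_nonneg x) hx 2
  have h4 : ∑ j, p.2 j ^ 2 ≤ ∑ _j : Fin (n + 1), ‖p‖ ^ 2 :=
    Finset.sum_le_sum fun j _ => sq1 _ (h3 j)
  rw [Finset.sum_const, Finset.card_univ, Fintype.card_fin, nsmul_eq_mul] at h4
  push_cast at h4
  have h5 : ‖T n p‖ ^ 2 ≤ (n + 3) * ‖p‖ ^ 2 := by
    rw [h]
    nlinarith [sq1 _ h1, sq1 _ h2]
  have hnn : (0 : ℝ) ≤ n := Nat.cast_nonneg n
  refine le_of_sq_le_sq ?_ (by positivity)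
  calc ‖T n p‖ ^ 2 ≤ (n + 3) * ‖p‖ ^ 2 := h5
    _ ≤ ((n + 3) * (1 + ‖p‖)) ^ 2 := by
        rw [mul_pow]
        have a1 : (n + 3 : ℝ) ≤ (n + 3) ^ 2 := by nlinarith
        have a2 : ‖p‖ ^ 2 ≤ (1 + ‖p‖) ^ 2 := by nlinarith
        exact mul_le_mul a1 a2 (by positivity) (by positivity)

private lemma Cr2_bR (n : ℕ) (θ : ℝ) :
    bR n θ = Real.cos θ • T n ((1, 0), 0) + Real.sin θ • T n ((0, 1), 0) := by
  ext i
  refine Fin.cases ?_ (fun i => Fin.cases ?_ (fun j => ?_) i) i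
  · simp [bR, T, pol]
  · simp [bR, T, pol]
  · simp [bR, T, pol]

private lemma Cr2_meas_h {n : ℕ} (V : E (n + 3) → E (n + 3)) :
    Measurable (fun p : ℝ × ℝ × (Fin (n + 1) → ℝ) =>
      fderiv ℝ V (T n (pol p.1 p.2.1, p.2.2)) (bR n p.2.1)) := by
  have hq : Measurable (fun p : ℝ × ℝ × (Fin (n + 1) → ℝ) => T n (pol p.1 p.2.1, p.2.2)) := by
    refine (cont_T n).measurable.comp ?_
    refine Measurable.prodMk ?_ (measurable_snd.comp measurable_snd)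
    unfold pol
    exact Measurable.prodMk
      (measurable_fst.mul (Real.measurable_cos.comp (measurable_fst.comp measurable_snd)))
      (measurable_fst.mul (Real.measurable_sin.comp (measurable_fst.comp measurable_snd)))
  have h1 := (measurable_fderiv_apply_const ℝ V (T n ((1, 0), 0))).comp hq
  have h2 := (measurable_fderiv_apply_const ℝ V (T n ((0, 1), 0))).comp hq
  have e : (fun p : ℝ × ℝ × (Fin (n + 1) → ℝ) =>
      fderiv ℝ V (T n (pol p.1 p.2.1, p.2.2)) (bR n p.2.1)) =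
      fun p => Real.cos p.2.1 • fderiv ℝ V (T n (pol p.1 p.2.1, p.2.2)) (T n ((1, 0), 0)) +
        Real.sin p.2.1 • fderiv ℝ V (T n (pol p.1 p.2.1, p.2.2)) (T n ((0, 1), 0)) := by
    funext p
    rw [Cr2_bR, map_add, map_smul, map_smul]
  rw [e]
  exact ((Real.measurable_cos.comp (measurable_fst.comp measurable_snd)).smul h1).add
    ((Real.measurable_sin.comp (measurable_fst.comp measurable_snd)).smul h2)

private lemma Cr2_rz_nonneg (z : ℝ × ℝ) : 0 ≤ rz z := Real.sqrt_nonneg _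

private lemma Cr2_kw {s : ℝ} (hs : 0 < s) (z : ℝ × ℝ) : 0 ≤ kw s (rz z) := by
  rcases (Cr2_rz_nonneg z).eq_or_lt with h | h
  · rw [← h]
    unfold kw
    rw [if_neg (not_le.2 hs), div_zero]
  · exact kw_nonneg hs.le h

private lemma Cr2_gw_meas (n : ℕ) (s : ℝ) :
    Measurable (fun p : (ℝ × ℝ) × (Fin (n + 1) → ℝ) => gw s (rz p.1)) :=
  (gw_meas s).comp (rz_cont.measurable.comp measurable_fst)

/-- The left side. -/
private lemma Cr2_left (n : ℕ) (hn : 1 ≤ n) {ε s : ℝ} (hs : 0 < s) {S : E (n + 2) → E (n + 3)}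
    {μ : E (n + 2) → ℝ} {G : E (n + 2) → E (n + 2)} (hS : ConfS S μ)
    (hv : Continuous (Vf ε S G)) :
    ∫⁻ p, ENNReal.ofReal (gw s (rz p.1)) * nsq (T n p) ∂(gaT n) ≤
      ∫⁻ p, ENNReal.ofReal (gw s (rz p.1)) * nsq (Vf ε S G (T n p)) ∂(gaT n) +
      ENNReal.ofReal (4 * ε ^ 2) * ∫⁻ p, ENNReal.ofReal (‖T n p‖ ^ 2 * qq (T n p)) ∂(gaT n) := by
  have hm : Measurable (fun p => ENNReal.ofReal (gw s (rz p.1)) *
      nsq (Vf ε S G (T n p))) := by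
    refine (Cr2_gw_meas n s).ennreal_ofReal.mul ?_
    unfold nsq
    exact (((hv.comp (cont_T n)).norm.measurable).pow_const 2).ennreal_ofReal
  rw [← lintegral_const_mul' _ _ ENNReal.ofReal_ne_top, ← lintegral_add_left hm]
  refine lintegral_mono_ae ?_
  filter_upwards [wq_pos_ae n hn] with p hp
  have h1 := Vf_norm (ε := ε) (G := G) hS (T n p)
  have h2 := cut_mem ε (T n p)
  have h3 := cut_one ε (T n p) hp
  have h7 : nsq (T n p) ≤ nsq (Vf ε S G (T n p)) +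
      ENNReal.ofReal (4 * ε ^ 2) * ENNReal.ofReal (‖T n p‖ ^ 2 * qq (T n p)) := by
    unfold nsq
    rw [← ENNReal.ofReal_mul (by positivity)]
    refine (ENNReal.ofReal_le_ofReal ?_).trans ENNReal.ofReal_add_le
    rw [h1]
    have h4 : 0 ≤ ‖T n p‖ ^ 2 := by positivity
    have h5 : 1 - (cut ε (T n p)) ^ 2 ≤ 2 * (1 - cut ε (T n p)) := by
      nlinarith [h2.1, h2.2]
    have h6 : 1 - (cut ε (T n p)) ^ 2 ≤ 4 * ε ^ 2 * qq (T n p) := by linarith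
    nlinarith [mul_le_mul_of_nonneg_right h6 h4]
  have h8 : ENNReal.ofReal (gw s (rz p.1)) ≤ 1 := by
    rw [← ENNReal.ofReal_one]
    exact ENNReal.ofReal_le_ofReal (gw_mem hs.le (Cr2_rz_nonneg _)).2
  calc ENNReal.ofReal (gw s (rz p.1)) * nsq (T n p)
      ≤ ENNReal.ofReal (gw s (rz p.1)) * (nsq (Vf ε S G (T n p)) +
        ENNReal.ofReal (4 * ε ^ 2) * ENNReal.ofReal (‖T n p‖ ^ 2 * qq (T n p))) := by
        gcongr
    _ = ENNReal.ofReal (gw s (rz p.1)) * nsq (Vf ε S G (T n p)) +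
        ENNReal.ofReal (gw s (rz p.1)) *
          (ENNReal.ofReal (4 * ε ^ 2) * ENNReal.ofReal (‖T n p‖ ^ 2 * qq (T n p))) := by
        rw [mul_add]
    _ ≤ ENNReal.ofReal (gw s (rz p.1)) * nsq (Vf ε S G (T n p)) +
        1 * (ENNReal.ofReal (4 * ε ^ 2) * ENNReal.ofReal (‖T n p‖ ^ 2 * qq (T n p))) := by
        gcongr
    _ = _ := by rw [one_mul]

/-- The two integrals with `kp` and `lam`. -/
private lemma Cr2_mid {n : ℕ} (hn : 1 ≤ n) {c R s : ℝ} (hs : 0 < s) (hc : 0 ≤ c)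
    {S : E (n + 2) → E (n + 3)} {μ : E (n + 2) → ℝ}
    {G : E (n + 2) → E (n + 2)} (hS : ConfS S μ) (hG : Dat c R G) :
    ∫⁻ p, ENNReal.ofReal (gw s (rz p.1) * (kp (T n p) +
        ((n + 1) - kp (T n p)) * lam c R S G (T n p))) ∂(gaT n) +
      ∫⁻ p, ENNReal.ofReal (kw s (rz p.1) *
        ((1 - kp (T n p)) + kp (T n p) * lam c R S G (T n p))) ∂(gaT n) ≤
      ∫⁻ p, ENNReal.ofReal (eC n s p) ∂(gaT n) +
        (ENNReal.ofReal (2 * (n + 1) / (n + 2) * c) + ENNReal.ofReal (n * (n + 1) / (n + 2)) *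
          ∫⁻ p, ENNReal.ofReal ((mC n s p / (n + 1)) ^ (((n : ℝ) + 2) / n)) ∂(gaT n)) := by
  have hk : Measurable (fun p => kp (T n p)) := kp_meas.comp (cont_T n).measurable
  have hl : Measurable (fun p => lam c R S G (T n p)) := lam_meas.comp (cont_T n).measurable
  have hnn : (0 : ℝ) ≤ n := Nat.cast_nonneg n
  have m1 : Measurable (fun p => ENNReal.ofReal (gw s (rz p.1) * (kp (T n p) +
        ((n + 1) - kp (T n p)) * lam c R S G (T n p)))) :=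
    ((Cr2_gw_meas n s).mul (hk.add ((measurable_const.sub hk).mul hl))).ennreal_ofReal
  refine le_trans ?_ (add_le_add le_rfl (yg_int hn hs hc hG hS))
  rw [← lintegral_add_left m1, ← lintegral_add_left (eC_meas s).ennreal_ofReal]
  refine lintegral_mono fun p => ?_
  have k0 := kp_mem (T n p)
  have l0 := lam_nonneg (R := R) (S := S) (G := G) hc (T n p)
  have g0 := (gw_mem hs.le (Cr2_rz_nonneg p.1)).1
  have w0 := Cr2_kw hs p.1
  have n1 : 0 ≤ (n + 1 : ℝ) - kp (T n p) := by linarith [k0.2]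
  have e1 : 0 ≤ gw s (rz p.1) * (kp (T n p) +
      ((n + 1) - kp (T n p)) * lam c R S G (T n p)) :=
    mul_nonneg g0 (add_nonneg k0.1 (mul_nonneg n1 l0))
  have e2 : 0 ≤ kw s (rz p.1) * ((1 - kp (T n p)) + kp (T n p) * lam c R S G (T n p)) :=
    mul_nonneg w0 (add_nonneg (by linarith [k0.2]) (mul_nonneg k0.1 l0))
  have e3 := eC_nonneg (n := n) hs p
  have e4 := mul_nonneg (mC_nonneg (n := n) hs p) l0
  simp only []
  rw [← ENNReal.ofReal_add e1 e2, ← ENNReal.ofReal_add e3 e4]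
  refine ENNReal.ofReal_le_ofReal (le_of_eq ?_)
  unfold eC mC
  ring

theorem cr2 (n : ℕ) (hn : 3 ≤ n) {s : ℝ} (hs : 0 < s) : ∃ C : ℝ, 0 ≤ C ∧ ∀ τ : ℝ, 0 < τ →
    τ ≤ 1 / 2 → ∀ c : ℝ, 0 ≤ c → ∀ G : E (n + 2) → E (n + 2), Dat c (2 / τ ^ 5) G →
      ∫⁻ p, ENNReal.ofReal (eC n s p + mC n s p) ∂(gaT n) ≤
        ENNReal.ofReal (1 + τ ^ 2) * (∫⁻ p, ENNReal.ofReal (eC n s p) ∂(gaT n) +
          (ENNReal.ofReal (2 * (n + 1) / (n + 2) * c) + ENNReal.ofReal (n * (n + 1) / (n + 2)) *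
            ∫⁻ p, ENNReal.ofReal ((mC n s p / (n + 1)) ^ (((n : ℝ) + 2) / n)) ∂(gaT n))) +
        ENNReal.ofReal (C * τ ^ 2) := by
  obtain ⟨K1, hK1⟩ : ∃ x, x = ∫⁻ p, ENNReal.ofReal (‖T n p‖ ^ 2 * qq (T n p)) ∂(gaT n) := ⟨_, rfl⟩
  obtain ⟨K2, hK2⟩ : ∃ x, x = ∫⁻ p, ENNReal.ofReal (qq (T n p) ^ ((7 : ℝ) / 5)) ∂(gaT n) :=
    ⟨_, rfl⟩
  obtain ⟨K3, hK3⟩ : ∃ x, x = ∫⁻ W, ∫⁻ θ,
    dbw s (fun ρ => ENNReal.ofReal (qq (T n (pol ρ θ, W)) ^ ((7 : ℝ) / 5))) ∂ang ∂(gad (n + 1)) :=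
    ⟨_, rfl⟩
  have f1 : K1 ≠ ⊤ := by rw [hK1]; exact (kpd1 n hn).ne
  have f2 : K2 ≠ ⊤ := by rw [hK2]; exact (kpd2 n hn).ne
  have f3 : K3 ≠ ⊤ := by rw [hK3]; exact (kpd3 n hn hs).ne
  have t1 : 0 ≤ K1.toReal := ENNReal.toReal_nonneg
  have t2 : 0 ≤ K2.toReal := ENNReal.toReal_nonneg
  have t3 : 0 ≤ K3.toReal := ENNReal.toReal_nonneg
  refine ⟨4 * K1.toReal + 128 * (n + 1) * K2.toReal + 128 * K3.toReal, by positivity,
    fun τ hτ hτ1 c hc G hG => ?_⟩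
  have hε : 0 < τ ^ 5 := by positivity
  have hτ5 : τ ^ 5 ≤ τ := by
    have h1 : τ ^ 5 ≤ τ ^ 1 := pow_le_pow_of_le_one hτ.le (by linarith) (by norm_num)
    rwa [pow_one] at h1
  have hε1 : τ ^ 5 ≤ 1 / 2 := hτ5.trans hτ1
  obtain ⟨a, ha, h0⟩ := ctw (by omega : 1 ≤ n) hs hε hε1 hG
  have hS := conf_mob (conf_sg (n := n + 2)) a ha
  obtain ⟨S, hSd⟩ : ∃ S : E (n + 2) → E (n + 3), S = fun z => mob a (sg z) := ⟨_, rfl⟩
  rw [← hSd] at hS h0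
  have hvc := Vf_cont hε hG hS
  have hnn : (0 : ℝ) ≤ n := Nat.cast_nonneg n
  have hL := Cr2_left n (by omega) hs hS hvc
  have hW := int_W2 hs hτ (by linarith) hc hG hS
  have hR := int_R2 hs hτ (by linarith) hc hG hS
  have hM := Cr2_mid (by omega : 1 ≤ n) hs hc hS hG
  have hwp := wpw n hs (fun p => Vf (τ ^ 5) S G (T n p))
    (fun i p => fderiv ℝ (Vf (τ ^ 5) S G) (T n p) (bW n i))
    (fun ρ θ W => fderiv ℝ (Vf (τ ^ 5) S G) (T n (pol ρ θ, W)) (bR n θ))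
    (hvc.comp (cont_T n)) (n + 3)
    (fun p => by
      rw [Vf_norm hS]
      have h2 := cut_mem (τ ^ 5) (T n p)
      calc cut (τ ^ 5) (T n p) * ‖T n p‖ ≤ 1 * ‖T n p‖ :=
            mul_le_mul_of_nonneg_right h2.2 (norm_nonneg _)
        _ ≤ _ := by rw [one_mul]; exact Cr2_norm_T_le n p)
    (fun z hz W i => dir_W _ z W i (Vf_diff hε hG hS _ (by rw [ax_T]; exact hz)))
    (fun i => (measurable_fderiv_apply_const ℝ (Vf (τ ^ 5) S G) (bW n i)).comp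
      (cont_T n).measurable)
    (fun W θ ρ hρ => dir_R _ ρ θ W (Vf_diff hε hG hS _ (by rw [ax_T]; exact pol_ne hρ)))
    (Cr2_meas_h _) h0
  rw [← hK1] at hL
  rw [← hK2] at hW
  rw [← hK3] at hR
  rw [← eqm n hs]
  obtain ⟨I1, hI1⟩ : ∃ x, x = ∫⁻ p, ENNReal.ofReal (gw s (rz p.1) * (kp (T n p) +
        ((n + 1) - kp (T n p)) * lam c (2 / τ ^ 5) S G (T n p))) ∂(gaT n) := ⟨_, rfl⟩
  obtain ⟨I2, hI2⟩ : ∃ x, x = ∫⁻ p, ENNReal.ofReal (kw s (rz p.1) *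
        ((1 - kp (T n p)) + kp (T n p) * lam c (2 / τ ^ 5) S G (T n p))) ∂(gaT n) := ⟨_, rfl⟩
  obtain ⟨Q, hQ⟩ : ∃ x, x = ∫⁻ p, ENNReal.ofReal (eC n s p) ∂(gaT n) +
        (ENNReal.ofReal (2 * (n + 1) / (n + 2) * c) + ENNReal.ofReal (n * (n + 1) / (n + 2)) *
          ∫⁻ p, ENNReal.ofReal ((mC n s p / (n + 1)) ^ (((n : ℝ) + 2) / n)) ∂(gaT n)) := ⟨_, rfl⟩
  rw [← hI1] at hW hM
  rw [← hI2] at hR hM
  rw [← hQ] at hM ⊢
  have hA : ∫⁻ p, ENNReal.ofReal (gw s (rz p.1)) * nsq (Vf (τ ^ 5) S G (T n p)) ∂(gaT n) ≤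
      (ENNReal.ofReal (1 + τ ^ 2) * I1 + ENNReal.ofReal (128 * τ ^ 2 * (n + 1)) * K2) +
      (ENNReal.ofReal (1 + τ ^ 2) * I2 + ENNReal.ofReal (128 * τ ^ 2) * K3) :=
    hwp.trans (add_le_add hW hR)
  have hB : (ENNReal.ofReal (1 + τ ^ 2) * I1 + ENNReal.ofReal (128 * τ ^ 2 * (n + 1)) * K2) +
      (ENNReal.ofReal (1 + τ ^ 2) * I2 + ENNReal.ofReal (128 * τ ^ 2) * K3) =
      ENNReal.ofReal (1 + τ ^ 2) * (I1 + I2) + (ENNReal.ofReal (128 * τ ^ 2 * (n + 1)) * K2 +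
      ENNReal.ofReal (128 * τ ^ 2) * K3) := by
    ring
  rw [hB] at hA
  have hC : ENNReal.ofReal (1 + τ ^ 2) * (I1 + I2) +
      (ENNReal.ofReal (128 * τ ^ 2 * (n + 1)) * K2 + ENNReal.ofReal (128 * τ ^ 2) * K3) ≤
      ENNReal.ofReal (1 + τ ^ 2) * Q + (ENNReal.ofReal (128 * τ ^ 2 * (n + 1)) * K2 +
      ENNReal.ofReal (128 * τ ^ 2) * K3) := by
    gcongr
  refine (hL.trans (add_le_add (hA.trans hC) le_rfl)).trans ?_
  rw [add_assoc]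
  refine add_le_add le_rfl ?_
  obtain ⟨x1, hx1⟩ : ∃ x, x = K1.toReal := ⟨_, rfl⟩
  obtain ⟨x2, hx2⟩ : ∃ x, x = K2.toReal := ⟨_, rfl⟩
  obtain ⟨x3, hx3⟩ : ∃ x, x = K3.toReal := ⟨_, rfl⟩
  have g1 : K1 = ENNReal.ofReal K1.toReal := (ENNReal.ofReal_toReal f1).symm
  have g2 : K2 = ENNReal.ofReal K2.toReal := (ENNReal.ofReal_toReal f2).symm
  have g3 : K3 = ENNReal.ofReal K3.toReal := (ENNReal.ofReal_toReal f3).symm
  rw [← hx1] at g1 t1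
  rw [← hx2] at g2 t2
  rw [← hx3] at g3 t3
  rw [← hx1, ← hx2, ← hx3, g1, g2, g3, ← ENNReal.ofReal_mul (by positivity),
    ← ENNReal.ofReal_mul (by positivity), ← ENNReal.ofReal_mul (by positivity),
    ← ENNReal.ofReal_add (by positivity) (by positivity),
    ← ENNReal.ofReal_add (by positivity) (by positivity)]
  refine ENNReal.ofReal_le_ofReal ?_
  have h10 : (τ ^ 5) ^ 2 ≤ τ ^ 2 := by
    have h1 : 0 ≤ τ ^ 5 := hε.le
    exact pow_le_pow_left₀ h1 hτ5 2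
  have h11 := mul_le_mul_of_nonneg_right h10 t1
  nlinarith

end MB
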