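import Pool.Agent.H16.MC.Cr2

/-!
Row Cr3 (MP_c844e7, about 110 lines).  The limit `τ → 0`.

PROOF.  `a = ∫⁻ ofReal eC`, `m = ∫⁻ ofReal mC` are finite (`em_fin`), `r = ∫⁻ ofReal ((mC/(n+1))^q)` is finite (`mq_fin`), `q = (n+2)/n`.  `∫⁻ ofReal (eC+mC) = a + m`.  For every `τ ∈ (0,1/2]` apply `h` with `R = 2/τ^5` and `cr2`; take `toReal` and let `τ → 0`
(`ge_of_tendsto` along `𝓝[>] 0`, or choose `τ` explicitly): `a + m ≤ a + (2(n+1)/(n+2)) c + (n(n+1)/(n+2)) r` (real numbers), so `m ≤ (2(n+1)/(n+2)) c + (n(n+1)/(n+2)) r`.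
`fmu n (mC/(n+1))` is integrable (both terms are: nonnegative, measurable, finite lintegral) and `∫ fmu n (mC/(n+1)) = ((n+2)/(2(n+1))) m - (n/2) r ≤ c` (`integral_sub`, `integral_const_mul`, `integral_eq_lintegral_of_nonneg_ae`).
-/

set_option autoImplicit false

open MeasureTheory Set

namespace MB

theorem Cr3_int {n : ℕ} {f : (ℝ × ℝ) × (Fin (n + 1) → ℝ) → ℝ} (hm : Measurable f)
    (h0 : ∀ p, 0 ≤ f p) (h : ∫⁻ p, ENNReal.ofReal (f p) ∂(gaT n) < ⊤) :
    Integrable f (gaT n) :=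
  ⟨hm.aestronglyMeasurable, (hasFiniteIntegral_iff_ofReal (Filter.Eventually.of_forall h0)).2 h⟩

theorem Cr3_e (n : ℕ) {s : ℝ} (hs : 0 < s) : Integrable (eC n s) (gaT n) :=
  Cr3_int (eC_meas s) (eC_nonneg hs) (lt_of_le_of_lt (lintegral_mono fun p =>
    ENNReal.ofReal_le_ofReal (by linarith [mC_nonneg hs p])) (em_fin n hs))

theorem Cr3_m (n : ℕ) {s : ℝ} (hs : 0 < s) : Integrable (mC n s) (gaT n) :=
  Cr3_int (mC_meas s) (mC_nonneg hs) (lt_of_le_of_lt (lintegral_mono fun p =>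
    ENNReal.ofReal_le_ofReal (by linarith [eC_nonneg hs p])) (em_fin n hs))

theorem Cr3_q (n : ℕ) (hn : 3 ≤ n) {s : ℝ} (hs : 0 < s) :
    Integrable (fun p => (mC n s p / (n + 1)) ^ (((n : ℝ) + 2) / n)) (gaT n) :=
  Cr3_int (((mC_meas s).div_const _).pow_const _)
    (fun p => Real.rpow_nonneg (div_nonneg (mC_nonneg hs p) (by positivity)) _) (mq_fin n hn hs)

theorem Cr3_f (n : ℕ) (s : ℝ) : (fun p => fmu n (mC n s p / (n + 1))) = fun p =>
    (((n : ℝ) + 2) * (mC n s p / (n + 1)) - n * (mC n s p / (n + 1)) ^ (((n : ℝ) + 2) / n)) / 2 :=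
  rfl

theorem fmu_integrable (n : ℕ) (hn : 3 ≤ n) {s : ℝ} (hs : 0 < s) :
    Integrable (fun p => fmu n (mC n s p / (n + 1))) (gaT n) := by
  rw [Cr3_f]
  exact ((((Cr3_m n hs).div_const _).const_mul _).sub ((Cr3_q n hn hs).const_mul _)).div_const _

theorem cr3 (n : ℕ) (hn : 3 ≤ n) {s : ℝ} (hs : 0 < s) {c : ℝ} (hc : 0 ≤ c)
    (h : ∀ R : ℝ, 0 < R → ∃ G : E (n + 2) → E (n + 2), Dat c R G) :
    ∫ p, fmu n (mC n s p / (n + 1)) ∂(gaT n) ≤ c := by
  obtain ⟨C, hC, hcr⟩ := cr2 n hn hs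
  have hI1 := Cr3_e n hs
  have hI2 := Cr3_m n hs
  have hI3 := Cr3_q n hn hs
  set a : ℝ := ∫ p, eC n s p ∂(gaT n) with ha
  set m : ℝ := ∫ p, mC n s p ∂(gaT n) with hm
  set r : ℝ := ∫ p, (mC n s p / (n + 1)) ^ (((n : ℝ) + 2) / n) ∂(gaT n) with hr
  have a0 : 0 ≤ a := integral_nonneg (eC_nonneg hs)
  have m0 : 0 ≤ m := integral_nonneg (mC_nonneg hs)
  have r0' : 0 ≤ r := integral_nonneg
    (fun p => Real.rpow_nonneg (div_nonneg (mC_nonneg hs p) (by positivity)) _)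
  have e1 : ∫⁻ p, ENNReal.ofReal (eC n s p) ∂(gaT n) = ENNReal.ofReal a :=
    (ofReal_integral_eq_lintegral_ofReal hI1 (Filter.Eventually.of_forall (eC_nonneg hs))).symm
  have e2 : ∫⁻ p, ENNReal.ofReal (eC n s p + mC n s p) ∂(gaT n) = ENNReal.ofReal (a + m) := by
    rw [← integral_add hI1 hI2]
    exact (ofReal_integral_eq_lintegral_ofReal (hI1.add hI2) (Filter.Eventually.of_forall
      fun p => add_nonneg (eC_nonneg hs p) (mC_nonneg hs p))).symm
  have e3 : ∫⁻ p, ENNReal.ofReal ((mC n s p / (n + 1)) ^ (((n : ℝ) + 2) / n)) ∂(gaT n) =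
      ENNReal.ofReal r :=
    (ofReal_integral_eq_lintegral_ofReal hI3 (Filter.Eventually.of_forall
      fun p => Real.rpow_nonneg (div_nonneg (mC_nonneg hs p) (by positivity)) _)).symm
  have hn0 : (0 : ℝ) < n := by
    have : 0 < n := by omega
    exact_mod_cast this
  set X : ℝ := a + (2 * (n + 1) / (n + 2) * c + n * (n + 1) / (n + 2) * r) with hX
  have X0 : 0 ≤ X := by positivity
  have key : ∀ τ : ℝ, 0 < τ → τ ≤ 1 / 2 → a + m ≤ (1 + τ ^ 2) * X + C * τ ^ 2 := by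
    intro τ hτ hτ2
    obtain ⟨G, hG⟩ := h (2 / τ ^ 5) (by positivity)
    have h1 := hcr τ hτ hτ2 c hc G hG
    rw [e1, e2, e3, ← ENNReal.ofReal_mul (by positivity), ← ENNReal.ofReal_add (by positivity)
      (by positivity), ← ENNReal.ofReal_add a0 (by positivity), ← hX,
      ← ENNReal.ofReal_mul (by positivity), ← ENNReal.ofReal_add (by positivity) (by positivity),
      ENNReal.ofReal_le_ofReal_iff (by positivity)] at h1
    exact h1
  have hlim : Filter.Tendsto (fun τ : ℝ => (1 + τ ^ 2) * X + C * τ ^ 2) (nhdsWithin 0 (Ioi 0))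
      (nhds X) := by
    have hc : Continuous (fun τ : ℝ => (1 + τ ^ 2) * X + C * τ ^ 2) := by fun_prop
    exact (hc.tendsto' 0 X (by simp)).mono_left nhdsWithin_le_nhds
  have hle : a + m ≤ X := by
    refine ge_of_tendsto hlim ?_
    filter_upwards [Ioc_mem_nhdsGT (by norm_num : (0 : ℝ) < 1 / 2)] with τ hτ
    exact key τ hτ.1 hτ.2
  have hm' : m ≤ 2 * (n + 1) / (n + 2) * c + n * (n + 1) / (n + 2) * r := by
    rw [hX] at hle
    linarith
  have hint : ∫ p, fmu n (mC n s p / (n + 1)) ∂(gaT n) =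
      (((n : ℝ) + 2) * (m / (n + 1)) - n * r) / 2 := by
    rw [Cr3_f, integral_div, integral_sub ((hI2.div_const _).const_mul _) (hI3.const_mul _),
      integral_const_mul, integral_const_mul, integral_div]
  rw [hint]
  have h5 : ((n : ℝ) + 2) * (m / (n + 1)) ≤
      ((n : ℝ) + 2) * ((2 * (n + 1) / (n + 2) * c + n * (n + 1) / (n + 2) * r) / (n + 1)) := by
    gcongr
  have h6 : ((n : ℝ) + 2) * ((2 * (n + 1) / (n + 2) * c + n * (n + 1) / (n + 2) * r) / (n + 1)) =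
      2 * c + n * r := by
    field_simp
  linarith

end MB
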