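import Pool.Agent.H16.MC.CDefs

/-!
Row Fmu (MP_c844e7, about 80 lines).  The function `fmu n t = ((n+2) t - n t^((n+2)/n))/2` for `t ≥ 0`.

PROOF.  `fmu_ge`: `t^((n+2)/n) = t t^(2/n)` (for `t > 0`; `t = 0` directly: `fmu n 0 = 0`), and `t^(2/n) ≤ 1 + (2/n)(t-1)` for `n ≥ 2` (Bernoulli with exponent `2/n ≤ 1`: `Real.rpow_one_add_le_one_add_mul_self` for `s = t - 1 ≥ -1`), so
`n t^((n+2)/n) ≤ n t + 2t(t-1)` and `fmu ≥ ((n+2)t - nt - 2t² + 2t)/2 = 2t - t² = 1 - (t-1)²`.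
`fmu_le`: weighted arithmetic–geometric mean: `t = 1^(2/(n+2)) (t^((n+2)/n))^(n/(n+2)) ≤ 2/(n+2) + (n/(n+2)) t^((n+2)/n)`, i.e. `(n+2)t - n t^((n+2)/n) ≤ 2`.
`fmu_mul`: for `0 ≤ ϑ ≤ 1`: `ϑ^((n+2)/n) ≤ ϑ` (exponent `≥ 1`: `Real.rpow_le_rpow_of_exponent_ge`), `(ϑt)^q = ϑ^q t^q ≤ ϑ t^q`, so `fmu (ϑt) ≥ ϑ fmu t = fmu t - (1-ϑ) fmu t ≥ fmu t - (1-ϑ)` by `fmu_le`.
-/

set_option autoImplicit false

open MeasureTheory Set

namespace MB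

private lemma Fmu_q (n : ℕ) (hn : 1 ≤ n) : ((n : ℝ) + 2) / n = 1 + 2 / n := by
  have : (n : ℝ) ≠ 0 := by positivity
  field_simp

theorem fmu_ge (n : ℕ) (hn : 2 ≤ n) (t : ℝ) (ht : 0 ≤ t) : 1 - (t - 1) ^ 2 ≤ fmu n t := by
  have hn0 : (0 : ℝ) < n := by positivity
  have hn2 : (2 : ℝ) ≤ n := by exact_mod_cast hn
  have h0 : (0 : ℝ) ≤ 2 / n := by positivity
  have h1 : (2 : ℝ) / n ≤ 1 := (div_le_one hn0).2 hn2
  have h2 := rpow_one_add_le_one_add_mul_self (s := t - 1) (by linarith) h0 h1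
  rw [add_sub_cancel] at h2
  have h3 : t ^ (((n : ℝ) + 2) / n) = t * t ^ ((2 : ℝ) / n) := by
    rw [Fmu_q n (by omega), Real.rpow_one_add' ht (by positivity)]
  have h4 : t * t ^ ((2 : ℝ) / n) ≤ t * (1 + 2 / n * (t - 1)) := mul_le_mul_of_nonneg_left h2 ht
  have h5 := mul_le_mul_of_nonneg_left h4 hn0.le
  have h6 : (n : ℝ) * (t * (1 + 2 / n * (t - 1))) = n * t + 2 * t * (t - 1) := by
    field_simp
  unfold fmu
  rw [h3]
  nlinarith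

theorem fmu_le (n : ℕ) (hn : 1 ≤ n) (t : ℝ) (ht : 0 ≤ t) : fmu n t ≤ 1 := by
  have hn0 : (0 : ℝ) < n := by positivity
  have h1 : (1 : ℝ) ≤ ((n : ℝ) + 2) / n := by
    rw [Fmu_q n hn]
    have : (0 : ℝ) ≤ 2 / n := by positivity
    linarith
  have h2 := one_add_mul_self_le_rpow_one_add (s := t - 1) (by linarith) h1
  rw [add_sub_cancel] at h2
  have h3 := mul_le_mul_of_nonneg_left h2 hn0.le
  have h4 : (n : ℝ) * (1 + ((n : ℝ) + 2) / n * (t - 1)) = n + (n + 2) * (t - 1) := by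
    field_simp
  unfold fmu
  linarith

theorem fmu_mul (n : ℕ) (hn : 1 ≤ n) (t v : ℝ) (ht : 0 ≤ t) (hv : 0 ≤ v) (hv1 : v ≤ 1) :
    fmu n t - (1 - v) ≤ fmu n (v * t) := by
  have hn0 : (0 : ℝ) < n := by positivity
  have h1 : (1 : ℝ) ≤ ((n : ℝ) + 2) / n := by
    rw [Fmu_q n hn]
    have : (0 : ℝ) ≤ 2 / n := by positivity
    linarith
  have h2 : v ^ (((n : ℝ) + 2) / n) ≤ v := by
    have := Real.rpow_le_rpow_of_exponent_ge' hv hv1 zero_le_one h1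
    rwa [Real.rpow_one] at this
  have h3 : (v * t) ^ (((n : ℝ) + 2) / n) ≤ v * t ^ (((n : ℝ) + 2) / n) := by
    rw [Real.mul_rpow hv ht]
    exact mul_le_mul_of_nonneg_right h2 (Real.rpow_nonneg ht _)
  have h4 := mul_le_mul_of_nonneg_left h3 hn0.le
  have h5 : v * fmu n t ≤ fmu n (v * t) := by
    unfold fmu
    linarith
  have h6 := mul_le_mul_of_nonneg_left (fmu_le n hn t ht) (sub_nonneg.2 hv1)
  linarith

end MB
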