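import Pool.Agent.H16.MC.Kgx
import Pool.Agent.H16.MC.Fmu
import Pool.Agent.H16.MB.Pol

/-!
Row Iu (MP_c844e7, about 160 lines).  Integrals over the plane.

PROOF.  All by `pol_int` and `rz_pol` (`ang` has total mass `1`: `ofReal (2π)⁻¹ * volume (Ioo (-π) π) = 1`); `F z` depends on `rz z` only.
`iu1`: `∫⁻ ρ in Ioi 0, ofReal (ρ exp(-ρ²/2) (r0 - mil ρ)/ρ) = ∫_0^∞ (r0 - mil ρ) exp(-ρ²/2) dρ = r0 · r0 - ∫_0^∞ ∫_ρ^∞ exp(-t²/2) dt dρ = π/2 - ∫_0^∞ t exp(-t²/2) dt = π/2 - 1` (`mil ρ exp(-ρ²/2) = ∫_ρ^∞ exp(-t²/2) dt`, Tonelli;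
`∫_0^∞ exp(-ρ²/2) = √(π/2) = r0`, `r0² = π/2`).
`iu2`: `∫_0^s ρ exp(-ρ²/2) (1 - fmu n (s/ρ)) dρ ≤ ∫_0^s ρ (1 - fmu n (s/ρ)) dρ` (`fmu_le`), and `ρ (1 - fmu n (s/ρ)) = ρ - (n+2) s/2 + (n/2) s^q ρ^(1-q)`, `q = (n+2)/n`, `1 - q = -2/n > -1`; `∫_0^s ρ^(1-q) = s^(2-q)/(2-q) = s^(2-q) n/(n-2)`
(`integral_rpow`).  Total `s²/2 - (n+2)s²/2 + n² s²/(2(n-2)) = s² ((n-2)(-(n+1)) + n²)/(2(n-2)) = s² (n+2)/(2(n-2))`.
`iu3`: `∫_0^s ρ exp(-ρ²/2) ≤ s²/2`.  `iu4`: `∫_0^s ρ³ exp(-ρ²/2) ≤ s⁴/4`.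
-/

set_option autoImplicit false

open MeasureTheory Set

namespace MB

theorem Iu_rad (f : ℝ → ENNReal) (hf : Measurable f) :
    ∫⁻ z, f (rz z) ∂ga2 =
      ∫⁻ ρ in Ioi (0 : ℝ), ENNReal.ofReal (ρ * Real.exp (-ρ ^ 2 / 2)) * f ρ := by
  rw [pol_int (fun z => f (rz z)) (hf.comp rz_cont.measurable)]
  have h1 : ∀ θ : ℝ, ∫⁻ ρ in Ioi (0 : ℝ),
      ENNReal.ofReal (ρ * Real.exp (-ρ ^ 2 / 2)) * f (rz (pol ρ θ)) =
      ∫⁻ ρ in Ioi (0 : ℝ), ENNReal.ofReal (ρ * Real.exp (-ρ ^ 2 / 2)) * f ρ := by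
    intro θ
    refine setLIntegral_congr_fun measurableSet_Ioi fun ρ hρ => ?_
    have hρ' : (0 : ℝ) ≤ ρ := le_of_lt hρ
    rw [rz_pol hρ' θ]
  have h2 : ang univ = 1 := by
    unfold ang
    rw [Measure.smul_apply, Measure.restrict_apply_univ, Real.volume_Ioo, smul_eq_mul,
      ← ENNReal.ofReal_mul (by positivity)]
    have h3 : (2 * Real.pi)⁻¹ * (Real.pi - -Real.pi) = 1 := by
      have := Real.pi_pos
      field_simp
      ring
    rw [h3, ENNReal.ofReal_one]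
  calc ∫⁻ θ, (∫⁻ ρ in Ioi (0 : ℝ),
      ENNReal.ofReal (ρ * Real.exp (-ρ ^ 2 / 2)) * f (rz (pol ρ θ))) ∂ang
      = ∫⁻ _θ, (∫⁻ ρ in Ioi (0 : ℝ), ENNReal.ofReal (ρ * Real.exp (-ρ ^ 2 / 2)) * f ρ) ∂ang :=
        lintegral_congr h1
    _ = _ := by rw [lintegral_const, h2, mul_one]

theorem Iu_gen {s : ℝ} (hs : 0 < s) (f : ℝ → ℝ) (hf : Measurable f) (h : ℝ → ℝ)
    (hint : IntervalIntegrable h volume 0 s) (h0 : ∀ ρ ∈ Ioo 0 s, 0 ≤ h ρ)
    (hle : ∀ ρ ∈ Ioo 0 s, 0 ≤ f ρ → ρ * f ρ ≤ h ρ) :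
    ∫⁻ z, ENNReal.ofReal (if rz z < s then f (rz z) else 0) ∂ga2 ≤
      ENNReal.ofReal (∫ ρ in (0 : ℝ)..s, h ρ) := by
  have hm : Measurable fun ρ : ℝ => ENNReal.ofReal (if ρ < s then f ρ else 0) :=
    (Measurable.ite measurableSet_Iio hf measurable_const).ennreal_ofReal
  rw [Iu_rad (fun ρ : ℝ => ENNReal.ofReal (if ρ < s then f ρ else 0)) hm,
    intervalIntegral.integral_of_le hs.le, integral_Ioc_eq_integral_Ioo]
  have hi : IntegrableOn h (Ioo 0 s) := by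
    have := (intervalIntegrable_iff_integrableOn_Ioo_of_le hs.le).1 hint
    exact this
  rw [ofReal_integral_eq_lintegral_ofReal hi (ae_restrict_of_forall_mem measurableSet_Ioo h0),
    ← lintegral_indicator measurableSet_Ioi, ← lintegral_indicator measurableSet_Ioo]
  refine lintegral_mono fun ρ => ?_
  by_cases h1 : 0 < ρ
  · rw [indicator_of_mem (show ρ ∈ Ioi (0 : ℝ) from h1)]
    by_cases h2 : ρ < s
    · rw [indicator_of_mem (show ρ ∈ Ioo 0 s from ⟨h1, h2⟩), if_pos h2]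
      by_cases h3 : 0 ≤ f ρ
      · rw [← ENNReal.ofReal_mul (by positivity)]
        refine ENNReal.ofReal_le_ofReal ?_
        refine le_trans ?_ (hle ρ ⟨h1, h2⟩ h3)
        have h4 : Real.exp (-ρ ^ 2 / 2) ≤ 1 := by
          rw [Real.exp_le_one_iff]
          have := sq_nonneg ρ
          linarith
        have h5 : ρ * Real.exp (-ρ ^ 2 / 2) ≤ ρ := by nlinarith
        exact mul_le_mul_of_nonneg_right h5 h3
      · rw [ENNReal.ofReal_of_nonpos (le_of_lt (not_le.1 h3)), mul_zero]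
        exact zero_le
    · rw [if_neg h2, ENNReal.ofReal_zero, mul_zero]
      exact zero_le
  · rw [indicator_of_notMem (show ρ ∉ Ioi (0 : ℝ) from h1)]
    exact zero_le

theorem Iu_int0 : Integrable (fun t : ℝ => Real.exp (-t ^ 2 / 2)) := by
  have h := integrable_exp_neg_mul_sq (b := 1 / 2) (by norm_num)
  refine h.congr (Filter.Eventually.of_forall fun t => ?_)
  simp only
  congr 1
  ring

theorem Iu_G (ρ : ℝ) : mil ρ * Real.exp (-ρ ^ 2 / 2) = ∫ t in Ioi ρ, Real.exp (-t ^ 2 / 2) := by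
  unfold mil
  rw [mul_assoc, mul_comm (∫ t in Ioi ρ, Real.exp (-t ^ 2 / 2)), ← mul_assoc, ← Real.exp_add]
  have h : ρ ^ 2 / 2 + -ρ ^ 2 / 2 = 0 := by ring
  rw [h, Real.exp_zero, one_mul]

theorem Iu_dG (ρ : ℝ) : HasDerivAt (fun ρ : ℝ => mil ρ * Real.exp (-ρ ^ 2 / 2))
    (-Real.exp (-ρ ^ 2 / 2)) ρ := by
  have h1 : (fun ρ : ℝ => mil ρ * Real.exp (-ρ ^ 2 / 2)) = fun ρ : ℝ =>
      (∫ t in Ioi (0 : ℝ), Real.exp (-t ^ 2 / 2)) - ∫ t in (0 : ℝ)..ρ, Real.exp (-t ^ 2 / 2) := by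
    funext x
    rw [Iu_G x]
    have h2 := intervalIntegral.integral_Ioi_sub_Ioi' (a := (0 : ℝ)) (b := x)
      Iu_int0.integrableOn Iu_int0.integrableOn
    linarith
  rw [h1]
  have hc : Continuous (fun t : ℝ => Real.exp (-t ^ 2 / 2)) := by fun_prop
  have h3 := intervalIntegral.integral_hasDerivAt_right (a := (0 : ℝ)) (b := ρ)
    (hc.intervalIntegrable _ _) (hc.stronglyMeasurableAtFilter _ _) hc.continuousAt
  have h4 := h3.const_sub (∫ t in Ioi (0 : ℝ), Real.exp (-t ^ 2 / 2))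
  exact h4

theorem Iu_dg (t : ℝ) : HasDerivAt (fun t : ℝ => Real.exp (-t ^ 2 / 2))
    (-t * Real.exp (-t ^ 2 / 2)) t := by
  have h1 : HasDerivAt (fun t : ℝ => -t ^ 2 / 2) (-t) t := by
    have h2 := ((hasDerivAt_pow 2 t).neg).div_const 2
    have h4 : -((2 : ℕ) * t ^ (2 - 1)) / 2 = -t := by
      norm_num
      ring
    rw [h4] at h2
    exact h2
  have h3 := h1.exp
  have h5 : Real.exp (-t ^ 2 / 2) * -t = -t * Real.exp (-t ^ 2 / 2) := by ring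
  rw [h5] at h3
  exact h3

theorem Iu_lim : Filter.Tendsto (fun t : ℝ => Real.exp (-t ^ 2 / 2)) Filter.atTop (nhds 0) := by
  have h := (tendsto_rpow_abs_mul_exp_neg_mul_sq_cocompact (a := 1 / 2) (by norm_num) 0).mono_left
    atTop_le_cocompact
  refine h.congr fun t => ?_
  rw [Real.rpow_zero, one_mul]
  congr 1
  ring

theorem Iu_A : ∫⁻ ρ in Ioi (0 : ℝ), ENNReal.ofReal ((r0 - mil ρ) * Real.exp (-ρ ^ 2 / 2)) =
    ENNReal.ofReal (Real.pi / 2 - 1) := by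
  have hd : ∀ x ∈ Ici (0 : ℝ), HasDerivAt (fun ρ : ℝ =>
      -(r0 * (mil ρ * Real.exp (-ρ ^ 2 / 2))) - ρ * (mil ρ * Real.exp (-ρ ^ 2 / 2)) +
        Real.exp (-ρ ^ 2 / 2)) ((r0 - mil x) * Real.exp (-x ^ 2 / 2)) x := by
    intro x _
    have h1 := (((Iu_dG x).const_mul r0).neg.sub ((hasDerivAt_id x).mul (Iu_dG x))).add (Iu_dg x)
    refine h1.congr_deriv ?_
    simp only [id]
    ring
  have hpos : ∀ x ∈ Ioi (0 : ℝ), 0 ≤ (r0 - mil x) * Real.exp (-x ^ 2 / 2) := by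
    intro x hx
    have h2 := mil_le x (le_of_lt hx)
    exact mul_nonneg (by linarith) (Real.exp_pos _).le
  have hG0 : Filter.Tendsto (fun ρ : ℝ => mil ρ * Real.exp (-ρ ^ 2 / 2)) Filter.atTop (nhds 0) := by
    have h3 := Iu_lim.const_mul r0
    rw [mul_zero] at h3
    refine squeeze_zero' ?_ ?_ h3
    · filter_upwards with ρ
      exact mul_nonneg (mil_pos ρ).le (Real.exp_pos _).le
    · filter_upwards [Filter.eventually_ge_atTop 0] with ρ hρ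
      exact mul_le_mul_of_nonneg_right (mil_le ρ hρ) (Real.exp_pos _).le
  have hG1 : Filter.Tendsto (fun ρ : ℝ => ρ * (mil ρ * Real.exp (-ρ ^ 2 / 2))) Filter.atTop
      (nhds 0) := by
    refine squeeze_zero' ?_ ?_ Iu_lim
    · filter_upwards [Filter.eventually_ge_atTop 0] with ρ hρ
      exact mul_nonneg hρ (mul_nonneg (mil_pos ρ).le (Real.exp_pos _).le)
    · filter_upwards with ρ
      rw [← mul_assoc]
      have h4 := mil_mul ρ
      have h5 := (Real.exp_pos (-ρ ^ 2 / 2)).le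
      nlinarith
  have hlim : Filter.Tendsto (fun ρ : ℝ =>
      -(r0 * (mil ρ * Real.exp (-ρ ^ 2 / 2))) - ρ * (mil ρ * Real.exp (-ρ ^ 2 / 2)) +
        Real.exp (-ρ ^ 2 / 2)) Filter.atTop (nhds 0) := by
    have h6 := ((hG0.const_mul r0).neg.sub hG1).add Iu_lim
    simpa using h6
  have hi := integrableOn_Ioi_deriv_of_nonneg' hd hpos hlim
  have he := integral_Ioi_of_hasDerivAt_of_nonneg' hd hpos hlim
  rw [← ofReal_integral_eq_lintegral_ofReal hi (ae_restrict_of_forall_mem measurableSet_Ioi hpos),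
    he]
  congr 1
  rw [mil_zero]
  have h7 : r0 * r0 = Real.pi / 2 := by
    unfold r0
    exact Real.mul_self_sqrt (by positivity)
  have h8 : Real.exp (-(0 : ℝ) ^ 2 / 2) = 1 := by norm_num
  rw [h8]
  linear_combination h7

theorem iu1 : ∫⁻ z, ENNReal.ofReal ((r0 - mil (rz z)) / rz z) ∂ga2 ≤
    ENNReal.ofReal (Real.pi / 2 - 1) := by
  have hm : Measurable fun ρ : ℝ => ENNReal.ofReal ((r0 - mil ρ) / ρ) :=
    ((measurable_const.sub mil_meas).div measurable_id).ennreal_ofReal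
  rw [Iu_rad (fun ρ : ℝ => ENNReal.ofReal ((r0 - mil ρ) / ρ)) hm, ← Iu_A]
  refine le_of_eq ?_
  refine setLIntegral_congr_fun measurableSet_Ioi fun ρ hρ => ?_
  have hρ' : (0 : ℝ) < ρ := hρ
  rw [← ENNReal.ofReal_mul (by positivity)]
  congr 1
  field_simp

theorem iu2 (n : ℕ) (hn : 3 ≤ n) {s : ℝ} (hs : 0 < s) :
    ∫⁻ z, ENNReal.ofReal (if rz z < s then 1 - fmu n (s / rz z) else 0) ∂ga2 ≤
      ENNReal.ofReal (s ^ 2 * (n + 2) / (2 * (n - 2))) := by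
  have hn' : (3 : ℝ) ≤ n := by exact_mod_cast hn
  have hm : Measurable fun ρ : ℝ => 1 - fmu n (s / ρ) := by
    unfold fmu
    refine measurable_const.sub ?_
    refine Measurable.div_const ?_ _
    have h1 : Measurable fun ρ : ℝ => s / ρ := measurable_const.div measurable_id
    exact (h1.const_mul _).sub ((h1.pow_const _).const_mul _)
  have hq : (-1 : ℝ) < 1 - ((n : ℝ) + 2) / n := by
    have h2 : ((n : ℝ) + 2) / n = 1 + 2 / n := by field_simp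
    have h3 : 2 / (n : ℝ) < 1 := by
      rw [div_lt_one (by linarith)]
      linarith
    rw [h2]
    linarith
  have hkey : ∀ ρ ∈ Ioo 0 s, ρ * (1 - fmu n (s / ρ)) =
      ρ - (n + 2) * s / 2 + (n : ℝ) / 2 * s ^ (((n : ℝ) + 2) / n) *
        ρ ^ (1 - ((n : ℝ) + 2) / n) := by
    intro ρ hρ
    have hρ0 : 0 < ρ := hρ.1
    unfold fmu
    rw [Real.div_rpow hs.le hρ0.le, Real.rpow_sub hρ0, Real.rpow_one]
    have h4 : ρ ^ (((n : ℝ) + 2) / n) ≠ 0 := (Real.rpow_pos_of_pos hρ0 _).ne'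
    field_simp
    ring
  have hint : IntervalIntegrable (fun ρ : ℝ => ρ - (n + 2) * s / 2 +
      (n : ℝ) / 2 * s ^ (((n : ℝ) + 2) / n) * ρ ^ (1 - ((n : ℝ) + 2) / n)) volume 0 s := by
    refine IntervalIntegrable.add ?_ ?_
    · exact (by fun_prop : Continuous fun ρ : ℝ => ρ - (n + 2) * s / 2).intervalIntegrable _ _
    · exact (intervalIntegral.intervalIntegrable_rpow' hq).const_mul _
  have hgen := Iu_gen hs (fun ρ : ℝ => 1 - fmu n (s / ρ)) hm _ hint (by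
    intro ρ hρ
    rw [← hkey ρ hρ]
    have h5 := fmu_le n (by omega) (s / ρ) (div_nonneg hs.le hρ.1.le)
    exact mul_nonneg hρ.1.le (by linarith)) (by
    intro ρ hρ _
    exact (hkey ρ hρ).le)
  refine hgen.trans (le_of_eq ?_)
  congr 1
  rw [intervalIntegral.integral_add
    ((by fun_prop : Continuous fun ρ : ℝ => ρ - (n + 2) * s / 2).intervalIntegrable _ _)
    ((intervalIntegral.intervalIntegrable_rpow' hq).const_mul _),
    intervalIntegral.integral_sub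
      ((by fun_prop : Continuous fun ρ : ℝ => ρ).intervalIntegrable _ _)
      (continuous_const.intervalIntegrable _ _), intervalIntegral.integral_const,
    intervalIntegral.integral_const_mul, integral_rpow (Or.inl hq), integral_id]
  have h6 : (1 - ((n : ℝ) + 2) / n + 1) = ((n : ℝ) - 2) / n := by
    field_simp
    ring
  have h7 : ((n : ℝ) - 2) / n ≠ 0 := by
    have : (0 : ℝ) < ((n : ℝ) - 2) / n := div_pos (by linarith) (by linarith)
    exact this.ne'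
  rw [h6, Real.zero_rpow h7, sub_zero, sub_zero]
  have h8 : s ^ (((n : ℝ) + 2) / n) * s ^ (((n : ℝ) - 2) / n) = s ^ 2 := by
    rw [← Real.rpow_add hs]
    have h9 : ((n : ℝ) + 2) / n + ((n : ℝ) - 2) / n = 2 := by
      field_simp
      ring
    rw [h9]
    norm_num
  have h10 : (n : ℝ) / 2 * s ^ (((n : ℝ) + 2) / n) * (s ^ (((n : ℝ) - 2) / n) / (((n : ℝ) - 2) / n)) =
      (n : ℝ) / 2 * s ^ 2 / (((n : ℝ) - 2) / n) := by
    rw [← h8]
    ring
  rw [h10]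
  have h11 : (n : ℝ) - 2 ≠ 0 := by
    intro h
    linarith
  rw [smul_eq_mul]
  field_simp
  ring

theorem iu3 {s : ℝ} (hs : 0 < s) :
    ∫⁻ z, ENNReal.ofReal (if rz z < s then 1 else 0) ∂ga2 ≤ ENNReal.ofReal (s ^ 2 / 2) := by
  have h1 := Iu_gen hs (fun _ => 1) measurable_const (fun ρ => ρ)
    (continuous_id.intervalIntegrable _ _) (fun ρ hρ => hρ.1.le)
    (fun ρ hρ _ => by rw [mul_one])
  rw [integral_id] at h1
  have h2 : (s ^ 2 - 0 ^ 2) / 2 = s ^ 2 / 2 := by ring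
  rw [h2] at h1
  exact h1

theorem iu4 {s : ℝ} (hs : 0 < s) :
    ∫⁻ z, ENNReal.ofReal (if rz z < s then rz z ^ 2 else 0) ∂ga2 ≤
      ENNReal.ofReal (s ^ 4 / 4) := by
  have h1 := Iu_gen hs (fun ρ => ρ ^ 2) (by fun_prop) (fun ρ => ρ ^ 3)
    ((continuous_pow 3).intervalIntegrable _ _) (fun ρ hρ => pow_nonneg hρ.1.le 3)
    (fun ρ hρ _ => by
      have : ρ * ρ ^ 2 = ρ ^ 3 := by ring
      rw [this])
  rw [integral_pow] at h1
  have h2 : (s ^ (3 + 1) - 0 ^ (3 + 1)) / (((3 : ℕ) : ℝ) + 1) = s ^ 4 / 4 := by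
    norm_num
  rw [h2] at h1
  exact h1

end MB
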