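import Pool.Agent.H16.MB.Mom

/-!
Row Lpl (MP_c844e7, about 150 lines).  Negative moments of the Gaussian measures.

PROOF.  (0) One dimension: for `t ≥ 0`, `∫⁻ ofReal (exp(-t x²)) ∂ga = ofReal ((1+2t)^(-1/2))` (real power): `gaussianReal 0 1` has the density `(√(2π))⁻¹ exp(-x²/2)` and `∫ exp(-(t+1/2)x²) = √(π/(t+1/2))` (`integral_gaussian`).
(1) For `gad d`: `∫⁻ ofReal (exp(-t ∑ x_i²)) = ofReal ((1+2t)^(-d/2))` (`exp` of the sum is a product; lintegral of a product of functions of the coordinates against `Measure.pi`: `lintegral_fin_nat_prod_eq_prod`, or induction).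
(2) For `gaT n`: `‖T n p‖² = p.1.1² + p.1.2² + ∑ p.2 j²` (`norm_T`): `∫⁻ ofReal (exp(-t ‖T n p‖²)) = ofReal ((1+2t)^(-(n+3)/2))` (`lintegral_prod_mul`).
(3) For `a > 0`: `1/a = ∫_0^∞ exp(-t a) dt`, `1/a² = ∫_0^∞ t exp(-t a) dt`, so `ofReal (1/a) = ∫⁻ t in Ioi 0, ofReal (exp(-t a))` and similarly for `1/a²` (for `a = 0` the left side is `ofReal (1/0) = 0`, so `≤` holds always).  Tonelli:
`∫⁻ ofReal (1/‖T‖²) ≤ ∫⁻ t in Ioi 0, ofReal ((1+2t)^(-(n+3)/2)) = ofReal (1/(n+1))`: antiderivative `-(1+2t)^(-(n+1)/2)/(n+1)` (`integral_Ioi_of_hasDerivAt_of_nonneg'` or `…_of_tendsto`).  `∫⁻ ofReal (1/‖T‖⁴) ≤ ∫⁻ t in Ioi 0, ofReal (t (1+2t)^(-(n+3)/2))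
= ofReal (1/((n+1)(n-1)))` for `n ≥ 2`: `t (1+2t)^(-(n+3)/2) = (1/2)((1+2t)^(-(n+1)/2) - (1+2t)^(-(n+3)/2))`, integral `(1/2)(1/(n-1) - 1/(n+1))`.  `∫⁻ ofReal (1/∑ W²) ∂(gad (n+1)) ≤ ∫⁻ t in Ioi 0, ofReal ((1+2t)^(-(n+1)/2)) = ofReal (1/(n-1))`.
-/

set_option autoImplicit false

open MeasureTheory Set

namespace MB

/-- the factor `(1 + 2 t)^(-1/2)` -/
private noncomputable def Lpl_A (t : ℝ) : ℝ := (Real.sqrt (1 + 2 * t))⁻¹

private lemma Lpl_A_nonneg (t : ℝ) : 0 ≤ Lpl_A t := inv_nonneg.2 (Real.sqrt_nonneg _)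

private lemma Lpl_A_sq {t : ℝ} (ht : 0 ≤ t) : (1 + 2 * t) * Lpl_A t ^ 2 = 1 := by
  unfold Lpl_A
  rw [inv_pow, Real.sq_sqrt (by linarith)]
  exact mul_inv_cancel₀ (by linarith)

private lemma Lpl_A_deriv {t : ℝ} (ht : 0 ≤ t) : HasDerivAt Lpl_A (-(Lpl_A t ^ 3)) t := by
  have h1 : HasDerivAt (fun t : ℝ => 1 + 2 * t) 2 t := by
    simpa using ((hasDerivAt_id t).const_mul 2).const_add 1
  have hpos : 0 < 1 + 2 * t := by linarith
  have h2 := h1.sqrt hpos.ne'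
  have h3 : HasDerivAt Lpl_A
      (-(2 / (2 * Real.sqrt (1 + 2 * t))) / Real.sqrt (1 + 2 * t) ^ 2) t :=
    h2.inv (Real.sqrt_pos.2 hpos).ne'
  refine h3.congr_deriv ?_
  unfold Lpl_A
  have h4 := (Real.sqrt_pos.2 hpos).ne'
  field_simp

private lemma Lpl_A_tendsto : Filter.Tendsto Lpl_A Filter.atTop (nhds 0) := by
  unfold Lpl_A
  refine Filter.Tendsto.inv_tendsto_atTop ?_
  refine Real.tendsto_sqrt_atTop.comp ?_
  refine Filter.tendsto_atTop_add_const_left _ _ ?_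
  exact Filter.tendsto_id.const_mul_atTop (by norm_num : (0 : ℝ) < 2)

private lemma Lpl_F (m : ℕ) {t : ℝ} (ht : 0 ≤ t) :
    HasDerivAt (fun t : ℝ => -(Lpl_A t ^ (m + 1) / (m + 1))) (Lpl_A t ^ (m + 3)) t := by
  have h1 : HasDerivAt (fun t : ℝ => -(Lpl_A t ^ (m + 1) / (m + 1)))
      (-(((m + 1 : ℕ) : ℝ) * Lpl_A t ^ (m + 1 - 1) * (-(Lpl_A t ^ 3)) / ((m : ℝ) + 1))) t :=
    (((Lpl_A_deriv ht).pow (m + 1)).div_const ((m : ℝ) + 1)).neg
  refine h1.congr_deriv ?_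
  have h2 : ((m : ℝ) + 1) ≠ 0 := by positivity
  rw [Nat.add_sub_cancel]
  push_cast
  field_simp
  ring

private lemma Lpl_Ft (m : ℕ) :
    Filter.Tendsto (fun t : ℝ => -(Lpl_A t ^ (m + 1) / (m + 1))) Filter.atTop (nhds 0) := by
  have h1 := ((Lpl_A_tendsto.pow (m + 1)).div_const ((m : ℝ) + 1)).neg
  simpa using h1

private lemma Lpl_int (m : ℕ) : IntegrableOn (fun t => Lpl_A t ^ (m + 3)) (Ioi 0) :=
  integrableOn_Ioi_deriv_of_nonneg' (fun _ ht => Lpl_F m ht)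
    (fun t _ => pow_nonneg (Lpl_A_nonneg t) _) (Lpl_Ft m)

private lemma Lpl_val (m : ℕ) : ∫ t in Ioi (0 : ℝ), Lpl_A t ^ (m + 3) = 1 / (m + 1) := by
  rw [integral_Ioi_of_hasDerivAt_of_nonneg' (fun _ ht => Lpl_F m ht)
    (fun t _ => pow_nonneg (Lpl_A_nonneg t) _) (Lpl_Ft m)]
  have h1 : Lpl_A 0 = 1 := by
    unfold Lpl_A
    simp
  rw [h1]
  simp

private lemma Lpl_one {t : ℝ} (ht : 0 ≤ t) : ∫ x, Real.exp (-t * x ^ 2) ∂ga = Lpl_A t := by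
  rw [ProbabilityTheory.integral_gaussianReal_eq_integral_smul one_ne_zero]
  have h1 : ∀ x : ℝ, ProbabilityTheory.gaussianPDFReal 0 1 x • Real.exp (-t * x ^ 2) =
      (Real.sqrt (2 * Real.pi))⁻¹ * Real.exp (-(t + 1 / 2) * x ^ 2) := by
    intro x
    rw [ProbabilityTheory.gaussianPDFReal_def, smul_eq_mul]
    simp only [NNReal.coe_one, mul_one, sub_zero]
    rw [mul_assoc, ← Real.exp_add]
    congr 2
    ring
  simp_rw [h1]
  rw [integral_const_mul, integral_gaussian]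
  unfold Lpl_A
  have hpi := Real.pi_pos
  have h2 : Real.pi / (t + 1 / 2) = (2 * Real.pi) * (1 + 2 * t)⁻¹ := by
    have : (1 + 2 * t) ≠ 0 := by linarith
    have h3 : t + 1 / 2 ≠ 0 := by linarith
    field_simp
    ring
  have h4 : 0 < 2 * Real.pi := by positivity
  rw [h2, Real.sqrt_mul h4.le ((1 + 2 * t)⁻¹), Real.sqrt_inv, ← mul_assoc,
    inv_mul_cancel₀ (Real.sqrt_pos.2 h4).ne', one_mul]

private lemma Lpl_gad (d : ℕ) {t : ℝ} (ht : 0 ≤ t) :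
    ∫ x, Real.exp (-t * ∑ j, x j ^ 2) ∂(gad d) = Lpl_A t ^ d := by
  have h1 : ∀ x : Fin d → ℝ, Real.exp (-t * ∑ j, x j ^ 2) =
      ∏ j, Real.exp (-t * x j ^ 2) := by
    intro x
    rw [Finset.mul_sum, Real.exp_sum]
  simp_rw [h1]
  have h2 := integral_fintype_prod_eq_pow (ι := Fin d) (𝕜 := ℝ)
    (fun x : ℝ => Real.exp (-t * x ^ 2)) (μ := ga)
  rw [h2, Lpl_one ht, Fintype.card_fin]

private lemma Lpl_gaT (n : ℕ) {t : ℝ} (ht : 0 ≤ t) :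
    ∫ p, Real.exp (-t * (p.1.1 ^ 2 + p.1.2 ^ 2 + ∑ j, p.2 j ^ 2)) ∂(gaT n) =
      Lpl_A t ^ (n + 3) := by
  have h1 : ∀ p : (ℝ × ℝ) × (Fin (n + 1) → ℝ),
      Real.exp (-t * (p.1.1 ^ 2 + p.1.2 ^ 2 + ∑ j, p.2 j ^ 2)) =
      (Real.exp (-t * p.1.1 ^ 2) * Real.exp (-t * p.1.2 ^ 2)) *
        Real.exp (-t * ∑ j, p.2 j ^ 2) := by
    intro p
    rw [← Real.exp_add, ← Real.exp_add]
    congr 1
    ring
  simp_rw [h1]
  rw [integral_prod_mul (μ := ga2) (ν := gad (n + 1))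
      (fun x : ℝ × ℝ => Real.exp (-t * x.1 ^ 2) * Real.exp (-t * x.2 ^ 2))
      (fun y : Fin (n + 1) → ℝ => Real.exp (-t * ∑ j, y j ^ 2)),
    integral_prod_mul (μ := ga) (ν := ga) (fun x : ℝ => Real.exp (-t * x ^ 2))
      (fun x : ℝ => Real.exp (-t * x ^ 2)), Lpl_one ht, Lpl_gad (n + 1) ht]
  ring

private lemma Lpl_exp_le {t a : ℝ} (ht : 0 ≤ t) (ha : 0 ≤ a) : Real.exp (-t * a) ≤ 1 := by
  rw [Real.exp_le_one_iff]
  nlinarith

private lemma Lpl_lint {Ω : Type*} [MeasurableSpace Ω] (μ : Measure Ω) [IsFiniteMeasure μ]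
    (f : Ω → ℝ) (hf : Measurable f) (h0 : ∀ x, 0 ≤ f x) {t : ℝ} (ht : 0 ≤ t) :
    ∫⁻ x, ENNReal.ofReal (Real.exp (-t * f x)) ∂μ =
      ENNReal.ofReal (∫ x, Real.exp (-t * f x) ∂μ) := by
  rw [ofReal_integral_eq_lintegral_ofReal]
  · refine Integrable.of_bound (by fun_prop) 1 (Filter.Eventually.of_forall fun x => ?_)
    rw [Real.norm_of_nonneg (Real.exp_pos _).le]
    exact Lpl_exp_le ht (h0 x)
  · exact Filter.Eventually.of_forall fun x => (Real.exp_pos _).le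

private lemma Lpl_inv {a : ℝ} (ha : 0 ≤ a) :
    ENNReal.ofReal (1 / a) ≤ ∫⁻ t in Ioi (0 : ℝ), ENNReal.ofReal (Real.exp (-t * a)) := by
  rcases ha.eq_or_lt with h | h
  · rw [← h]
    simp
  · have h1 := Real.integral_rpow_mul_exp_neg_mul_Ioi (a := 1) one_pos h
    have h2 : ∫ t in Ioi (0 : ℝ), Real.exp (-t * a) = 1 / a := by
      rw [Real.Gamma_one, mul_one, Real.rpow_one] at h1
      rw [← h1]
      refine setIntegral_congr_fun measurableSet_Ioi fun t _ => ?_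
      simp only [sub_self, Real.rpow_zero, one_mul]
      congr 1
      ring
    rw [← h2, ofReal_integral_eq_lintegral_ofReal]
    · by_contra hc
      have h3 := integral_undef hc
      rw [h2] at h3
      exact absurd h3 (by positivity)
    · exact Filter.Eventually.of_forall fun x => (Real.exp_pos _).le

private lemma Lpl_inv2 {a : ℝ} (ha : 0 ≤ a) :
    ENNReal.ofReal (1 / a ^ 2) ≤
      ∫⁻ t in Ioi (0 : ℝ), ENNReal.ofReal (t * Real.exp (-t * a)) := by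
  rcases ha.eq_or_lt with h | h
  · rw [← h]
    simp
  · have h1 := Real.integral_rpow_mul_exp_neg_mul_Ioi (a := 2) two_pos h
    have h2 : ∫ t in Ioi (0 : ℝ), t * Real.exp (-t * a) = 1 / a ^ 2 := by
      rw [Real.Gamma_two, mul_one, Real.rpow_two, div_pow, one_pow] at h1
      rw [← h1]
      refine setIntegral_congr_fun measurableSet_Ioi fun t _ => ?_
      have h4 : (2 : ℝ) - 1 = 1 := by norm_num
      simp only [h4, Real.rpow_one]
      congr 2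
      ring
    rw [← h2, ofReal_integral_eq_lintegral_ofReal]
    · by_contra hc
      have h3 := integral_undef hc
      rw [h2] at h3
      exact absurd h3 (by positivity)
    · refine (ae_restrict_iff' measurableSet_Ioi).2 (Filter.Eventually.of_forall fun x hx => ?_)
      exact mul_nonneg (le_of_lt hx) (Real.exp_pos _).le

private lemma Lpl_main {Ω : Type*} [MeasurableSpace Ω] (μ : Measure Ω) [IsFiniteMeasure μ]
    (f : Ω → ℝ) (hf : Measurable f) (h0 : ∀ x, 0 ≤ f x) (d : ℕ)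
    (hd : ∀ t : ℝ, 0 ≤ t → ∫ x, Real.exp (-t * f x) ∂μ = Lpl_A t ^ d) :
    ∫⁻ x, ENNReal.ofReal (1 / f x) ∂μ ≤ ∫⁻ t in Ioi (0 : ℝ), ENNReal.ofReal (Lpl_A t ^ d) := by
  calc ∫⁻ x, ENNReal.ofReal (1 / f x) ∂μ
      ≤ ∫⁻ x, (∫⁻ t in Ioi (0 : ℝ), ENNReal.ofReal (Real.exp (-t * f x))) ∂μ :=
        lintegral_mono fun x => Lpl_inv (h0 x)
    _ = ∫⁻ t in Ioi (0 : ℝ), ∫⁻ x, ENNReal.ofReal (Real.exp (-t * f x)) ∂μ := by
        refine lintegral_lintegral_swap (Measurable.aemeasurable ?_)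
        unfold Function.uncurry
        fun_prop
    _ = _ := by
        refine setLIntegral_congr_fun measurableSet_Ioi fun t ht => ?_
        rw [Lpl_lint μ f hf h0 (le_of_lt ht), hd t (le_of_lt ht)]

private lemma Lpl_main2 {Ω : Type*} [MeasurableSpace Ω] (μ : Measure Ω) [IsFiniteMeasure μ]
    (f : Ω → ℝ) (hf : Measurable f) (h0 : ∀ x, 0 ≤ f x) (d : ℕ)
    (hd : ∀ t : ℝ, 0 ≤ t → ∫ x, Real.exp (-t * f x) ∂μ = Lpl_A t ^ d) :
    ∫⁻ x, ENNReal.ofReal (1 / f x ^ 2) ∂μ ≤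
      ∫⁻ t in Ioi (0 : ℝ), ENNReal.ofReal (t * Lpl_A t ^ d) := by
  calc ∫⁻ x, ENNReal.ofReal (1 / f x ^ 2) ∂μ
      ≤ ∫⁻ x, (∫⁻ t in Ioi (0 : ℝ), ENNReal.ofReal (t * Real.exp (-t * f x))) ∂μ :=
        lintegral_mono fun x => Lpl_inv2 (h0 x)
    _ = ∫⁻ t in Ioi (0 : ℝ), ∫⁻ x, ENNReal.ofReal (t * Real.exp (-t * f x)) ∂μ := by
        refine lintegral_lintegral_swap (Measurable.aemeasurable ?_)
        unfold Function.uncurry
        fun_prop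
    _ = _ := by
        refine setLIntegral_congr_fun measurableSet_Ioi fun t ht => ?_
        have h1 : ∀ x, ENNReal.ofReal (t * Real.exp (-t * f x)) =
            ENNReal.ofReal t * ENNReal.ofReal (Real.exp (-t * f x)) := fun x =>
          ENNReal.ofReal_mul (le_of_lt ht)
        simp_rw [h1]
        rw [lintegral_const_mul _ (by fun_prop), Lpl_lint μ f hf h0 (le_of_lt ht),
          hd t (le_of_lt ht), ENNReal.ofReal_mul (le_of_lt ht)]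

private lemma Lpl_tail (m : ℕ) :
    ∫⁻ t in Ioi (0 : ℝ), ENNReal.ofReal (Lpl_A t ^ (m + 3)) = ENNReal.ofReal (1 / (m + 1)) := by
  rw [← Lpl_val m, ofReal_integral_eq_lintegral_ofReal (Lpl_int m)
    (Filter.Eventually.of_forall fun t => pow_nonneg (Lpl_A_nonneg t) _)]

theorem lpl1 (n : ℕ) :
    ∫⁻ p, ENNReal.ofReal (1 / ‖T n p‖ ^ 2) ∂(gaT n) ≤ ENNReal.ofReal (1 / (n + 1)) := by
  simp_rw [norm_T]
  refine (Lpl_main (gaT n) (fun p => p.1.1 ^ 2 + p.1.2 ^ 2 + ∑ j, p.2 j ^ 2) (by fun_prop)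
    (fun p => ?_) (n + 3) (fun t ht => Lpl_gaT n ht)).trans ?_
  · exact add_nonneg (add_nonneg (sq_nonneg _) (sq_nonneg _))
      (Finset.sum_nonneg fun j _ => sq_nonneg _)
  · rw [Lpl_tail n]

theorem lpl2 (n : ℕ) (hn : 2 ≤ n) :
    ∫⁻ p, ENNReal.ofReal (1 / ‖T n p‖ ^ 4) ∂(gaT n) ≤ ENNReal.ofReal (1 / ((n + 1) * (n - 1))) := by
  have h4 : ∀ p, ‖T n p‖ ^ 4 = (p.1.1 ^ 2 + p.1.2 ^ 2 + ∑ j, p.2 j ^ 2) ^ 2 := by
    intro p
    rw [← norm_T]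
    ring
  simp_rw [h4]
  refine (Lpl_main2 (gaT n) (fun p => p.1.1 ^ 2 + p.1.2 ^ 2 + ∑ j, p.2 j ^ 2) (by fun_prop)
    (fun p => ?_) (n + 3) (fun t ht => Lpl_gaT n ht)).trans ?_
  · exact add_nonneg (add_nonneg (sq_nonneg _) (sq_nonneg _))
      (Finset.sum_nonneg fun j _ => sq_nonneg _)
  · obtain ⟨m, rfl⟩ : ∃ m, n = m + 2 := ⟨n - 2, by omega⟩
    have h1 : ∀ t ∈ Ioi (0 : ℝ), t * Lpl_A t ^ (m + 2 + 3) =
        (Lpl_A t ^ (m + 3) - Lpl_A t ^ (m + 2 + 3)) / 2 := by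
      intro t ht
      have h2 := Lpl_A_sq (le_of_lt ht)
      have h3 : Lpl_A t ^ (m + 3) = (1 + 2 * t) * Lpl_A t ^ (m + 2 + 3) := by
        calc Lpl_A t ^ (m + 3) = Lpl_A t ^ (m + 3) * ((1 + 2 * t) * Lpl_A t ^ 2) := by
              rw [h2, mul_one]
          _ = _ := by ring
      rw [h3]
      ring
    have hi1 : IntegrableOn (fun t => Lpl_A t ^ (m + 2 + 3)) (Ioi 0) := Lpl_int (m + 2)
    have hi : IntegrableOn (fun t => (Lpl_A t ^ (m + 3) - Lpl_A t ^ (m + 2 + 3)) / 2) (Ioi 0) :=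
      ((Lpl_int m).sub hi1).div_const 2
    have h2 : ∫ t in Ioi (0 : ℝ), (Lpl_A t ^ (m + 3) - Lpl_A t ^ (m + 2 + 3)) / 2 =
        1 / (((m + 2 : ℕ) : ℝ) + 1) / (((m + 2 : ℕ) : ℝ) - 1) := by
      rw [integral_div, integral_sub (Lpl_int m) hi1, Lpl_val m, Lpl_val (m + 2)]
      push_cast
      have h5 : (m : ℝ) + 1 ≠ 0 := by positivity
      have h6 : (m : ℝ) + 2 + 1 ≠ 0 := by positivity
      have h7 : (m : ℝ) + 2 - 1 ≠ 0 := by
        have : (m : ℝ) + 2 - 1 = m + 1 := by ring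
        rw [this]
        exact h5
      field_simp
      ring
    rw [setLIntegral_congr_fun measurableSet_Ioi (fun t ht => by rw [h1 t ht]),
      ← ofReal_integral_eq_lintegral_ofReal hi, h2, div_div]
    refine (ae_restrict_iff' measurableSet_Ioi).2 (Filter.Eventually.of_forall fun t ht => ?_)
    change 0 ≤ (Lpl_A t ^ (m + 3) - Lpl_A t ^ (m + 2 + 3)) / 2
    rw [← h1 t ht]
    exact mul_nonneg (le_of_lt ht) (pow_nonneg (Lpl_A_nonneg t) _)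

theorem lpl3 (n : ℕ) (hn : 2 ≤ n) :
    ∫⁻ W, ENNReal.ofReal (1 / ∑ j, W j ^ 2) ∂(gad (n + 1)) ≤ ENNReal.ofReal (1 / (n - 1)) := by
  refine (Lpl_main (gad (n + 1)) (fun W => ∑ j, W j ^ 2) (by fun_prop)
    (fun W => Finset.sum_nonneg fun j _ => sq_nonneg _) (n + 1)
    (fun t ht => Lpl_gad (n + 1) ht)).trans ?_
  obtain ⟨m, rfl⟩ : ∃ m, n = m + 2 := ⟨n - 2, by omega⟩
  have h1 : m + 2 + 1 = m + 3 := rfl
  rw [h1, Lpl_tail m]
  refine ENNReal.ofReal_le_ofReal (le_of_eq ?_)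
  push_cast
  congr 1
  ring

end MB
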