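import Pool.Agent.H16.MC.Mbd
import Pool.Agent.H16.MC.Iu
import Pool.Agent.H16.MC.Lpl

/-!
Row Ef (MP_c844e7, about 150 lines).  Lower bound of the integral of `fmu n (mC/(n+1))`.

PROOF.  `s = r0/(n+1)`, `s² = (π/2)/(n+1)²`.  `1 - fmu ≥ 0` (`fmu_le`, `mC_nonneg`); it is enough to bound `∫⁻ ofReal (1 - fmu n (mC/(n+1)))` by `ofReal` of the right side `B` (then `1 - ∫ fmu = ∫ (1 - fmu) ≤ B`; `gaT n` is a probability measure;
`integral_sub`, `integral_eq_lintegral_of_nonneg_ae`).  Almost everywhere `rz p.1 > 0` and `∑ p.2 j² > 0` (`ga2 {0} = 0`, `gad (n+1) {0} = 0`, no atoms).  By `fm_I`, `fm_II`, a.e.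
`ofReal (1 - fmu) ≤ ofReal ((1/(n+1)²) ((r0 - mil ρ)/ρ)) + ofReal ((2/(n+1)²)(1/‖T‖²)) + ofReal ((1/(n+1)²)(1/‖T‖⁴)) + ofReal (if ρ < s then 1 - fmu n (s/ρ) else 0) + ofReal ((if ρ < s then ρ² else 0) (1/∑ p.2 j²)) +
ofReal ((if ρ < s then 1 else 0) (s²/2 + 1/(n+1)))`, `ρ = rz p.1` (all terms are nonnegative for `ρ > 0`: `mil_le`, `fmu_le`).  Integrate: `lintegral_add_left`, `lintegral_const_mul`, `lintegral_prod_mul` for the products of a function of `p.1` and a function of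
`p.2`, and functions of `p.1` only; `iu1 … iu4`, `lpl1 … lpl3`.  Sum:
`B = ((π/2 - 1) + 2/(n+1) + 1/((n+1)(n-1)))/(n+1)² + s² (n+2)/(2(n-2)) + (s⁴/4)/(n-1) + (s²/2)(s²/2 + 1/(n+1))`.
-/

set_option autoImplicit false

open MeasureTheory Set

namespace MB

private theorem Ef_ga : ∀ᵐ x ∂ga, x ≠ 0 := by
  have : NullSingletonClass ga := ProbabilityTheory.nullSingletonClass_gaussianReal one_ne_zero
  exact compl_mem_ae_iff.2 (measure_singleton 0)

private theorem Ef_ae (n : ℕ) : ∀ᵐ p ∂(gaT n), 0 < rz p.1 ∧ 0 < ∑ j, p.2 j ^ 2 := by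
  have hfst : MeasurePreserving (Prod.fst : (ℝ × ℝ) × (Fin (n + 1) → ℝ) → ℝ × ℝ) (gaT n) ga2 :=
    measurePreserving_fst
  have hsnd : MeasurePreserving (Prod.snd : (ℝ × ℝ) × (Fin (n + 1) → ℝ) → _) (gaT n)
    (gad (n + 1)) := measurePreserving_snd
  have hf1 : MeasurePreserving (Prod.fst : ℝ × ℝ → ℝ) ga2 ga := measurePreserving_fst
  have he : MeasurePreserving (fun W : Fin (n + 1) → ℝ => W 0) (gad (n + 1)) ga :=
    measurePreserving_eval (fun _ : Fin (n + 1) => ga) 0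
  have h1 : ∀ᵐ p ∂(gaT n), p.1.1 ≠ 0 :=
    (hf1.comp hfst).quasiMeasurePreserving.ae Ef_ga
  have h2 : ∀ᵐ p ∂(gaT n), p.2 0 ≠ 0 :=
    (he.comp hsnd).quasiMeasurePreserving.ae Ef_ga
  filter_upwards [h1, h2] with p hp1 hp2
  constructor
  · unfold rz
    refine Real.sqrt_pos.2 ?_
    have := pow_pos (abs_pos.2 hp1) 2
    rw [sq_abs] at this
    nlinarith [sq_nonneg p.1.2]
  · refine Finset.sum_pos' (fun j _ => sq_nonneg _) ⟨0, Finset.mem_univ _, ?_⟩
    have := pow_pos (abs_pos.2 hp2) 2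
    rwa [sq_abs] at this

private theorem Ef_fst (n : ℕ) (f : ℝ × ℝ → ENNReal) (hf : Measurable f) :
    ∫⁻ p, f p.1 ∂(gaT n) = ∫⁻ z, f z ∂ga2 := by
  have hfst : MeasurePreserving (Prod.fst : (ℝ × ℝ) × (Fin (n + 1) → ℝ) → ℝ × ℝ) (gaT n) ga2 :=
    measurePreserving_fst
  exact hfst.lintegral_comp hf

private theorem Ef_fmu_meas (n : ℕ) : Measurable (fmu n) := by
  unfold fmu
  fun_prop

private theorem Ef_rz : Measurable rz := rz_cont.measurable

private theorem Ef_pt (n : ℕ) (hn : 3 ≤ n) (p : (ℝ × ℝ) × (Fin (n + 1) → ℝ)) (h0 : 0 < rz p.1)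
    (hW : 0 < ∑ j, p.2 j ^ 2) :
    1 - fmu n (mC n (r0 / (n + 1)) p / (n + 1)) ≤
      1 / ((n : ℝ) + 1) ^ 2 * ((r0 - mil (rz p.1)) / rz p.1) +
      2 / ((n : ℝ) + 1) ^ 2 * (1 / ‖T n p‖ ^ 2) +
      1 / ((n : ℝ) + 1) ^ 2 * (1 / ‖T n p‖ ^ 4) +
      (if rz p.1 < r0 / (n + 1) then 1 - fmu n (r0 / (n + 1) / rz p.1) else 0) +
      (if rz p.1 < r0 / (n + 1) then rz p.1 ^ 2 else 0) * (1 / ∑ j, p.2 j ^ 2) +
      (if rz p.1 < r0 / (n + 1) then 1 else 0) * ((r0 / (n + 1)) ^ 2 / 2 + 1 / (n + 1)) := by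
  by_cases h : rz p.1 < r0 / (n + 1)
  · rw [if_pos h, if_pos h, if_pos h]
    have h1 := fm_II n (by omega) p h0 h hW
    have h2 : 0 ≤ 1 / ((n : ℝ) + 1) ^ 2 * ((r0 - mil (rz p.1)) / rz p.1) :=
      mul_nonneg (by positivity) (div_nonneg (sub_nonneg.2 (mil_le _ h0.le)) h0.le)
    have h3 : 0 ≤ 2 / ((n : ℝ) + 1) ^ 2 * (1 / ‖T n p‖ ^ 2) := by positivity
    have h4 : 0 ≤ 1 / ((n : ℝ) + 1) ^ 2 * (1 / ‖T n p‖ ^ 4) := by positivity
    linarith
  · rw [if_neg h, if_neg h, if_neg h]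
    have h1 := fm_I n (by omega) p (not_lt.1 h)
    refine h1.trans (le_of_eq ?_)
    ring

private theorem Ef_add6 (a b c d e f : ℝ) : ENNReal.ofReal (a + b + c + d + e + f) ≤
    ENNReal.ofReal a + ENNReal.ofReal b + ENNReal.ofReal c + ENNReal.ofReal d +
      ENNReal.ofReal e + ENNReal.ofReal f := by
  refine ENNReal.ofReal_add_le.trans (add_le_add_left ?_ _)
  refine ENNReal.ofReal_add_le.trans (add_le_add_left ?_ _)
  refine ENNReal.ofReal_add_le.trans (add_le_add_left ?_ _)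
  refine ENNReal.ofReal_add_le.trans (add_le_add_left ?_ _)
  exact ENNReal.ofReal_add_le

private theorem Ef_six {α : Type*} [MeasurableSpace α] (μ : Measure α)
    {a b c d e f : α → ENNReal} (ha : Measurable a) (hb : Measurable b) (hc : Measurable c)
    (hd : Measurable d) (he : Measurable e) :
    ∫⁻ p, (a p + b p + c p + d p + e p + f p) ∂μ =
      ∫⁻ p, a p ∂μ + ∫⁻ p, b p ∂μ + ∫⁻ p, c p ∂μ + ∫⁻ p, d p ∂μ + ∫⁻ p, e p ∂μ +
        ∫⁻ p, f p ∂μ := by
  rw [lintegral_add_left (f := fun p => a p + b p + c p + d p + e p) (by fun_prop),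
    lintegral_add_left (f := fun p => a p + b p + c p + d p) (by fun_prop),
    lintegral_add_left (f := fun p => a p + b p + c p) (by fun_prop),
    lintegral_add_left (f := fun p => a p + b p) (by fun_prop),
    lintegral_add_left (f := fun p => a p) (by fun_prop)]

private theorem Ef_lint (n : ℕ) (hn : 3 ≤ n) :
    ∫⁻ p, ENNReal.ofReal (1 - fmu n (mC n (r0 / (n + 1)) p / (n + 1))) ∂(gaT n) ≤
      ENNReal.ofReal (1 / ((n : ℝ) + 1) ^ 2) * ENNReal.ofReal (Real.pi / 2 - 1) +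
      ENNReal.ofReal (2 / ((n : ℝ) + 1) ^ 2) * ENNReal.ofReal (1 / (n + 1)) +
      ENNReal.ofReal (1 / ((n : ℝ) + 1) ^ 2) * ENNReal.ofReal (1 / ((n + 1) * (n - 1))) +
      ENNReal.ofReal ((r0 / (n + 1)) ^ 2 * (n + 2) / (2 * (n - 2))) +
      ENNReal.ofReal ((r0 / (n + 1)) ^ 4 / 4) * ENNReal.ofReal (1 / (n - 1)) +
      ENNReal.ofReal ((r0 / (n + 1)) ^ 2 / 2) *
        ENNReal.ofReal ((r0 / (n + 1)) ^ 2 / 2 + 1 / (n + 1)) := by
  have hs : 0 < r0 / ((n : ℝ) + 1) := div_pos r0_pos (by positivity)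
  have hrz := Ef_rz
  have hT : Measurable fun p : (ℝ × ℝ) × (Fin (n + 1) → ℝ) => ‖T n p‖ :=
    (cont_T n).norm.measurable
  have hset : MeasurableSet {z : ℝ × ℝ | rz z < r0 / ((n : ℝ) + 1)} :=
    measurableSet_lt hrz measurable_const
  have mA : Measurable fun z : ℝ × ℝ => ENNReal.ofReal ((r0 - mil (rz z)) / rz z) :=
    ((measurable_const.sub (mil_meas.comp hrz)).div hrz).ennreal_ofReal
  have mB : Measurable fun p : (ℝ × ℝ) × (Fin (n + 1) → ℝ) =>
      ENNReal.ofReal (1 / ‖T n p‖ ^ 2) :=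
    (measurable_const.div (hT.pow_const 2)).ennreal_ofReal
  have mC' : Measurable fun p : (ℝ × ℝ) × (Fin (n + 1) → ℝ) =>
      ENNReal.ofReal (1 / ‖T n p‖ ^ 4) :=
    (measurable_const.div (hT.pow_const 4)).ennreal_ofReal
  have mD : Measurable fun z : ℝ × ℝ => ENNReal.ofReal
      (if rz z < r0 / ((n : ℝ) + 1) then 1 - fmu n (r0 / (n + 1) / rz z) else 0) := by
    refine Measurable.ennreal_ofReal (Measurable.ite hset ?_ measurable_const)
    exact measurable_const.sub ((Ef_fmu_meas n).comp (measurable_const.div hrz))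
  have mE : Measurable fun z : ℝ × ℝ => ENNReal.ofReal
      (if rz z < r0 / ((n : ℝ) + 1) then rz z ^ 2 else 0) :=
    Measurable.ennreal_ofReal (Measurable.ite hset (hrz.pow_const 2) measurable_const)
  have mE2 : Measurable fun W : Fin (n + 1) → ℝ => ENNReal.ofReal (1 / ∑ j, W j ^ 2) := by
    refine Measurable.ennreal_ofReal (measurable_const.div ?_)
    fun_prop
  have mF : Measurable fun z : ℝ × ℝ => ENNReal.ofReal
      (if rz z < r0 / ((n : ℝ) + 1) then 1 else 0) :=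
    Measurable.ennreal_ofReal (Measurable.ite hset measurable_const measurable_const)
  have key : ∀ᵐ p ∂(gaT n),
      ENNReal.ofReal (1 - fmu n (mC n (r0 / (n + 1)) p / (n + 1))) ≤
      ENNReal.ofReal (1 / ((n : ℝ) + 1) ^ 2) *
        ENNReal.ofReal ((r0 - mil (rz p.1)) / rz p.1) +
      ENNReal.ofReal (2 / ((n : ℝ) + 1) ^ 2) * ENNReal.ofReal (1 / ‖T n p‖ ^ 2) +
      ENNReal.ofReal (1 / ((n : ℝ) + 1) ^ 2) * ENNReal.ofReal (1 / ‖T n p‖ ^ 4) +
      ENNReal.ofReal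
        (if rz p.1 < r0 / ((n : ℝ) + 1) then 1 - fmu n (r0 / (n + 1) / rz p.1) else 0) +
      ENNReal.ofReal (if rz p.1 < r0 / ((n : ℝ) + 1) then rz p.1 ^ 2 else 0) *
        ENNReal.ofReal (1 / ∑ j, p.2 j ^ 2) +
      ENNReal.ofReal (if rz p.1 < r0 / ((n : ℝ) + 1) then 1 else 0) *
        ENNReal.ofReal ((r0 / (n + 1)) ^ 2 / 2 + 1 / (n + 1)) := by
    filter_upwards [Ef_ae n] with p hp
    refine (ENNReal.ofReal_le_ofReal (Ef_pt n hn p hp.1 hp.2)).trans ((Ef_add6 _ _ _ _ _ _).trans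
      (le_of_eq ?_))
    rw [ENNReal.ofReal_mul (by positivity), ENNReal.ofReal_mul (by positivity),
      ENNReal.ofReal_mul (by positivity), ENNReal.ofReal_mul (by split_ifs <;> positivity),
      ENNReal.ofReal_mul (by split_ifs <;> positivity)]
  refine (lintegral_mono_ae key).trans ?_
  have nA : Measurable fun p : (ℝ × ℝ) × (Fin (n + 1) → ℝ) =>
      ENNReal.ofReal (1 / ((n : ℝ) + 1) ^ 2) *
        ENNReal.ofReal ((r0 - mil (rz p.1)) / rz p.1) :=
    (mA.comp measurable_fst).const_mul _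
  have nB : Measurable fun p : (ℝ × ℝ) × (Fin (n + 1) → ℝ) =>
      ENNReal.ofReal (2 / ((n : ℝ) + 1) ^ 2) * ENNReal.ofReal (1 / ‖T n p‖ ^ 2) :=
    mB.const_mul _
  have nC : Measurable fun p : (ℝ × ℝ) × (Fin (n + 1) → ℝ) =>
      ENNReal.ofReal (1 / ((n : ℝ) + 1) ^ 2) * ENNReal.ofReal (1 / ‖T n p‖ ^ 4) :=
    mC'.const_mul _
  have nD : Measurable fun p : (ℝ × ℝ) × (Fin (n + 1) → ℝ) => ENNReal.ofReal
      (if rz p.1 < r0 / ((n : ℝ) + 1) then 1 - fmu n (r0 / (n + 1) / rz p.1) else 0) :=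
    mD.comp measurable_fst
  have nE : Measurable fun p : (ℝ × ℝ) × (Fin (n + 1) → ℝ) =>
      ENNReal.ofReal (if rz p.1 < r0 / ((n : ℝ) + 1) then rz p.1 ^ 2 else 0) *
        ENNReal.ofReal (1 / ∑ j, p.2 j ^ 2) :=
    (mE.comp measurable_fst).mul (mE2.comp measurable_snd)
  rw [Ef_six (gaT n) nA nB nC nD nE]
  refine add_le_add (add_le_add (add_le_add (add_le_add (add_le_add ?_ ?_) ?_) ?_) ?_) ?_
  · have mA' : Measurable fun p : (ℝ × ℝ) × (Fin (n + 1) → ℝ) =>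
        ENNReal.ofReal ((r0 - mil (rz p.1)) / rz p.1) := mA.comp measurable_fst
    rw [lintegral_const_mul _ mA']
    refine mul_le_mul_right ?_ _
    rw [Ef_fst n (fun z => ENNReal.ofReal ((r0 - mil (rz z)) / rz z)) mA]
    exact iu1
  · rw [lintegral_const_mul _ mB]
    exact mul_le_mul_right (lpl1 n) _
  · rw [lintegral_const_mul _ mC']
    exact mul_le_mul_right (lpl2 n (by omega)) _
  · rw [Ef_fst n (fun z => ENNReal.ofReal
      (if rz z < r0 / ((n : ℝ) + 1) then 1 - fmu n (r0 / (n + 1) / rz z) else 0)) mD]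
    exact iu2 n hn hs
  · have h := lintegral_prod_mul (μ := ga2) (ν := gad (n + 1)) mE.aemeasurable mE2.aemeasurable
    refine (le_of_eq h).trans ?_
    exact mul_le_mul' (iu4 hs) (lpl3 n (by omega))
  · have mF' : Measurable fun p : (ℝ × ℝ) × (Fin (n + 1) → ℝ) => ENNReal.ofReal
        (if rz p.1 < r0 / ((n : ℝ) + 1) then 1 else 0) := mF.comp measurable_fst
    rw [lintegral_mul_const _ mF']
    refine mul_le_mul_left ?_ _
    rw [Ef_fst n (fun z => ENNReal.ofReal (if rz z < r0 / ((n : ℝ) + 1) then 1 else 0)) mF]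
    exact iu3 hs

theorem ef_ge (n : ℕ) (hn : 3 ≤ n)
    (hi : Integrable (fun p => fmu n (mC n (r0 / (n + 1)) p / (n + 1))) (gaT n)) :
    1 - (((Real.pi / 2 - 1) + 2 / (n + 1) + 1 / ((n + 1) * (n - 1))) / (n + 1) ^ 2 +
      (Real.pi / 2 / (n + 1) ^ 2) * (n + 2) / (2 * (n - 2)) +
      (Real.pi / 2 / (n + 1) ^ 2) ^ 2 / 4 / (n - 1) +
      (Real.pi / 2 / (n + 1) ^ 2) / 2 * ((Real.pi / 2 / (n + 1) ^ 2) / 2 + 1 / (n + 1))) ≤
    ∫ p, fmu n (mC n (r0 / (n + 1)) p / (n + 1)) ∂(gaT n) := by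
  have hn3 : (3 : ℝ) ≤ n := by exact_mod_cast hn
  have hs : 0 < r0 / ((n : ℝ) + 1) := div_pos r0_pos (by positivity)
  have hs2 : (r0 / ((n : ℝ) + 1)) ^ 2 = Real.pi / 2 / ((n : ℝ) + 1) ^ 2 := by
    rw [div_pow, r0, Real.sq_sqrt (by positivity)]
  have hs4 : (r0 / ((n : ℝ) + 1)) ^ 4 = (Real.pi / 2 / ((n : ℝ) + 1) ^ 2) ^ 2 := by
    rw [← hs2]; ring
  have hpi : 0 ≤ Real.pi / 2 - 1 := by
    have := Real.pi_gt_three
    linarith
  have hn1 : (0 : ℝ) < (n : ℝ) - 1 := by linarith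
  have hn2 : (0 : ℝ) < (n : ℝ) - 2 := by linarith
  have h1 := Ef_lint n hn
  rw [← ENNReal.ofReal_mul (by positivity), ← ENNReal.ofReal_mul (by positivity),
    ← ENNReal.ofReal_mul (by positivity), ← ENNReal.ofReal_mul (by positivity),
    ← ENNReal.ofReal_mul (by positivity),
    ← ENNReal.ofReal_add (by positivity) (by positivity),
    ← ENNReal.ofReal_add (by positivity) (by positivity),
    ← ENNReal.ofReal_add (by positivity) (by positivity),
    ← ENNReal.ofReal_add (by positivity) (by positivity),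
    ← ENNReal.ofReal_add (by positivity) (by positivity)] at h1
  have hint : Integrable (fun p => 1 - fmu n (mC n (r0 / (n + 1)) p / (n + 1))) (gaT n) :=
    (integrable_const 1).sub hi
  have hnn : ∀ p, 0 ≤ 1 - fmu n (mC n (r0 / (n + 1)) p / (n + 1)) := fun p =>
    sub_nonneg.2 (fmu_le n (by omega) _ (div_nonneg (mC_nonneg hs p) (by positivity)))
  rw [← ofReal_integral_eq_lintegral_ofReal hint (Filter.Eventually.of_forall hnn),
    ENNReal.ofReal_le_ofReal_iff (by positivity), integral_sub (integrable_const 1) hi,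
    integral_const, probReal_univ, one_smul, hs2, hs4] at h1
  refine le_trans (le_of_eq ?_) (sub_le_comm.1 h1)
  ring

end MB
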