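import Pool.Agent.H16.MC.CDefs
import Pool.Agent.H16.MB.Pt
import Pool.Agent.H16.MB.CutV
import Pool.Agent.H16.MB.Dir

/-!
Row Es2 (MP_c844e7, about 150 lines).  The two pointwise estimates of the derivatives of the cut-off lift (`ε = τ⁵`).  Compare the proved row Est, `Pool/Agent/H16/MB/Est.lean`.

PROOF.  `X = T n p` is not on the axis (`ax_T`, `pol_ne`), so `X ≠ 0`; `ε = τ^5 ∈ (0,1]`.
(i) If `wq X < ε²‖X‖²` then `Vf` vanishes near `X` (`cut_zero`), the derivative is `0`, and the right sides are nonnegative (`kp_mem`, `lam ≥ 0` as `Dd ≥ 0` (indicator of an absolute value), `qq ≥ 0`).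
(ii) Otherwise `X ∈ Om n (2/ε)` (`P_lt`, `¬ ax X`), `Dd (2/ε) S G X = |det D lift|`; `pt` gives `Λ ≥ 0` with `Λ^(n+2) = c Dd`, so `lam = (Λ^(n+2))^(2/(n+2)) = Λ²` (`Real.rpow_natCast`, `Real.rpow_mul`).  For a unit vector `e` with `⟪e, th X⟫ = 0`,
`α = (⟪X,e⟫/‖X‖)²`: `‖D lift e‖² ≤ α + (1-α) lam`, `‖D Vf e‖ ≤ ‖D lift e‖ + 8 ε qq` (`Vf_grad`), `(x+y)² ≤ (1+τ²)x² + (1+τ⁻²)y²`.  Here `ε² qq ≤ 1`, i.e. `qq ≤ τ^(-10)`, so `qq² = qq^(7/5) qq^(3/5) ≤ τ^(-6) qq^(7/5)`, and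
`(1+τ⁻²) 64 τ^10 qq² ≤ (1+τ⁻²) 64 τ⁴ qq^(7/5) ≤ 128 τ² qq^(7/5)`.
`est_W2`: `e = bW n i`, `α = (W i/‖X‖)²` (`bW_inner`, `bW_norm`, `bW_th`); sum over `i`, `∑ α = kp X` (`kp_W`).  `est_R2`: `e = bR n θ`, `α = (ρ/‖X‖)² = 1 - kp X` (`bR_inner`, `kp_R`).
-/

set_option autoImplicit false

open MeasureTheory Set

namespace MB

variable {n : ℕ} {c τ : ℝ} {G : E (n + 2) → E (n + 2)} {S : E (n + 2) → E (n + 3)}
  {μ : E (n + 2) → ℝ}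

private lemma Es2_al {n : ℕ} (X e : E (n + 3)) (he : ‖e‖ = 1) :
    (inner ℝ X e / ‖X‖) ^ 2 ≤ 1 := by
  have h := abs_real_inner_div_norm_mul_norm_le_one X e
  rw [he, mul_one] at h
  rw [← sq_abs]
  exact pow_le_one₀ (abs_nonneg _) h

private lemma Es2_q {τ q : ℝ} (hτ : 0 < τ) (hq : 0 ≤ q) (h : τ ^ 10 * q ≤ 1) :
    τ ^ 6 * q ^ 2 ≤ q ^ ((7 : ℝ) / 5) := by
  obtain ⟨s, hs0, hs⟩ : ∃ s : ℝ, 0 ≤ s ∧ s ^ 5 = q :=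
    ⟨q ^ ((1 : ℝ) / 5), Real.rpow_nonneg hq _, by
      rw [← Real.rpow_natCast, ← Real.rpow_mul hq]
      norm_num⟩
  have h7 : q ^ ((7 : ℝ) / 5) = s ^ 7 := by
    rw [← hs, ← Real.rpow_natCast s 5, ← Real.rpow_mul hs0, ← Real.rpow_natCast s 7]
    norm_num
  rw [h7]
  have h1 : (τ ^ 2 * s) ^ 5 ≤ 1 ^ 5 := by
    have : (τ ^ 2 * s) ^ 5 = τ ^ 10 * q := by rw [← hs]; ring
    rw [this]
    simpa using h
  have h2 : τ ^ 2 * s ≤ 1 := le_of_pow_le_pow_left₀ (by norm_num) zero_le_one h1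
  have h3 : (τ ^ 2 * s) ^ 3 ≤ 1 := pow_le_one₀ (by positivity) h2
  have h4 : τ ^ 6 * q ^ 2 = (τ ^ 2 * s) ^ 3 * s ^ 7 := by rw [← hs]; ring
  rw [h4]
  exact mul_le_of_le_one_left (by positivity) h3

private lemma Es2_sq {x z q τ : ℝ} (hτ : 0 < τ) (hτ1 : τ ≤ 1) (hz : 0 ≤ z) (hq : 0 ≤ q)
    (hzy : z ≤ x + 8 * τ ^ 5 * q) (h : τ ^ 10 * q ≤ 1) :
    z ^ 2 ≤ (1 + τ ^ 2) * x ^ 2 + 128 * τ ^ 2 * q ^ ((7 : ℝ) / 5) := by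
  have h1 : z ^ 2 ≤ (x + 8 * τ ^ 5 * q) ^ 2 := pow_le_pow_left₀ hz hzy 2
  have h2 : 0 ≤ (τ * x - 8 * τ ^ 4 * q) ^ 2 := sq_nonneg _
  have h3 : (x + 8 * τ ^ 5 * q) ^ 2 + (τ * x - 8 * τ ^ 4 * q) ^ 2 =
      (1 + τ ^ 2) * x ^ 2 + 64 * (τ ^ 10 + τ ^ 8) * q ^ 2 := by ring
  have h4 : τ ^ 10 ≤ τ ^ 8 := pow_le_pow_of_le_one hτ.le hτ1 (by norm_num)
  have h5 : 64 * (τ ^ 10 + τ ^ 8) * q ^ 2 ≤ 128 * τ ^ 2 * (τ ^ 6 * q ^ 2) := by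
    have h6 : 0 ≤ (τ ^ 8 - τ ^ 10) * q ^ 2 := mul_nonneg (sub_nonneg.2 h4) (sq_nonneg _)
    nlinarith
  have h7 := mul_le_mul_of_nonneg_left (Es2_q hτ hq h) (by positivity : 0 ≤ 128 * τ ^ 2)
  linarith

private lemma Es2_qq {X : E (n + 3)} : 0 ≤ qq X := div_nonneg (sq_nonneg _) (wq_bd X).1

private lemma Es2_key (hτ : 0 < τ) (hτ1 : τ ≤ 1) (hc : 0 ≤ c) (hG : Dat c (2 / τ ^ 5) G)
    (hS : ConfS S μ) (X : E (n + 3)) (hX : ¬ ax X) :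
    ∀ e : E (n + 3), ‖e‖ = 1 → inner ℝ e (th X) = 0 →
      ‖fderiv ℝ (Vf (τ ^ 5) S G) X e‖ ^ 2 ≤
        (1 + τ ^ 2) * ((inner ℝ X e / ‖X‖) ^ 2 +
          (1 - (inner ℝ X e / ‖X‖) ^ 2) * lam c (2 / τ ^ 5) S G X) +
          128 * τ ^ 2 * qq X ^ ((7 : ℝ) / 5) := by
  intro e he hth
  have hε : 0 < τ ^ 5 := by positivity
  have hε1 : τ ^ 5 ≤ 1 := pow_le_one₀ hτ.le hτ1
  have hq : 0 ≤ qq X := Es2_qq
  have hα := Es2_al X e he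
  have hDd : 0 ≤ Dd (2 / τ ^ 5) S G X :=
    Set.indicator_nonneg (fun _ _ => abs_nonneg _) X
  rcases lt_or_ge (wq X) ((τ ^ 5) ^ 2 * ‖X‖ ^ 2) with h | h
  · rw [CutV_fd0 X h, zero_apply, norm_zero]
    have hl : 0 ≤ lam c (2 / τ ^ 5) S G X := Real.rpow_nonneg (mul_nonneg hc hDd) _
    have h1 : 0 ≤ (1 - (inner ℝ X e / ‖X‖) ^ 2) * lam c (2 / τ ^ 5) S G X :=
      mul_nonneg (sub_nonneg.2 hα) hl
    have h2 : 0 ≤ qq X ^ ((7 : ℝ) / 5) := Real.rpow_nonneg hq _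
    rw [zero_pow two_ne_zero]
    exact add_nonneg (mul_nonneg (by positivity) (add_nonneg (sq_nonneg _) h1))
      (mul_nonneg (by positivity) h2)
  · obtain ⟨hX1, hX2⟩ := P_lt hε X (CutV_ne hX) h
    have hO : X ∈ Om n (2 / τ ^ 5) := ⟨hX1, hX2, hX⟩
    obtain ⟨Λ, h0, h1, h2⟩ := pt hG hc hS X hO
    have hlam : lam c (2 / τ ^ 5) S G X = Λ ^ 2 := by
      unfold lam
      rw [Dd, Set.indicator_of_mem hO, ← h1, ← Real.rpow_natCast Λ (n + 2),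
        ← Real.rpow_mul h0]
      have hn : (((n + 2 : ℕ) : ℝ)) * ((2 : ℝ) / (n + 2)) = 2 := by
        have : ((n : ℝ) + 2) ≠ 0 := by positivity
        push_cast
        field_simp
      rw [hn]
      exact Real.rpow_two Λ
    rw [hlam]
    have h3 := Vf_grad hε hε1 hG hS X e hX
    rw [he, mul_one] at h3
    have hX0 : 0 < ‖X‖ ^ 2 := by
      have := norm_pos_iff.2 (CutV_ne hX)
      positivity
    have hw : 0 < wq X := lt_of_lt_of_le (by positivity) h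
    have hqq : τ ^ 10 * qq X ≤ 1 := by
      unfold qq
      rw [← mul_div_assoc, div_le_one hw]
      have : τ ^ 10 * ‖X‖ ^ 2 = (τ ^ 5) ^ 2 * ‖X‖ ^ 2 := by ring
      rw [this]
      exact h
    have h4 := Es2_sq hτ hτ1 (norm_nonneg _) hq h3 hqq
    refine h4.trans ?_
    have h5 := mul_le_mul_of_nonneg_left (h2 e he hth) (by positivity : (0 : ℝ) ≤ 1 + τ ^ 2)
    linarith

theorem est_W2 (hτ : 0 < τ) (hτ1 : τ ≤ 1) (hc : 0 ≤ c) (hG : Dat c (2 / τ ^ 5) G)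
    (hS : ConfS S μ) (p : (ℝ × ℝ) × (Fin (n + 1) → ℝ)) (hp : p.1 ≠ 0) :
    ∑ i, ‖fderiv ℝ (Vf (τ ^ 5) S G) (T n p) (bW n i)‖ ^ 2 ≤
      (1 + τ ^ 2) * (kp (T n p) + ((n + 1) - kp (T n p)) * lam c (2 / τ ^ 5) S G (T n p)) +
      128 * τ ^ 2 * (n + 1) * qq (T n p) ^ ((7 : ℝ) / 5) := by
  have hax : ¬ ax (T n p) := by rwa [ax_T]
  have h := Es2_key hτ hτ1 hc hG hS (T n p) hax
  have hsum : ∑ i, (inner ℝ (T n p) (bW n i) / ‖T n p‖) ^ 2 = kp (T n p) := by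
    rw [kp_W, Finset.sum_div]
    refine Finset.sum_congr rfl fun i _ => ?_
    rw [bW_inner, div_pow]
  set L : ℝ := lam c (2 / τ ^ 5) S G (T n p) with hL
  set q : ℝ := qq (T n p) ^ ((7 : ℝ) / 5) with hq
  refine (Finset.sum_le_sum fun i _ => h (bW n i) (bW_norm n i) (bW_th n i _)).trans (le_of_eq ?_)
  have hs2 : ∑ i : Fin (n + 1), ((1 + τ ^ 2) * ((inner ℝ (T n p) (bW n i) / ‖T n p‖) ^ 2 +
        (1 - (inner ℝ (T n p) (bW n i) / ‖T n p‖) ^ 2) * L) + 128 * τ ^ 2 * q) =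
      ∑ i : Fin (n + 1), (((1 + τ ^ 2) * L + 128 * τ ^ 2 * q) +
        ((1 + τ ^ 2) * (1 - L)) * (inner ℝ (T n p) (bW n i) / ‖T n p‖) ^ 2) :=
    Finset.sum_congr rfl fun i _ => by ring
  rw [hs2, Finset.sum_add_distrib, ← Finset.mul_sum, hsum, Finset.sum_const, Finset.card_univ,
    Fintype.card_fin, nsmul_eq_mul]
  push_cast
  ring

theorem est_R2 (hτ : 0 < τ) (hτ1 : τ ≤ 1) (hc : 0 ≤ c) (hG : Dat c (2 / τ ^ 5) G)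
    (hS : ConfS S μ) (ρ θ : ℝ) (W : Fin (n + 1) → ℝ) (hρ : 0 < ρ) :
    ‖fderiv ℝ (Vf (τ ^ 5) S G) (T n (pol ρ θ, W)) (bR n θ)‖ ^ 2 ≤
      (1 + τ ^ 2) * ((1 - kp (T n (pol ρ θ, W))) +
        kp (T n (pol ρ θ, W)) * lam c (2 / τ ^ 5) S G (T n (pol ρ θ, W))) +
      128 * τ ^ 2 * qq (T n (pol ρ θ, W)) ^ ((7 : ℝ) / 5) := by
  have hax : ¬ ax (T n (pol ρ θ, W)) := by
    rw [ax_T]
    exact pol_ne hρ
  have h1 := Es2_key hτ hτ1 hc hG hS (T n (pol ρ θ, W)) hax (bR n θ) (bR_norm n θ)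
    (bR_th n ρ θ W)
  rw [bR_inner, kp_R n ρ θ W hρ, sub_sub_cancel] at h1
  exact h1

end MB
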