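import Pool.Agent.H16.MB.Mom


/-!
Row Kpc (MP_c844e7, about 120 lines).  A finite Gaussian integral with a singularity of codimension at least three.  Adaptation of the proved row Kap, `Pool/Agent/H16/MB/Kap.lean` (there `n ≥ 5` and the exponent `2`).

PROOF.  Let `q = ∑ i : Fin n, W i.castSucc ^ 2`, `n ≥ 3`.  Let `J` be the set of the indices `i.castSucc` with `i < 3`.  By the inequality of arithmetic and geometric mean (`Real.geom_mean_le_arith_mean3_weighted` with weights `1/3`)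
`q ≥ ∑_{J} W_i² ≥ 3 ∏_{J} |W_i|^(2/3)`, so `1/q^(7/5) ≤ ∏_{J} |W_i|^(-14/15)` if all these `W_i` are not `0` (almost every `W`).  `(1 + t)^3 ≤ C exp(t/8)` for `t ≥ 0` with a suitable constant (`C = 24^3 exp(1/8)`), so the integrand is at
most `C ∏_j exp(W_j²/8) φ_j(W_j)` with `φ_j x = |x|^(-14/15)` for `j ∈ J` and `1` otherwise.  The lintegral of a product of functions of the coordinates against `Measure.pi` is the product of the lintegrals, and each factor is finite
(`|x|^(-14/15) exp(-3x²/8)` is integrable, exponent `> -1`).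
-/

set_option autoImplicit false

open MeasureTheory Set

namespace MB

theorem Kpc_abs {b : ℝ} (hb : 0 < b) {s : ℝ} (hs : -1 < s) :
    Integrable (fun x : ℝ => |x| ^ s * Real.exp (-b * x ^ 2)) := by
  have h : IntegrableOn (fun x : ℝ => |x| ^ s * Real.exp (-b * x ^ 2)) (Ioi 0) := by
    refine (integrableOn_rpow_mul_exp_neg_mul_sq hb hs).congr_fun (fun x hx => ?_)
      measurableSet_Ioi
    have : |x| = x := abs_of_pos hx
    simp only [this]
  rw [← integrableOn_univ, ← @Iio_union_Ici _ _ (0 : ℝ), integrableOn_union,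
    integrableOn_Ici_iff_integrableOn_Ioi]
  refine ⟨?_, h⟩
  rw [← (Measure.measurePreserving_neg (volume : Measure ℝ)).integrableOn_comp_preimage
      (Homeomorph.neg ℝ).measurableEmbedding]
  simp only [Function.comp_def, neg_sq, neg_preimage, neg_Iio, neg_zero, abs_neg]
  exact h

theorem Kpc_ga {s : ℝ} (hs : -1 < s) :
    Integrable (fun x : ℝ => |x| ^ s * Real.exp (x ^ 2 / 8)) ga := by
  unfold ga
  rw [ProbabilityTheory.gaussianReal_of_var_ne_zero 0 one_ne_zero,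
    integrable_withDensity_iff_integrable_smul' (ProbabilityTheory.measurable_gaussianPDF 0 1)
      (Filter.Eventually.of_forall fun x => ENNReal.ofReal_lt_top)]
  simp only [ProbabilityTheory.toReal_gaussianPDF, smul_eq_mul]
  have h := (Kpc_abs (b := 3 / 8) (by norm_num) hs).const_mul ((√(2 * Real.pi * (1 : NNReal)))⁻¹)
  refine h.congr (Filter.Eventually.of_forall fun x => ?_)
  simp only [ProbabilityTheory.gaussianPDFReal]
  have e : Real.exp (-(3 / 8) * x ^ 2) =
      Real.exp (-(x - 0) ^ 2 / (2 * ((1 : NNReal) : ℝ))) * Real.exp (x ^ 2 / 8) := by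
    rw [← Real.exp_add]
    congr 1
    push_cast
    ring
  rw [e]
  ring

theorem Kpc_cub {t : ℝ} (ht : 0 ≤ t) :
    (1 + t) ^ 3 ≤ 24 ^ 3 * Real.exp (1 / 8) * Real.exp (t / 8) := by
  have h1 : 1 + t ≤ 24 * Real.exp ((1 + t) / 24) := by
    have := Real.add_one_le_exp ((1 + t) / 24)
    linarith
  calc (1 + t) ^ 3 ≤ (24 * Real.exp ((1 + t) / 24)) ^ 3 := pow_le_pow_left₀ (by linarith) h1 3
    _ = 24 ^ 3 * Real.exp (1 / 8) * Real.exp (t / 8) := by
        rw [mul_pow, ← Real.exp_nat_mul, mul_assoc, ← Real.exp_add]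
        congr 2
        push_cast
        ring

theorem Kpc_prod (n : ℕ) (hn : 3 ≤ n) (W : Fin (n + 1) → ℝ) (hW : ∀ j, W j ≠ 0) :
    1 / (∑ i : Fin n, W i.castSucc ^ 2) ^ ((7 : ℝ) / 5) ≤
      ∏ j : Fin (n + 1), |W j| ^ (if (j : ℕ) < 3 then (-14 / 15 : ℝ) else 0) := by
  classical
  set S := ∑ i : Fin n, W i.castSucc ^ 2 with hS
  have hle : ∀ j : Fin (n + 1), (j : ℕ) < 3 → W j ^ 2 ≤ S := by
    intro j hj
    have hj' : (j : ℕ) < n := by omega
    have : j = (⟨j, hj'⟩ : Fin n).castSucc := by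
      ext
      rfl
    rw [this, hS]
    exact Finset.single_le_sum (f := fun i : Fin n => W i.castSucc ^ 2)
      (fun i _ => sq_nonneg _) (Finset.mem_univ _)
  have hpos : 0 < S := by
    have h0 : (0 : ℕ) < 3 := by norm_num
    have := hle 0 (by simp)
    exact lt_of_lt_of_le (by have := hW 0; positivity) this
  have e1 : ∏ j : Fin (n + 1), |W j| ^ (if (j : ℕ) < 3 then (-14 / 15 : ℝ) else 0) =
      ∏ j ∈ Finset.univ.filter (fun j : Fin (n + 1) => (j : ℕ) < 3), |W j| ^ (-14 / 15 : ℝ) := by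
    rw [Finset.prod_filter]
    refine Finset.prod_congr rfl fun j _ => ?_
    split_ifs
    · rfl
    · rw [Real.rpow_zero]
  have hcard : (Finset.univ.filter (fun j : Fin (n + 1) => (j : ℕ) < 3)).card = 3 := by
    rw [Fin.card_filter_val_lt]
    omega
  rw [e1]
  have e2 : 1 / S ^ ((7 : ℝ) / 5) = ∏ _j ∈ Finset.univ.filter (fun j : Fin (n + 1) => (j : ℕ) < 3),
      S ^ (-7 / 15 : ℝ) := by
    have e3 : (S ^ (-7 / 15 : ℝ)) ^ 3 = S ^ (-(7 / 5) : ℝ) := by
      rw [← Real.rpow_natCast, ← Real.rpow_mul hpos.le]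
      congr 1
      norm_num
    rw [Finset.prod_const, hcard, e3, Real.rpow_neg hpos.le, one_div]
  rw [e2]
  refine Finset.prod_le_prod (fun j _ => by positivity) fun j hj => ?_
  rw [Finset.mem_filter] at hj
  have h3 := hle j hj.2
  have h4 : 0 < W j ^ 2 := by have := hW j; positivity
  calc S ^ (-7 / 15 : ℝ) ≤ (W j ^ 2) ^ (-7 / 15 : ℝ) :=
        Real.rpow_le_rpow_of_nonpos h4 h3 (by norm_num)
    _ = |W j| ^ (-14 / 15 : ℝ) := by
        rw [← sq_abs, ← Real.rpow_natCast, ← Real.rpow_mul (abs_nonneg _)]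
        congr 1
        norm_num

theorem Kpc_ne (n : ℕ) : ∀ᵐ W ∂(gad (n + 1)), ∀ j, W j ≠ 0 := by
  have := ProbabilityTheory.nullSingletonClass_gaussianReal (μ := 0) (v := 1) one_ne_zero
  rw [ae_all_iff]
  intro j
  have h : ∀ᵐ x ∂ga, x ≠ (0 : ℝ) := by
    rw [ae_iff]
    simp
  exact (Measure.tendsto_eval_ae_ae (μ := fun _ : Fin (n + 1) => ga) (i := j)).eventually h

theorem kpc_lt (n : ℕ) (hn : 3 ≤ n) :
    ∫⁻ W, ENNReal.ofReal ((1 + ∑ j, W j ^ 2) ^ 3 / (∑ i : Fin n, W i.castSucc ^ 2) ^ ((7 : ℝ) / 5))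
      ∂(gad (n + 1)) < ⊤ := by
  have hint : Integrable (fun W : Fin (n + 1) → ℝ => ∏ j : Fin (n + 1),
      (|W j| ^ (if (j : ℕ) < 3 then (-14 / 15 : ℝ) else 0) * Real.exp (W j ^ 2 / 8)))
      (gad (n + 1)) := by
    refine Integrable.fintype_prod (f := fun (j : Fin (n + 1)) (x : ℝ) =>
      |x| ^ (if (j : ℕ) < 3 then (-14 / 15 : ℝ) else 0) * Real.exp (x ^ 2 / 8)) (fun j => ?_)
    apply Kpc_ga
    split_ifs <;> norm_num
  have hint2 := hint.const_mul (24 ^ 3 * Real.exp (1 / 8))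
  refine lt_of_le_of_lt (lintegral_mono_ae ?_) hint2.lintegral_lt_top
  filter_upwards [Kpc_ne n] with W hW
  apply ENNReal.ofReal_le_ofReal
  rw [Finset.prod_mul_distrib]
  have h1 := Kpc_prod n hn W hW
  have h2 := Kpc_cub (t := ∑ j, W j ^ 2) (Finset.sum_nonneg fun j _ => sq_nonneg _)
  have h3 : Real.exp ((∑ j, W j ^ 2) / 8) = ∏ j, Real.exp (W j ^ 2 / 8) := by
    rw [Finset.sum_div, Real.exp_sum]
  rw [← h3, div_eq_mul_one_div]
  calc (1 + ∑ j, W j ^ 2) ^ 3 * (1 / (∑ i : Fin n, W i.castSucc ^ 2) ^ ((7 : ℝ) / 5)) ≤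
        (24 ^ 3 * Real.exp (1 / 8) * Real.exp ((∑ j, W j ^ 2) / 8)) *
        ∏ j : Fin (n + 1), |W j| ^ (if (j : ℕ) < 3 then (-14 / 15 : ℝ) else 0) :=
          mul_le_mul h2 h1 (by positivity) (by positivity)
    _ = _ := by ring

end MB
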