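import Pool.Agent.H16.MC.Fmu
import Pool.Agent.H16.MC.Mea

/-!
Row Mbd (MP_c844e7, about 130 lines).  Pointwise lower bounds of `fmu n (mC n s p/(n+1))` for `s = r0/(n+1)`.

PROOF.  `d = n+1`, `s d = r0`, `X = T n p`, `ρ = rz p.1 > 0`, `‖X‖² = ρ² + ∑ p.2 j²` (`norm_T`, `Real.sq_sqrt`), `1 - kp X = ρ²/‖X‖²` (`kp_W`).
`fm_I`: `ρ ≥ s`: `gw = 1 - s/ρ`, `kw = 1 + (mil ρ - s)/ρ`, so `mC = gw d + (kw - gw) kp = d - sd/ρ + (mil ρ/ρ) kp = d - (r0 - mil ρ)/ρ - mil ρ ρ/‖X‖² = d - u - v` with `u = (r0 - mil ρ)/ρ ∈ [0,1]` (`mil_le`, `mil_sub`), `0 ≤ v ≤ 1/‖X‖²`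
(`mil_pos`, `mil_mul`).  `fmu_ge` with `t = mC/d ≥ 0` (`mC_nonneg`): `1 - fmu ≤ ((u+v)/d)² ≤ (u + 2v + v²)/d² ≤ (u + 2/‖X‖² + 1/‖X‖⁴)/d²` (`u² ≤ u`, `uv ≤ v`).
`fm_II`: `ρ < s`: `gw = 0` (`1 - s/ρ < 0`), `mC = kw kp`, `mC/d = ϑ (s/ρ)` with `ϑ = kp exp((ρ²-s²)/2) (mil s/r0)` (`r0 = s d`); the three factors are in `[0,1]` (`kp_mem`, `mil_le`), so `1 - ϑ ≤ (1-kp) + (1 - exp((ρ²-s²)/2)) + (1 - mil s/r0)
≤ ρ²/‖X‖² + s²/2 + s/r0` (`1 - e^{-x} ≤ x`, `(s²-ρ²)/2 ≤ s²/2`; `mil_sub`), `s/r0 = 1/d`, and `ρ²/‖X‖² ≤ ρ²/∑ p.2 j²` if the sum is positive (assumed).  `fmu_mul`.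
-/

set_option autoImplicit false

open MeasureTheory Set

namespace MB

private theorem mbd_geo (n : ℕ) (p : (ℝ × ℝ) × (Fin (n + 1) → ℝ)) (h0 : 0 < rz p.1) :
    ‖T n p‖ ^ 2 = rz p.1 ^ 2 + ∑ j, p.2 j ^ 2 ∧ 0 < ‖T n p‖ ^ 2 ∧
      1 - kp (T n p) = rz p.1 ^ 2 / ‖T n p‖ ^ 2 := by
  have h1 : rz p.1 ^ 2 = p.1.1 ^ 2 + p.1.2 ^ 2 := by
    rw [rz, Real.sq_sqrt (by positivity)]
  have h2 : ‖T n p‖ ^ 2 = rz p.1 ^ 2 + ∑ j, p.2 j ^ 2 := by rw [norm_T, h1]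
  have h3 : 0 ≤ ∑ j, p.2 j ^ 2 := Finset.sum_nonneg fun j _ => sq_nonneg _
  have h4 : 0 < ‖T n p‖ ^ 2 := by rw [h2]; positivity
  refine ⟨h2, h4, ?_⟩
  rw [kp_W, eq_div_iff h4.ne', sub_mul, div_mul_cancel₀ _ h4.ne']
  linarith

theorem fm_I (n : ℕ) (hn : 2 ≤ n) (p : (ℝ × ℝ) × (Fin (n + 1) → ℝ))
    (h : r0 / (n + 1) ≤ rz p.1) :
    1 - fmu n (mC n (r0 / (n + 1)) p / (n + 1)) ≤
      ((r0 - mil (rz p.1)) / rz p.1 + 2 * (1 / ‖T n p‖ ^ 2) + 1 / ‖T n p‖ ^ 4) /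
        (n + 1) ^ 2 := by
  have hd : (0 : ℝ) < (n : ℝ) + 1 := by positivity
  have hr := r0_pos
  have hs : 0 < r0 / ((n : ℝ) + 1) := by positivity
  have h0 : 0 < rz p.1 := lt_of_lt_of_le hs h
  obtain ⟨-, hX, hk⟩ := mbd_geo n p h0
  have hm := mC_nonneg (n := n) hs p
  have hge := fmu_ge n hn (mC n (r0 / (n + 1)) p / (n + 1)) (by positivity)
  have hX4 : ‖T n p‖ ^ 4 = (‖T n p‖ ^ 2) ^ 2 := by ring
  rw [hX4]
  generalize ‖T n p‖ ^ 2 = X at hX hk ⊢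
  have h1 := mil_pos (rz p.1)
  have h2 := mil_mul (rz p.1)
  have h3 := mil_le (rz p.1) h0.le
  have h4 := mil_sub (rz p.1) h0.le
  have hu0 : 0 ≤ (r0 - mil (rz p.1)) / rz p.1 := div_nonneg (by linarith) h0.le
  have hu1 : (r0 - mil (rz p.1)) / rz p.1 ≤ 1 := by rw [div_le_one h0]; exact h4
  have hv0 : 0 ≤ rz p.1 * mil (rz p.1) / X := by positivity
  have hv1 : rz p.1 * mil (rz p.1) / X ≤ 1 / X := div_le_div_of_nonneg_right h2 hX.le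
  have hgw : gw (r0 / ((n : ℝ) + 1)) (rz p.1) = 1 - r0 / ((n : ℝ) + 1) / rz p.1 := by
    unfold gw
    apply max_eq_right
    have : r0 / ((n : ℝ) + 1) / rz p.1 ≤ 1 := by rw [div_le_one h0]; exact h
    linarith
  have hkw : kw (r0 / ((n : ℝ) + 1)) (rz p.1) =
      1 + (mil (rz p.1) - r0 / ((n : ℝ) + 1)) / rz p.1 := by
    unfold kw
    rw [if_pos h]
  have hkk : kp (T n p) = 1 - rz p.1 ^ 2 / X := by linarith
  have hmC : mC n (r0 / (n + 1)) p = (n + 1) - (r0 - mil (rz p.1)) / rz p.1 -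
      rz p.1 * mil (rz p.1) / X := by
    unfold mC
    rw [hgw, hkw, hkk]
    field_simp
    ring
  have hq : mC n (r0 / (n + 1)) p / (n + 1) - 1 =
      -(((r0 - mil (rz p.1)) / rz p.1 + rz p.1 * mil (rz p.1) / X) / (n + 1)) := by
    rw [hmC, sub_sub, sub_div, div_self hd.ne']
    ring
  rw [hq] at hge
  generalize (r0 - mil (rz p.1)) / rz p.1 = u at hu0 hu1 hge ⊢
  generalize rz p.1 * mil (rz p.1) / X = v at hv0 hv1 hge ⊢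
  have hfin : (-((u + v) / ((n : ℝ) + 1))) ^ 2 ≤
      (u + 2 * (1 / X) + 1 / X ^ 2) / ((n : ℝ) + 1) ^ 2 := by
    rw [neg_sq, div_pow]
    apply div_le_div_of_nonneg_right _ (by positivity)
    have hw : 1 / X ^ 2 = (1 / X) ^ 2 := by rw [one_div_pow]
    rw [hw]
    have hvv : v ^ 2 ≤ (1 / X) ^ 2 := pow_le_pow_left₀ hv0 hv1 2
    nlinarith [mul_nonneg hu0 (sub_nonneg.2 hu1), mul_nonneg hv0 (sub_nonneg.2 hu1)]
  linarith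

theorem fm_II (n : ℕ) (hn : 2 ≤ n) (p : (ℝ × ℝ) × (Fin (n + 1) → ℝ)) (h0 : 0 < rz p.1)
    (h : rz p.1 < r0 / (n + 1)) (hW : 0 < ∑ j, p.2 j ^ 2) :
    1 - fmu n (mC n (r0 / (n + 1)) p / (n + 1)) ≤
      (1 - fmu n (r0 / (n + 1) / rz p.1)) + (rz p.1 ^ 2 * (1 / ∑ j, p.2 j ^ 2) +
        (r0 / (n + 1)) ^ 2 / 2 + 1 / (n + 1)) := by
  have hd : (0 : ℝ) < (n : ℝ) + 1 := by positivity
  have hr := r0_pos
  have hs : 0 < r0 / ((n : ℝ) + 1) := by positivity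
  obtain ⟨hX2, hX, hk⟩ := mbd_geo n p h0
  obtain ⟨hk0, hk1⟩ := kp_mem (T n p)
  have hsd : r0 / ((n : ℝ) + 1) * (n + 1) = r0 := div_mul_cancel₀ _ hd.ne'
  have hkW : 1 - kp (T n p) ≤ rz p.1 ^ 2 * (1 / ∑ j, p.2 j ^ 2) := by
    rw [hk, mul_one_div]
    apply div_le_div_of_nonneg_left (by positivity) hW
    rw [hX2]
    have := sq_nonneg (rz p.1)
    linarith
  set s : ℝ := r0 / ((n : ℝ) + 1) with hsdef
  have hgw : gw s (rz p.1) = 0 := by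
    unfold gw
    apply max_eq_left
    have : 1 < s / rz p.1 := by rw [one_lt_div h0]; exact h
    linarith
  have hkw : kw s (rz p.1) = Real.exp ((rz p.1 ^ 2 - s ^ 2) / 2) * mil s / rz p.1 := by
    unfold kw
    rw [if_neg (not_le.2 h)]
  have hm1 := mil_pos s
  have hm2 := mil_le s hs.le
  have hm3 := mil_sub s hs.le
  have hmC : mC n s p / (n + 1) =
      (kp (T n p) * Real.exp ((rz p.1 ^ 2 - s ^ 2) / 2) * (mil s / r0)) * (s / rz p.1) := by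
    unfold mC
    rw [hgw, hkw, hsdef]
    field_simp
    ring
  set a : ℝ := kp (T n p)
  set b : ℝ := Real.exp ((rz p.1 ^ 2 - s ^ 2) / 2) with hb
  set c : ℝ := mil s / r0 with hc
  have hb0 : 0 ≤ b := (Real.exp_pos _).le
  have hsq : rz p.1 ^ 2 ≤ s ^ 2 := pow_le_pow_left₀ h0.le h.le 2
  have hb1 : b ≤ 1 := by
    rw [hb]
    apply Real.exp_le_one_iff.2
    linarith
  have hb2 : 1 - b ≤ s ^ 2 / 2 := by
    have h5 := Real.add_one_le_exp ((rz p.1 ^ 2 - s ^ 2) / 2)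
    rw [← hb] at h5
    have := sq_nonneg (rz p.1)
    linarith
  have hc0 : 0 ≤ c := by positivity
  have hc1 : c ≤ 1 := by rw [hc, div_le_one hr]; exact hm2
  have hc2 : 1 - c ≤ 1 / (n + 1) := by
    have h6 : 1 - c = (r0 - mil s) / r0 := by
      rw [hc, sub_div, div_self hr.ne']
    rw [h6]
    have h7 : (1 : ℝ) / (n + 1) = s / r0 := by
      rw [hsdef]
      field_simp
    rw [h7]
    exact div_le_div_of_nonneg_right hm3 hr.le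
  have hab1 : a * b ≤ 1 := mul_le_one₀ hk1 hb0 hb1
  have hab0 : 0 ≤ a * b := mul_nonneg hk0 hb0
  have habc0 : 0 ≤ a * b * c := mul_nonneg hab0 hc0
  have habc1 : a * b * c ≤ 1 := mul_le_one₀ hab1 hc0 hc1
  have hf := fmu_mul n (by omega) (s / rz p.1) (a * b * c) (by positivity) habc0 habc1
  rw [hmC]
  have h8 : 1 - a * b * c ≤ (1 - a) + (1 - b) + (1 - c) := by
    nlinarith [mul_nonneg (sub_nonneg.2 hk1) (sub_nonneg.2 hb1),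
      mul_nonneg (sub_nonneg.2 hab1) (sub_nonneg.2 hc1)]
  linarith

end MB
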