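import Pool.Agent.H16.MC.CDefs

/-!
Row Mil (MP_c844e7, about 120 lines).  Mills' ratio `mil ρ = exp(ρ²/2) ∫_ρ^∞ exp(-t²/2) dt`.

PROOF.  `integrable_exp_neg_mul_sq` gives integrability of `exp(-t²/2)` (write `-t²/2 = -(1/2) t²`).  `mil_zero`: `integral_gaussian_Ioi (1/2)`: `√(π/(1/2))/2 = √(2π)/2 = √(π/2)` (square both sides).
`mil_pos`: the integral of a positive function over a set of positive measure (`setIntegral_pos_iff_support_of_nonneg_ae` or monotonicity with the interval `(ρ, ρ+1]`).  `mil_le`: substitution `t = ρ + u` (`integral_comp_add_left_Ioi`-type lemma or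
`MeasurePreserving` of the translation): `∫_ρ^∞ exp(-t²/2) = ∫_0^∞ exp(-(ρ+u)²/2) du ≤ exp(-ρ²/2) ∫_0^∞ exp(-u²/2) du` as `(ρ+u)² ≥ ρ² + u²`.  `mil_mul`: `ρ ∫_ρ^∞ exp(-t²/2) ≤ ∫_ρ^∞ t exp(-t²/2) dt = exp(-ρ²/2)`
(`integral_Ioi_of_hasDerivAt_of_tendsto'` for `-exp(-t²/2)`).  `mil_sub`: `r0 - mil ρ = ∫_0^∞ (1 - e^{-ρu}) e^{-u²/2} du ≤ ρ ∫_0^∞ u e^{-u²/2} du = ρ`
(`exp(ρ²/2) exp(-(ρ+u)²/2) = exp(-ρu - u²/2)`, `1 - e^{-x} ≤ x`).  `mil_meas`: `ρ ↦ ∫ t in Ioi ρ, exp(-t²/2)` is antitone (`Antitone.measurable`), or continuous.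
-/

set_option autoImplicit false

open MeasureTheory Set

namespace MB

/-- The Gaussian weight. -/
private noncomputable def gm (t : ℝ) : ℝ := Real.exp (-t ^ 2 / 2)

private theorem gm_eq (t : ℝ) : gm t = Real.exp (-(1 / 2 : ℝ) * t ^ 2) := by
  unfold gm; congr 1; ring

private theorem gm_pos (t : ℝ) : 0 < gm t := Real.exp_pos _

private theorem gm_int : Integrable gm := by
  have h := integrable_exp_neg_mul_sq (b := 1 / 2) (by norm_num)
  exact h.congr (Filter.Eventually.of_forall fun t => (gm_eq t).symm)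

private theorem gm_int1 : Integrable (fun t => t * gm t) := by
  have h := integrable_mul_exp_neg_mul_sq (b := 1 / 2) (by norm_num)
  refine h.congr (Filter.Eventually.of_forall fun t => ?_)
  simp only [gm_eq]

private theorem gm_int2 : Integrable (fun t => t ^ 2 * gm t) := by
  have h := integrable_rpow_mul_exp_neg_mul_sq (b := 1 / 2) (by norm_num) (s := 2) (by norm_num)
  refine h.congr (Filter.Eventually.of_forall fun t => ?_)
  simp only [gm_eq, Real.rpow_two]

private theorem gm_deriv (t : ℝ) : HasDerivAt gm (-t * gm t) t := by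
  have h1 : HasDerivAt (fun t : ℝ => -t ^ 2 / 2) (-t) t := by
    have h2 := ((hasDerivAt_pow 2 t).neg).div_const 2
    have h4 : -((2 : ℕ) * t ^ (2 - 1)) / 2 = -t := by
      norm_num
      ring
    rw [h4] at h2
    exact h2
  have h3 := h1.exp
  have h5 : Real.exp (-t ^ 2 / 2) * -t = -t * gm t := by
    unfold gm
    ring
  rw [h5] at h3
  exact h3

private theorem gm_lim : Filter.Tendsto gm Filter.atTop (nhds 0) := by
  have h := (tendsto_rpow_abs_mul_exp_neg_mul_sq_cocompact (a := 1 / 2) (by norm_num) 0).mono_left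
    atTop_le_cocompact
  refine h.congr fun t => ?_
  rw [Real.rpow_zero, one_mul, gm_eq]

private theorem gm_lim1 : Filter.Tendsto (fun t => t * gm t) Filter.atTop (nhds 0) := by
  have h := (tendsto_rpow_abs_mul_exp_neg_mul_sq_cocompact (a := 1 / 2) (by norm_num) 1).mono_left
    atTop_le_cocompact
  refine h.congr' ?_
  filter_upwards [Filter.eventually_ge_atTop 0] with t ht
  rw [Real.rpow_one, abs_of_nonneg ht, gm_eq]

private theorem gm_first (ρ : ℝ) : ∫ t in Ioi ρ, t * gm t = gm ρ := by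
  have h := integral_Ioi_of_hasDerivAt_of_tendsto' (a := ρ) (f := fun t => -gm t)
    (f' := fun t => t * gm t) (m := 0) (fun x _ => ?_) gm_int1.integrableOn ?_
  · rw [h]; ring
  · have h1 := (gm_deriv x).neg
    rw [show -(-x * gm x) = x * gm x by ring] at h1
    exact h1
  · have := gm_lim.neg
    rwa [neg_zero] at this

private theorem gm_second (s ρ : ℝ) :
    ∫ t in Ioi ρ, ((t ^ 2 - s * t) * gm t - gm t) = (ρ - s) * gm ρ := by
  have h := integral_Ioi_of_hasDerivAt_of_tendsto' (a := ρ) (f := fun t => -((t - s) * gm t))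
    (f' := fun t => (t ^ 2 - s * t) * gm t - gm t) (m := 0) (fun x _ => ?_) ?_ ?_
  · rw [h]; ring
  · have h1 := (((hasDerivAt_id x).sub_const s).mul (gm_deriv x)).neg
    rw [show -(1 * gm x + (id x - s) * (-x * gm x)) = (x ^ 2 - s * x) * gm x - gm x by
      simp only [id]; ring] at h1
    exact h1
  · have h2 : Integrable (fun t => (t ^ 2 - s * t) * gm t - gm t) := by
      refine ((gm_int2.sub (gm_int1.const_mul s)).sub gm_int).congr
        (Filter.Eventually.of_forall fun t => ?_)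
      simp only [Pi.sub_apply]
      ring
    exact h2.integrableOn
  · have h3 := (gm_lim1.sub (gm_lim.const_mul s)).neg
    simp only [mul_zero, sub_zero, neg_zero] at h3
    refine h3.congr fun t => ?_
    ring

private theorem mil_def (ρ : ℝ) : mil ρ = (gm ρ)⁻¹ * ∫ t in Ioi ρ, gm t := by
  unfold mil gm
  rw [← Real.exp_neg]
  congr 2
  ring

private theorem mil_mul_gm (ρ : ℝ) : mil ρ * gm ρ = ∫ t in Ioi ρ, gm t := by
  rw [mil_def]
  field_simp [(gm_pos ρ).ne']

private theorem mil_sub_eq (ρ : ℝ) : mil ρ = ∫ u in Ioi (0 : ℝ), Real.exp (-ρ * u) * gm u := by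
  rw [mil_def]
  have h1 := (measurePreserving_add_left (volume : Measure ℝ) ρ).setIntegral_preimage_emb
    (measurableEmbedding_addLeft ρ) gm (Ioi ρ)
  rw [Set.preimage_const_add_Ioi, sub_self] at h1
  rw [← h1, ← integral_const_mul]
  refine setIntegral_congr_fun measurableSet_Ioi fun u _ => ?_
  simp only [gm]
  rw [← Real.exp_neg, ← Real.exp_add, ← Real.exp_add]
  congr 1
  ring

private theorem exp_gm_int (ρ : ℝ) :
    IntegrableOn (fun u => Real.exp (-ρ * u) * gm u) (Ioi (0 : ℝ)) := by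
  have h2 : Integrable (fun u => (gm ρ)⁻¹ * gm (ρ + u)) :=
    (gm_int.comp_add_left ρ).const_mul _
  refine (h2.congr (Filter.Eventually.of_forall fun u => ?_)).integrableOn
  simp only [gm]
  rw [← Real.exp_neg, ← Real.exp_add, ← Real.exp_add]
  congr 1
  ring

theorem r0_pos : 0 < r0 := Real.sqrt_pos.2 (by positivity)

theorem mil_zero : mil 0 = r0 := by
  rw [mil_def]
  have h0 : gm 0 = 1 := by simp [gm]
  have h1 : ∫ t in Ioi (0 : ℝ), gm t = ∫ t in Ioi (0 : ℝ), Real.exp (-(1 / 2 : ℝ) * t ^ 2) :=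
    setIntegral_congr_fun measurableSet_Ioi fun t _ => gm_eq t
  rw [h0, h1, integral_gaussian_Ioi, inv_one, one_mul]
  unfold r0
  rw [div_eq_iff (by norm_num : (2 : ℝ) ≠ 0)]
  have h2 : (2 : ℝ) = Real.sqrt 4 := by
    rw [show (4 : ℝ) = 2 ^ 2 by norm_num, Real.sqrt_sq (by norm_num)]
  conv_rhs => rw [h2]
  rw [← Real.sqrt_mul (by positivity)]
  congr 1
  have : Real.sqrt 4 = 2 := h2.symm
  rw [this]
  ring

theorem mil_pos (ρ : ℝ) : 0 < mil ρ := by
  rw [mil_def]
  refine mul_pos (inv_pos.2 (gm_pos ρ)) ?_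
  rw [setIntegral_pos_iff_support_of_nonneg_ae
    (Filter.Eventually.of_forall fun t => (gm_pos t).le) gm_int.integrableOn]
  have h1 : Function.support gm ∩ Ioi ρ = Ioi ρ := by
    ext t
    simp [(gm_pos t).ne']
  rw [h1]
  simp

theorem mil_le (ρ : ℝ) (h : 0 ≤ ρ) : mil ρ ≤ r0 := by
  rw [← mil_zero, mil_sub_eq, mil_sub_eq]
  refine setIntegral_mono_on (exp_gm_int ρ) (exp_gm_int 0) measurableSet_Ioi fun u hu => ?_
  refine mul_le_mul_of_nonneg_right (Real.exp_le_exp.2 ?_) (gm_pos u).le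
  have : 0 ≤ ρ * u := mul_nonneg h (le_of_lt hu)
  linarith

theorem mil_mul (ρ : ℝ) : ρ * mil ρ ≤ 1 := by
  have h1 : ρ * ∫ t in Ioi ρ, gm t ≤ gm ρ := by
    rw [← integral_const_mul, ← gm_first ρ]
    refine setIntegral_mono_on (gm_int.const_mul ρ).integrableOn gm_int1.integrableOn
      measurableSet_Ioi fun t ht => ?_
    exact mul_le_mul_of_nonneg_right (le_of_lt ht) (gm_pos t).le
  rw [mil_def]
  have h2 := gm_pos ρ
  calc ρ * ((gm ρ)⁻¹ * ∫ t in Ioi ρ, gm t) = (gm ρ)⁻¹ * (ρ * ∫ t in Ioi ρ, gm t) := by ring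
    _ ≤ (gm ρ)⁻¹ * gm ρ := mul_le_mul_of_nonneg_left h1 (inv_nonneg.2 h2.le)
    _ = 1 := inv_mul_cancel₀ h2.ne'

theorem mil_sub (ρ : ℝ) (h : 0 ≤ ρ) : r0 - mil ρ ≤ ρ := by
  have _ := h
  have h1 : ∫ u in Ioi (0 : ℝ), u * gm u = 1 := by
    rw [gm_first]; simp [gm]
  rw [← mil_zero, mil_sub_eq, mil_sub_eq, ← integral_sub (exp_gm_int 0) (exp_gm_int ρ)]
  calc ∫ u in Ioi (0 : ℝ), (Real.exp (-0 * u) * gm u - Real.exp (-ρ * u) * gm u)
      ≤ ∫ u in Ioi (0 : ℝ), ρ * (u * gm u) := by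
        refine setIntegral_mono_on ((exp_gm_int 0).sub (exp_gm_int ρ))
          (gm_int1.const_mul ρ).integrableOn measurableSet_Ioi fun u _ => ?_
        have h2 := Real.add_one_le_exp (-ρ * u)
        have h3 := (gm_pos u).le
        have h4 : Real.exp (-0 * u) = 1 := by simp
        rw [h4]
        nlinarith
    _ = ρ := by rw [integral_const_mul, h1, mul_one]

theorem mil_meas : Measurable mil := by
  have h1 : Antitone (fun ρ : ℝ => ∫ t in Ioi ρ, gm t) := by
    intro a b hab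
    exact setIntegral_mono_set gm_int.integrableOn
      (Filter.Eventually.of_forall fun t => (gm_pos t).le)
      (Filter.Eventually.of_forall (Ioi_subset_Ioi hab))
  have h2 : mil = fun ρ => Real.exp (ρ ^ 2 / 2) * ∫ t in Ioi ρ, gm t := rfl
  rw [h2]
  exact (by fun_prop : Measurable fun ρ : ℝ => Real.exp (ρ ^ 2 / 2)).mul h1.measurable

/-- `∫_ρ^∞ (t² - s t) exp(-t²/2) dt = (ρ - s + mil ρ) exp(-ρ²/2)`. -/
theorem mil_int (s ρ : ℝ) : ∫ t in Ioi ρ, (t ^ 2 - s * t) * Real.exp (-t ^ 2 / 2) =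
    (ρ - s + mil ρ) * Real.exp (-ρ ^ 2 / 2) := by
  have h1 : Integrable (fun t => (t ^ 2 - s * t) * gm t) := by
    refine (gm_int2.sub (gm_int1.const_mul s)).congr (Filter.Eventually.of_forall fun t => ?_)
    simp only [Pi.sub_apply]
    ring
  have h2 := gm_second s ρ
  rw [integral_sub h1.integrableOn gm_int.integrableOn] at h2
  change ∫ t in Ioi ρ, (t ^ 2 - s * t) * gm t = (ρ - s + mil ρ) * gm ρ
  rw [add_mul, mil_mul_gm]
  linarith

theorem mil_int' (s ρ : ℝ) :
    IntegrableOn (fun t => (t ^ 2 - s * t) * Real.exp (-t ^ 2 / 2)) (Ioi ρ) := by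
  have h1 : Integrable (fun t => (t ^ 2 - s * t) * gm t) := by
    refine (gm_int2.sub (gm_int1.const_mul s)).congr (Filter.Eventually.of_forall fun t => ?_)
    simp only [Pi.sub_apply]
    ring
  exact h1.integrableOn

end MB
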