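import Mathlib

/-!
Row Num (MP_c844e7, about 60 lines).  A numerical inequality.

PROOF.  Use `π ≤ 3.1416` (`Real.pi_lt_d4`); the left side is increasing in `π`.  Put `n = t + 3`, `t ≥ 0` real, and multiply by `(n+1)⁴ (n-1) (n-2)`: with `π = 3.1416` the difference (right minus left) is the polynomial
`19.936… + 6.2089… t - 1.4910… t² + 0.1548 t³ + 0.1438 t⁴`, which is positive for `t ≥ 0` because `6.2 t + 0.15 t³ ≥ 1.9 t²`.  (`field_simp` may be heavy: it is easier to write each of the seven terms of the left side as `(polynomial)/((n+1)⁴(n-1)(n-2))`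
separately, or to prove `3/(2(n+1)(n-2)) - LHS = (polynomial)/(…)` with `div_add_div`, then `div_nonneg`, `nlinarith`.)
-/

set_option autoImplicit false

namespace MB

theorem Num_id (q x : ℝ) (h0 : x ≠ 0) (h2 : x - 2 ≠ 0) (h3 : x - 3 ≠ 0) :
    3 / (2 * x * (x - 3)) - (((q - 1) + 2 / x + 1 / (x * (x - 2))) / x ^ 2 +
      (q / x ^ 2) * (x + 1) / (2 * (x - 3)) + (q / x ^ 2) ^ 2 / 4 / (x - 2) +
      (q / x ^ 2) / 2 * ((q / x ^ 2) / 2 + 1 / x)) =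
    (3 * x ^ 3 * (x - 2) / 2 + x ^ 2 * (x - 2) * (x - 3) - 2 * x * (x - 2) * (x - 3) - x * (x - 3)
      - q * (x ^ 2 * (x - 2) * (x - 3) + (x + 1) * x ^ 2 * (x - 2) / 2 + x * (x - 2) * (x - 3) / 2)
      - q ^ 2 * ((x - 3) / 4 + (x - 2) * (x - 3) / 4)) / (x ^ 4 * (x - 2) * (x - 3)) := by
  field_simp
  ring

theorem Num_pos (q t : ℝ) (hq0 : 0 ≤ q) (hq : q ≤ 1.5708) (ht : 0 ≤ t) :
    0 ≤ 3 * (t + 4) ^ 3 * (t + 2) / 2 + (t + 4) ^ 2 * (t + 2) * (t + 1) -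
      2 * (t + 4) * (t + 2) * (t + 1) - (t + 4) * (t + 1)
      - q * ((t + 4) ^ 2 * (t + 2) * (t + 1) + (t + 5) * (t + 4) ^ 2 * (t + 2) / 2 +
        (t + 4) * (t + 2) * (t + 1) / 2)
      - q ^ 2 * ((t + 1) / 4 + (t + 2) * (t + 1) / 4) := by
  obtain ⟨B, hB⟩ : ∃ B, B = (t + 4) ^ 2 * (t + 2) * (t + 1) + (t + 5) * (t + 4) ^ 2 * (t + 2) / 2 +
        (t + 4) * (t + 2) * (t + 1) / 2 := ⟨_, rfl⟩
  obtain ⟨C, hC⟩ : ∃ C, C = (t + 1) / 4 + (t + 2) * (t + 1) / 4 := ⟨_, rfl⟩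
  rw [← hB, ← hC]
  have hB0 : 0 ≤ B := by rw [hB]; positivity
  have hC0 : 0 ≤ C := by rw [hC]; positivity
  have h1 : q * B ≤ 1.5708 * B := mul_le_mul_of_nonneg_right hq hB0
  have h2 : q ^ 2 ≤ 1.5708 ^ 2 := pow_le_pow_left₀ hq0 hq 2
  have h3 : q ^ 2 * C ≤ 1.5708 ^ 2 * C := mul_le_mul_of_nonneg_right h2 hC0
  have h4 : 0 ≤ 3 * (t + 4) ^ 3 * (t + 2) / 2 + (t + 4) ^ 2 * (t + 2) * (t + 1) -
      2 * (t + 4) * (t + 2) * (t + 1) - (t + 4) * (t + 1) - 1.5708 * B - 1.5708 ^ 2 * C := by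
    rw [hB, hC]
    have h5 : 0 ≤ t ^ 2 := sq_nonneg t
    have h6 : 0 ≤ t ^ 4 := by positivity
    have h7 : 0 ≤ t * (t - 4) ^ 2 := mul_nonneg ht (sq_nonneg _)
    have h8 : 0 ≤ (t ^ 2 - 4) ^ 2 := sq_nonneg _
    have h9 : 0 ≤ (t - 2) ^ 2 := sq_nonneg _
    nlinarith [h5, h6, h7, h8, h9, pow_nonneg ht 3]
  linarith

theorem num_ineq (n : ℕ) (hn : 3 ≤ n) :
    ((Real.pi / 2 - 1) + 2 / ((n : ℝ) + 1) + 1 / (((n : ℝ) + 1) * (n - 1))) / (n + 1) ^ 2 +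
      (Real.pi / 2 / ((n : ℝ) + 1) ^ 2) * (n + 2) / (2 * (n - 2)) +
      (Real.pi / 2 / ((n : ℝ) + 1) ^ 2) ^ 2 / 4 / (n - 1) +
      (Real.pi / 2 / ((n : ℝ) + 1) ^ 2) / 2 *
        ((Real.pi / 2 / ((n : ℝ) + 1) ^ 2) / 2 + 1 / (n + 1)) ≤
    3 / (2 * ((n : ℝ) + 1) * (n - 2)) := by
  have hn' : (3 : ℝ) ≤ n := by exact_mod_cast hn
  obtain ⟨t, ht⟩ : ∃ t : ℝ, t = (n : ℝ) - 3 := ⟨_, rfl⟩
  have ht0 : 0 ≤ t := by rw [ht]; linarith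
  have hn1 : (n : ℝ) = t + 3 := by rw [ht]; ring
  rw [hn1]
  have hq0 : 0 ≤ Real.pi / 2 := by positivity
  have hq : Real.pi / 2 ≤ 1.5708 := by
    have h := Real.pi_lt_d4
    norm_num at h ⊢
    linarith
  have h1 := Num_id (Real.pi / 2) (t + 4) (by linarith) (by linarith) (by linarith)
  have h2 := Num_pos (Real.pi / 2) t hq0 hq ht0
  have e1 : t + 3 + 1 = t + 4 := by ring
  have e2 : t + 3 - 1 = t + 4 - 2 := by ring
  have e3 : t + 3 - 2 = t + 4 - 3 := by ring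
  have e4 : t + 3 + 2 = t + 4 + 1 := by ring
  rw [e1, e2, e3, e4]
  have e5 : t + 4 - 2 = t + 2 := by ring
  have e6 : t + 4 - 3 = t + 1 := by ring
  have e7 : t + 4 + 1 = t + 5 := by ring
  rw [← sub_nonneg, h1]
  rw [e5, e6, e7]
  refine div_nonneg h2 ?_
  positivity

end MB
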