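import Pool.Agent.H16.MC.Kgx
import Pool.Agent.H16.MB.Ftc
import Pool.Agent.H16.MB.Pol

/-!
Row Wrd (MP_c844e7, about 60 lines).  Weighted radial inequality in the plane.

PROOF.  `pol_int` for `F z = ofReal (gw s (rz z)) * nsq (u z - u 0)`, `rz_pol`; for every `θ` and `R > 0`, `ftc_sq` for `f r = u (pol r θ)` (`pol 0 θ = 0`, continuity of `u` and `pol`; `h · θ` is measurable):
`nsq (u (pol R θ) - u 0) ≤ ofReal R * ∫⁻ ρ in Ioo 0 R, nsq (h ρ θ)`.  `ofReal (R exp(-R²/2)) * (ofReal (gw s R) * ofReal R) = ofReal (gw s R * (R² exp(-R²/2)))`, which is the weight of `dbw`.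
(Compare the proved row Rad, `Pool/Agent/H16/MB/Rad.lean`.)
-/

set_option autoImplicit false

open MeasureTheory Set

namespace MB

theorem wrd {m : ℕ} {s : ℝ} (hs : 0 < s) (u : ℝ × ℝ → E m) (h : ℝ → ℝ → E m)
    (hc : Continuous u)
    (hd : ∀ θ, ∀ ρ > 0, HasDerivAt (fun r => u (pol r θ)) (h ρ θ) ρ)
    (hm : Measurable (Function.uncurry h)) :
    ∫⁻ z, ENNReal.ofReal (gw s (rz z)) * nsq (u z - u 0) ∂ga2 ≤
      ∫⁻ θ, dbw s (fun ρ => nsq (h ρ θ)) ∂ang := by
  have hmeas : Measurable (fun z : ℝ × ℝ => ENNReal.ofReal (gw s (rz z)) * nsq (u z - u 0)) := by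
    refine ((gw_meas s).comp rz_cont.measurable).ennreal_ofReal.mul ?_
    unfold nsq
    exact (((hc.sub continuous_const).norm.pow 2).measurable).ennreal_ofReal
  rw [pol_int _ hmeas]
  refine lintegral_mono fun θ => ?_
  unfold dbw
  refine setLIntegral_mono' measurableSet_Ioi fun R hR => ?_
  have hR0 : (0 : ℝ) < R := hR
  have hpc : Continuous (fun r : ℝ => pol r θ) := by
    unfold pol
    fun_prop
  have hp0 : pol 0 θ = 0 := by simp [pol]
  have hf := ftc_sq (fun r => u (pol r θ)) (fun r => h r θ) R hR0.le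
    (hc.comp hpc).continuousOn (fun x hx => hd θ x hx.1)
    (hm.comp (measurable_id.prodMk measurable_const)).aestronglyMeasurable
  simp only [hp0] at hf
  have hg := (gw_mem hs.le hR0.le).1
  rw [rz_pol hR0.le]
  calc ENNReal.ofReal (R * Real.exp (-R ^ 2 / 2)) * (ENNReal.ofReal (gw s R) *
        nsq (u (pol R θ) - u 0))
      ≤ ENNReal.ofReal (R * Real.exp (-R ^ 2 / 2)) * (ENNReal.ofReal (gw s R) *
          (ENNReal.ofReal R * ∫⁻ t in Ioo 0 R, nsq (h t θ))) := by gcongr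
    _ = ENNReal.ofReal (gw s R * (R ^ 2 * Real.exp (-R ^ 2 / 2))) *
          ∫⁻ ρ in Ioo 0 R, nsq (h ρ θ) := by
        rw [← mul_assoc, ← mul_assoc, ← ENNReal.ofReal_mul (by positivity),
          ← ENNReal.ofReal_mul (by positivity)]
        congr 2
        ring

end MB
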