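import Pool.Agent.H16.MC.Wvr
import Pool.Agent.H16.MC.Wrd
import Pool.Agent.H16.MB.Gpd

/-!
Row Wpw (MP_c844e7, about 100 lines).  Weighted Poincaré inequality without the angular derivative.

PROOF.  `wvr` with `μ = ga2`, `ν = gad (n+1)`, `w z = gw s (rz z)` (`gw_mem`, `rz ≥ 0`; `0 < ∫ w`: `w > 0` on the open set `rz z > s`, which has positive measure for `ga2`), `f = v` (`MemLp` by `mom_gaT`, `gaT n = ga2.prod (gad (n+1))`),
`b0 W = v (0, W)`.  First term: `wrd` for `z ↦ v (z, W)`, for every `W`.  Second term: for `z ≠ 0` (almost every `z`: `ga2 {0} = 0`) `gpd` for `W ↦ v (z, W)` (continuous, linear growth with constant `|C| (1 + ‖z‖)`), then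
`lintegral_const_mul`, `lintegral_prod` for `ofReal (w p.1) * nsq (g i p)`, `lintegral_finset_sum`.
(Compare the proved row Wp, `Pool/Agent/H16/MB/Wp.lean`.)
-/

set_option autoImplicit false

open MeasureTheory Set

namespace MB

theorem gw_int_pos {s : ℝ} (hs : 0 < s) : 0 < ∫ z, gw s (rz z) ∂ga2 := by
  have hmem : ∀ z : ℝ × ℝ, 0 ≤ gw s (rz z) ∧ gw s (rz z) ≤ 1 :=
    fun z => gw_mem hs.le (Real.sqrt_nonneg _)
  have hmeas : Measurable (fun z : ℝ × ℝ => gw s (rz z)) := (gw_meas s).comp rz_cont.measurable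
  have hint : Integrable (fun z : ℝ × ℝ => gw s (rz z)) ga2 := by
    refine Integrable.of_bound hmeas.aestronglyMeasurable 1 (Filter.Eventually.of_forall fun z => ?_)
    rw [Real.norm_eq_abs, abs_of_nonneg (hmem z).1]
    exact (hmem z).2
  rw [integral_pos_iff_support_of_nonneg (fun z => (hmem z).1) hint]
  have hsub : Ioi s ×ˢ (univ : Set ℝ) ⊆ Function.support (fun z : ℝ × ℝ => gw s (rz z)) := by
    rintro ⟨x, y⟩ hz
    have hx : s < x := hz.1
    have h1 : s < rz (x, y) := by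
      unfold rz
      apply Real.lt_sqrt_of_sq_lt
      nlinarith [sq_nonneg y]
    have h2 : 0 < rz (x, y) := hs.trans h1
    have h3 : 0 < 1 - s / rz (x, y) := by
      rw [sub_pos, div_lt_one h2]
      exact h1
    have h4 : 0 < gw s (rz (x, y)) := lt_max_of_lt_right h3
    exact h4.ne'
  refine lt_of_lt_of_le ?_ (measure_mono hsub)
  rw [Measure.prod_prod, measure_univ, mul_one, pos_iff_ne_zero]
  intro h0
  have h5 := (ProbabilityTheory.gaussianReal_absolutelyContinuous' (0 : ℝ) (v := 1) one_ne_zero) h0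
  rw [Real.volume_Ioi] at h5
  exact ENNReal.top_ne_zero h5

theorem Wpw_nsq_meas {m : ℕ} {γ : Type*} [MeasurableSpace γ] {h : γ → E m}
    (hh : Measurable h) : Measurable (fun x => nsq (h x)) := by
  unfold nsq
  exact (hh.norm.pow_const 2).ennreal_ofReal

theorem Wpw_ne : ∀ᵐ z ∂ga2, z ≠ (0 : ℝ × ℝ) := by
  have : NullSingletonClass ga :=
    ProbabilityTheory.nullSingletonClass_gaussianReal (by norm_num)
  rw [ae_iff]
  have e : {a : ℝ × ℝ | ¬ a ≠ 0} = {(0 : ℝ)} ×ˢ (univ : Set ℝ) ∩ {a | a = 0} := by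
    ext a
    simp only [ne_eq, not_not, mem_ofPred_eq, mem_inter_iff, mem_prod, mem_singleton_iff, mem_univ,
      and_true]
    constructor
    · intro h
      exact ⟨by rw [h]; rfl, h⟩
    · exact fun h => h.2
  rw [e]
  refine measure_mono_null inter_subset_left ?_
  rw [Measure.prod_prod, measure_singleton, zero_mul]

theorem Wpw_b1 {m : ℕ} {α β : Type*} [SeminormedAddCommGroup α] [SeminormedAddCommGroup β]
    {v : α × β → E m} {C : ℝ} (hC : ∀ p, ‖v p‖ ≤ C * (1 + ‖p‖)) (a : α) (b : β) :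
    ‖v (a, b)‖ ≤ |C| * ((1 + ‖a‖) * (1 + ‖b‖)) := by
  refine (hC (a, b)).trans ?_
  have h1 : ‖(a, b)‖ ≤ ‖a‖ + ‖b‖ := by
    rw [Prod.norm_def]
    exact max_le (by linarith [norm_nonneg b]) (by linarith [norm_nonneg a])
  have h2 : 0 ≤ ‖(a, b)‖ := norm_nonneg _
  calc C * (1 + ‖(a, b)‖) ≤ |C| * (1 + ‖(a, b)‖) :=
        mul_le_mul_of_nonneg_right (le_abs_self C) (by linarith)
    _ ≤ |C| * ((1 + ‖a‖) * (1 + ‖b‖)) := by
        refine mul_le_mul_of_nonneg_left ?_ (abs_nonneg C)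
        nlinarith [mul_nonneg (norm_nonneg a) (norm_nonneg b)]

theorem wpw {m : ℕ} (n : ℕ) {s : ℝ} (hs : 0 < s) (v : (ℝ × ℝ) × (Fin (n + 1) → ℝ) → E m)
    (g : Fin (n + 1) → (ℝ × ℝ) × (Fin (n + 1) → ℝ) → E m)
    (h : ℝ → ℝ → (Fin (n + 1) → ℝ) → E m) (hc : Continuous v) (C : ℝ)
    (hC : ∀ p, ‖v p‖ ≤ C * (1 + ‖p‖))
    (hg : ∀ z : ℝ × ℝ, z ≠ 0 → ∀ (W : Fin (n + 1) → ℝ) (i : Fin (n + 1)),
      HasDerivAt (fun t => v (z, Function.update W i t)) (g i (z, W)) (W i))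
    (hgm : ∀ i, Measurable (g i))
    (hd : ∀ (W : Fin (n + 1) → ℝ) (θ : ℝ), ∀ ρ > 0,
      HasDerivAt (fun r => v (pol r θ, W)) (h ρ θ W) ρ)
    (hm : Measurable (fun p : ℝ × ℝ × (Fin (n + 1) → ℝ) => h p.1 p.2.1 p.2.2))
    (h0 : ∫ p, gw s (rz p.1) • v p ∂(gaT n) = 0) :
    ∫⁻ p, ENNReal.ofReal (gw s (rz p.1)) * nsq (v p) ∂(gaT n) ≤
      ∑ i, ∫⁻ p, ENNReal.ofReal (gw s (rz p.1)) * nsq (g i p) ∂(gaT n) +
      ∫⁻ W, ∫⁻ θ, dbw s (fun ρ => nsq (h ρ θ W)) ∂ang ∂(gad (n + 1)) := by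
  have hmem : ∀ z : ℝ × ℝ, 0 ≤ gw s (rz z) ∧ gw s (rz z) ≤ 1 :=
    fun z => gw_mem hs.le (Real.sqrt_nonneg _)
  have hmeas : Measurable (fun z : ℝ × ℝ => gw s (rz z)) := (gw_meas s).comp rz_cont.measurable
  refine (wvr ga2 (gad (n + 1)) (fun z => gw s (rz z)) hmeas (fun z => (hmem z).1)
    (fun z => (hmem z).2) (gw_int_pos hs) v (mom_gaT n v hc C hC) h0 (fun W => v (0, W))
    (hc.comp (Continuous.prodMk_right 0)).measurable).trans ?_
  rw [add_comm]
  refine add_le_add ?_ ?_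
  · have h2 : ∀ᵐ z ∂ga2, ENNReal.ofReal (gw s (rz z)) *
        ∫⁻ W, nsq (v (z, W) - ∫ W', v (z, W') ∂(gad (n + 1))) ∂(gad (n + 1)) ≤
        ∑ i, ∫⁻ W, ENNReal.ofReal (gw s (rz z)) * nsq (g i (z, W)) ∂(gad (n + 1)) := by
      filter_upwards [Wpw_ne] with z hz
      have h3 : ∀ i : Fin (n + 1), ∫⁻ W, ENNReal.ofReal (gw s (rz z)) * nsq (g i (z, W)) ∂(gad (n + 1)) =
          ENNReal.ofReal (gw s (rz z)) * ∫⁻ W, nsq (g i (z, W)) ∂(gad (n + 1)) := by
        intro i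
        have h5 : Measurable (fun W : Fin (n + 1) → ℝ => nsq (g i (z, W))) :=
          Wpw_nsq_meas ((hgm i).comp measurable_prodMk_left)
        exact lintegral_const_mul _ h5
      rw [Finset.sum_congr rfl (fun i _ => h3 i), ← Finset.mul_sum]
      refine mul_le_mul_right ?_ _
      refine gpd (n + 1) (fun W => v (z, W)) (fun i W => g i (z, W))
        (hc.comp (Continuous.prodMk_right z)) (|C| * (1 + ‖z‖)) (fun W => ?_)
        (fun W i => hg z hz W i) (fun i => (hgm i).comp measurable_prodMk_left)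
      refine (Wpw_b1 hC z W).trans (le_of_eq ?_)
      ring
    have h4 : ∀ i, Measurable (fun p : (ℝ × ℝ) × (Fin (n + 1) → ℝ) =>
        ENNReal.ofReal (gw s (rz p.1)) * nsq (g i p)) := fun i =>
      (hmeas.comp measurable_fst).ennreal_ofReal.mul (Wpw_nsq_meas (hgm i))
    refine (lintegral_mono_ae h2).trans (le_of_eq ?_)
    rw [lintegral_finsetSum]
    · refine Finset.sum_congr rfl fun i _ => ?_
      rw [lintegral_prod _ (h4 i).aemeasurable]
    · intro i _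
      exact (h4 i).lintegral_prod_right'
  · refine lintegral_mono fun W => ?_
    exact wrd hs (fun z => v (z, W)) (fun ρ θ => h ρ θ W) (hc.comp (Continuous.prodMk_left W))
      (fun θ ρ hρ => hd W θ ρ hρ)
      (hm.comp (measurable_fst.prodMk (measurable_snd.prodMk measurable_const)))

end MB
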