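import Pool.Agent.H16.MB.Efs

/-!
Row Wvr (MP_c844e7, about 150 lines).  A weighted variance inequality with two blocks.

PROOF.  `G = ∫ w dμ > 0`, `m b = G⁻¹ • ∫ a, w a • f (a, b) ∂μ`, `k a = ∫ b, f (a, b) ∂ν`.  For almost every `b` (those with `f (·, b) ∈ L²(μ)`) expand the squares:
(1) `∫⁻_a w ‖f‖² = ∫⁻_a w ‖f - m b‖² + G ‖m b‖²` and (2) `∫⁻_a w ‖f - m b‖² ≤ ∫⁻_a w ‖f - β b‖²` (the same with `β b`: `∫ w‖f-β‖² = ∫ w‖f-m‖² + G‖m-β‖²`).
(3) `∫ w • f ∂(μ.prod ν) = 0` and Fubini give `∫ a, w a • k a ∂μ = 0`, so `m b = G⁻¹ • ∫ a, w a • (f (a,b) - k a) ∂μ`, and by Cauchy–Schwarz (Jensen for the probability measure `G⁻¹ w μ`)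
`G ‖m b‖² ≤ ∫⁻_a w ‖f (a,b) - k a‖²` (if the right side is `⊤` nothing to show; it is finite for almost every `b`).
Integrate over `b` and exchange the order in the second term (`lintegral_lintegral_swap`; `k` is a.e. strongly measurable: `AEStronglyMeasurable.integral_prod_right'`).
(Compare the proved row Efs, `Pool/Agent/H16/MB/Efs.lean`.)
-/

set_option autoImplicit false

open MeasureTheory Set

namespace MB

variable {α β : Type*} [MeasurableSpace α] [MeasurableSpace β] {m : ℕ}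

theorem Wvr_lint (μ : Measure α) {w : α → ℝ} (hw : Measurable w) {G : ℝ}
    (hG : 0 < G) (h : α → ENNReal) :
    ENNReal.ofReal G * ∫⁻ a, h a ∂(μ.withDensity fun a => ENNReal.ofReal (w a / G)) =
      ∫⁻ a, ENNReal.ofReal (w a) * h a ∂μ := by
  rw [lintegral_withDensity_eq_lintegral_mul_non_measurable μ
    ((hw.div_const G).ennreal_ofReal) (Filter.Eventually.of_forall fun a => ENNReal.ofReal_lt_top),
    ← lintegral_const_mul' _ _ ENNReal.ofReal_ne_top]
  apply lintegral_congr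
  intro a
  rw [Pi.mul_apply, ← mul_assoc, ← ENNReal.ofReal_mul hG.le, mul_div_cancel₀ _ hG.ne']

theorem wvr (μ : Measure α) (ν : Measure β) [IsProbabilityMeasure μ] [IsProbabilityMeasure ν]
    (w : α → ℝ) (hw : Measurable w) (h0 : ∀ a, 0 ≤ w a) (h1 : ∀ a, w a ≤ 1)
    (hpos : 0 < ∫ a, w a ∂μ) (f : α × β → E m) (hf : MemLp f 2 (μ.prod ν))
    (hz : ∫ p, w p.1 • f p ∂(μ.prod ν) = 0) (b0 : β → E m) (hb : Measurable b0) :
    ∫⁻ p, ENNReal.ofReal (w p.1) * nsq (f p) ∂(μ.prod ν) ≤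
      ∫⁻ b, ∫⁻ a, ENNReal.ofReal (w a) * nsq (f (a, b) - b0 b) ∂μ ∂ν +
        ∫⁻ a, ENNReal.ofReal (w a) * ∫⁻ b, nsq (f (a, b) - ∫ b', f (a, b') ∂ν) ∂ν ∂μ := by
  obtain ⟨G, hG⟩ : ∃ G, G = ∫ a, w a ∂μ := ⟨_, rfl⟩
  rw [← hG] at hpos
  have hwi : Integrable w μ :=
    Integrable.of_bound hw.aestronglyMeasurable 1 (Filter.Eventually.of_forall fun a => by
      rw [Real.norm_of_nonneg (h0 a)]
      exact h1 a)
  obtain ⟨κ, hκ⟩ : ∃ κ, κ = μ.withDensity fun a => ENNReal.ofReal (w a / G) := ⟨_, rfl⟩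
  have hκp : IsProbabilityMeasure κ := by
    constructor
    rw [hκ, withDensity_apply _ MeasurableSet.univ, Measure.restrict_univ,
      ← ofReal_integral_eq_lintegral_ofReal (hwi.div_const G)
        (Filter.Eventually.of_forall fun a => div_nonneg (h0 a) hpos.le), integral_div, ← hG,
      div_self hpos.ne', ENNReal.ofReal_one]
  have hle : κ ≤ ENNReal.ofReal G⁻¹ • μ := by
    rw [hκ, ← withDensity_const]
    apply withDensity_mono
    refine Filter.Eventually.of_forall fun a => ENNReal.ofReal_le_ofReal ?_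
    rw [div_eq_mul_inv]
    exact mul_le_of_le_one_left (inv_nonneg.2 hpos.le) (h1 a)
  have hi : Integrable f (μ.prod ν) := hf.integrable (by norm_num)
  have hsq : Integrable (fun p => ‖f p‖ ^ 2) (μ.prod ν) :=
    MemLp.integrable_norm_pow (p := 2) (by exact_mod_cast hf) (by norm_num)
  have hmem : ∀ᵐ b ∂ν, MemLp (fun a => f (a, b)) 2 μ := by
    filter_upwards [hsq.prod_left_ae, hi.prod_left_ae] with b hb1 hb2
    exact (memLp_two_iff_integrable_sq_norm hb2.aestronglyMeasurable).2 hb1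
  have hk : AEStronglyMeasurable (fun a => ∫ b', f (a, b') ∂ν) μ :=
    hi.aestronglyMeasurable.integral_prod_right'
  have hki : Integrable (fun a => ∫ b', f (a, b') ∂ν) μ := hi.integral_prod_left
  have hkκ : Integrable (fun a => ∫ b', f (a, b') ∂ν) κ :=
    hki.of_measure_le_smul ENNReal.ofReal_ne_top hle
  have hwf : Integrable (fun p : α × β => w p.1 • f p) (μ.prod ν) := by
    refine hi.bdd_smul 1 (hw.comp measurable_fst).aestronglyMeasurable
      (Filter.Eventually.of_forall fun p => ?_)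
    change ‖w p.1‖ ≤ 1
    rw [Real.norm_of_nonneg (h0 _)]
    exact h1 _
  have hk0 : ∫ a, ∫ b', f (a, b') ∂ν ∂κ = 0 := by
    rw [hκ, integral_withDensity_eq_integral_toReal_smul ((hw.div_const G).ennreal_ofReal)
      (Filter.Eventually.of_forall fun a => ENNReal.ofReal_lt_top)]
    have e1 : ∀ a, (ENNReal.ofReal (w a / G)).toReal • ∫ b', f (a, b') ∂ν =
        G⁻¹ • ∫ b', w a • f (a, b') ∂ν := by
      intro a
      rw [ENNReal.toReal_ofReal (div_nonneg (h0 a) hpos.le), integral_smul, smul_smul,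
        div_eq_inv_mul]
    rw [integral_congr_ae (Filter.Eventually.of_forall e1), integral_smul,
      ← integral_prod (fun p : α × β => w p.1 • f p) hwf, hz, smul_zero]
  have hg : AEMeasurable (fun p : α × β => ENNReal.ofReal (w p.1) *
      nsq (f p - ∫ b', f (p.1, b') ∂ν)) (μ.prod ν) :=
    ((hw.comp measurable_fst).ennreal_ofReal.aemeasurable).mul
      (Efs_meas (hi.aestronglyMeasurable.sub hk.comp_fst))
  have key : ∀ᵐ b ∂ν, ∫⁻ a, ENNReal.ofReal (w a) * nsq (f (a, b)) ∂μ ≤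
      ∫⁻ a, ENNReal.ofReal (w a) * nsq (f (a, b) - b0 b) ∂μ +
        ∫⁻ a, ENNReal.ofReal (w a) * nsq (f (a, b) - ∫ b', f (a, b') ∂ν) ∂μ := by
    filter_upwards [hmem] with b hb
    have hbκ : MemLp (fun a => f (a, b)) 2 κ :=
      hb.of_measure_le_smul ENNReal.ofReal_ne_top hle
    have hbi : Integrable (fun a => f (a, b)) κ := hbκ.integrable (by norm_num)
    rw [← Wvr_lint μ hw hpos, ← Wvr_lint μ hw hpos, ← Wvr_lint μ hw hpos, ← hκ, ← mul_add]
    gcongr
    have e1 := Efs_steiner κ (fun a => f (a, b)) hbκ 0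
    simp only [sub_zero] at e1
    rw [e1]
    refine add_le_add (var_min κ _ hbκ _) ?_
    have e : (∫ a', f (a', b) ∂κ) = ∫ a, (f (a, b) - ∫ b', f (a, b') ∂ν) ∂κ := by
      rw [integral_sub hbi hkκ, hk0, sub_zero]
    rw [e]
    exact Efs_jensen κ _ (hbi.sub hkκ).aestronglyMeasurable
  have hsw : ∫⁻ a, ENNReal.ofReal (w a) * ∫⁻ b, nsq (f (a, b) - ∫ b', f (a, b') ∂ν) ∂ν ∂μ =
      ∫⁻ b, ∫⁻ a, ENNReal.ofReal (w a) * nsq (f (a, b) - ∫ b', f (a, b') ∂ν) ∂μ ∂ν := by
    rw [← lintegral_lintegral_swap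
      (f := fun a b => ENNReal.ofReal (w a) * nsq (f (a, b) - ∫ b', f (a, b') ∂ν)) hg]
    apply lintegral_congr
    intro a
    rw [lintegral_const_mul' _ _ ENNReal.ofReal_ne_top]
  have hg2 : AEMeasurable (fun p : α × β => ENNReal.ofReal (w p.1) * nsq (f p)) (μ.prod ν) :=
    ((hw.comp measurable_fst).ennreal_ofReal.aemeasurable).mul
      (Efs_meas hi.aestronglyMeasurable)
  rw [hsw, lintegral_prod_symm _ hg2, ← lintegral_add_right' _ hg.lintegral_prod_left']
  exact lintegral_mono_ae key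

end MB
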